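import Pool.Agent.V8H99.RP.Block

set_option autoImplicit false

/-!
# Random perturbations of the standard map: average over the noise
-/

namespace Pool.Agent.V8H99.RP

open Real MeasureTheory Set Function
open Pool.Agent.TH705.SM (L L_cont phi phi_coe phi_cont T2 S S_mp)
open Pool.Agent.V1152.SMI (cc cc_coe cc_cont cc_le ff ff_cont ff_mean Lper)

/-- the noise on the circle -/
noncomputable def ext {n : ℕ} (w : Fin n → ℝ) (k : ℕ) : TT :=
  if h : k < n then ((w ⟨k, h⟩ : ℝ) : TT) else 0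

theorem ext_meas {n : ℕ} (k : ℕ) : Measurable fun w : Fin n → ℝ => ext w k := by
  unfold ext
  by_cases h : k < n
  · simp only [h, dif_pos]
    have h1 : Measurable fun x : ℝ => (x : TT) := (AddCircle.continuous_mk' 1).measurable
    exact h1.comp (measurable_pi_apply _)
  · simp only [h, dif_neg, not_false_iff]
    exact measurable_const

theorem ext_update {n : ℕ} (w : Fin n → ℝ) (i : ℕ) (hi : i < n) (x : ℝ) (k : ℕ) :
    ext (Function.update w ⟨i, hi⟩ x) k = if k = i then (x : TT) else ext w k := by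
  unfold ext
  by_cases h : k < n
  · simp only [h, dif_pos]
    by_cases hk : k = i
    · subst hk
      simp
    · rw [if_neg hk, Function.update_of_ne]
      intro h2
      exact hk (Fin.mk.inj h2)
  · simp only [h, dif_neg, not_false_iff]
    rw [if_neg]
    rintro rfl
    exact h hi

theorem pi_four {n : ℕ} {ν : Measure ℝ} [IsProbabilityMeasure ν] {f : (Fin n → ℝ) → ENNReal}
    (hf : Measurable f) {i1 i2 i3 i4 : Fin n} (h12 : i1 ≠ i2) (h13 : i1 ≠ i3) (h14 : i1 ≠ i4)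
    (h23 : i2 ≠ i3) (h24 : i2 ≠ i4) (h34 : i3 ≠ i4) {C : ENNReal}
    (h : ∀ w, ∫⁻ x1, ∫⁻ x2, ∫⁻ x3, ∫⁻ x4, f (Function.update (Function.update (Function.update
      (Function.update w i1 x1) i2 x2) i3 x3) i4 x4) ∂ν ∂ν ∂ν ∂ν ≤ C) :
    ∫⁻ w, f w ∂(Measure.pi fun _ => ν) ≤ C := by
  have e : ∀ w, (lmarginal (fun _ : Fin n => ν) {i1, i2, i3, i4} f) w ≤ C := by
    intro w
    refine le_trans (le_of_eq ?_) (h w)
    rw [lmarginal_insert _ hf (by simp [h12, h13, h14])]
    apply lintegral_congr; intro x1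
    rw [lmarginal_insert _ hf (by simp [h23, h24])]
    apply lintegral_congr; intro x2
    rw [lmarginal_insert _ hf (by simp [h34])]
    apply lintegral_congr; intro x3
    rw [lmarginal_singleton]
  have h2 : ∫⁻ w, f w ∂(Measure.pi fun _ => ν) ≤ ∫⁻ _ : Fin n → ℝ, C ∂(Measure.pi fun _ => ν) := by
    apply lintegral_le_of_lmarginal_le {i1, i2, i3, i4} hf measurable_const
    intro w
    refine (e w).trans (le_of_eq ?_)
    unfold lmarginal
    rw [lintegral_const, measure_univ, mul_one]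
  rwa [lintegral_const, measure_univ, mul_one] at h2

theorem orb_congr (a : ℝ) {w w' : ℕ → TT} {k : ℕ} (h : ∀ j, j < k → w j = w' j) (p : T2) :
    orb a w k p = orb a w' k p := by
  induction k with
  | zero => rfl
  | succ k ih =>
    show st a (w k) (orb a w k p) = st a (w' k) (orb a w' k p)
    rw [ih fun j hj => h j (by omega), h k (by omega)]

theorem vec_congr {c c' : ℕ → ℝ} {k : ℕ} (h : ∀ j, j < k → c j = c' j) (v : ℝ × ℝ) :
    vec c v k = vec c' v k := by
  induction k with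
  | zero => rfl
  | succ k ih =>
    show stp (c k) (vec c v k) = stp (c' k) (vec c' v k)
    rw [ih fun j hj => h j (by omega), h k (by omega)]

theorem cs_congr (a : ℝ) {w w' : ℕ → TT} {k : ℕ} (h : ∀ j, j < k → w j = w' j) (p : T2)
    {j : ℕ} (hj : j < k) : cs a w p j = cs a w' p j := by
  unfold cs
  rw [orb_congr a fun i hi => h i (by omega)]

theorem Bd_iff (a : ℝ) (w : ℕ → TT) (k N : ℕ) (τ : ℝ) (p : T2) : p ∈ Bd a w (k + 4) N τ ↔
    (((st a (w k) (orb a w k p)).2, (st a (w (k + 1)) (st a (w k) (orb a w k p))).2),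
      ((st a (w (k + 2)) (st a (w (k + 1)) (st a (w k) (orb a w k p)))).2,
        (st a (w (k + 3)) (st a (w (k + 2)) (st a (w (k + 1)) (st a (w k) (orb a w k p))))).2)) ∈
      BadSet a τ (vec (cs a w p) (1, 0) k) (fun P => kap (cs a (fun j => w (k + 4 + j)) P) N) :=
  Iff.rfl

theorem Bd_noise (a τ : ℝ) {n k : ℕ} (N : ℕ) (hk : k + 4 ≤ n) (w0 : Fin n → ℝ) (p : T2)
    (x1 x2 x3 x4 : ℝ) : p ∈ Bd a (ext (Function.update (Function.update (Function.update
      (Function.update w0 ⟨k, by omega⟩ x1) ⟨k + 1, by omega⟩ x2) ⟨k + 2, by omega⟩ x3)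
        ⟨k + 3, by omega⟩ x4)) (k + 4) N τ ↔
    (((st a (x1 : TT) (orb a (ext w0) k p)).2, (st a (x2 : TT) (st a (x1 : TT)
      (orb a (ext w0) k p))).2),
      ((st a (x3 : TT) (st a (x2 : TT) (st a (x1 : TT) (orb a (ext w0) k p)))).2,
        (st a (x4 : TT) (st a (x3 : TT) (st a (x2 : TT) (st a (x1 : TT)
          (orb a (ext w0) k p))))).2)) ∈
      BadSet a τ (vec (cs a (ext w0) p) (1, 0) k)
        (fun P => kap (cs a (fun j => ext w0 (k + 4 + j)) P) N) := by
  set w := ext (Function.update (Function.update (Function.update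
      (Function.update w0 ⟨k, by omega⟩ x1) ⟨k + 1, by omega⟩ x2) ⟨k + 2, by omega⟩ x3)
        ⟨k + 3, by omega⟩ x4) with hw
  have hlt : ∀ j, j < k → w j = ext w0 j := by
    intro j hj
    rw [hw, ext_update, ext_update, ext_update, ext_update, if_neg (by omega), if_neg (by omega),
      if_neg (by omega), if_neg (by omega)]
  have hge : ∀ j, w (k + 4 + j) = ext w0 (k + 4 + j) := by
    intro j
    rw [hw, ext_update, ext_update, ext_update, ext_update, if_neg (by omega), if_neg (by omega),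
      if_neg (by omega), if_neg (by omega)]
  have h1 : w k = (x1 : TT) := by
    rw [hw, ext_update, ext_update, ext_update, ext_update, if_neg (by omega), if_neg (by omega),
      if_neg (by omega), if_pos rfl]
  have h2 : w (k + 1) = (x2 : TT) := by
    rw [hw, ext_update, ext_update, ext_update, if_neg (by omega), if_neg (by omega), if_pos rfl]
  have h3 : w (k + 2) = (x3 : TT) := by
    rw [hw, ext_update, ext_update, if_neg (by omega), if_pos rfl]
  have h4 : w (k + 3) = (x4 : TT) := by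
    rw [hw, ext_update, if_pos rfl]
  have hV : vec (cs a w p) (1, 0) k = vec (cs a (ext w0) p) (1, 0) k :=
    vec_congr (fun j hj => cs_congr a hlt p hj) (1, 0)
  have hP : orb a w k p = orb a (ext w0) k p := orb_congr a hlt p
  have hK : (fun j => w (k + 4 + j)) = fun j => ext w0 (k + 4 + j) := funext hge
  rw [Bd_iff, hV, hP, h1, h2, h3, h4, hK]

theorem noise_Bd {a κ : ℝ} {ν : Measure ℝ} [IsProbabilityMeasure ν] {M : ENNReal} (ha : 16 ≤ |a|)
    (hν : ν ≤ M • volume.restrict (Icc (-1 / 2 : ℝ) (1 / 2))) (hκ0 : 0 < κ) (hκ1 : κ ≤ 1)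
    {n k : ℕ} (hk : k + 4 ≤ n) (N : ℕ) (p : T2) :
    ∫⁻ w : Fin n → ℝ, (Bd a (ext w) (k + 4) N (κ ^ 6 / (2 * (7 * |a|) ^ 5))).indicator
      (fun _ => (1 : ENNReal)) p ∂(Measure.pi fun _ => ν) ≤ M ^ 4 * ENNReal.ofReal (9 * κ) := by
  have hm : Measurable fun w : Fin n → ℝ => (Bd a (ext w) (k + 4) N
      (κ ^ 6 / (2 * (7 * |a|) ^ 5))).indicator (fun _ => (1 : ENNReal)) p := by
    have h1 := Bd_jm a (w := fun w : Fin n → ℝ => ext w) (p := fun _ => p) (fun k => ext_meas k)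
      measurable_const (k + 4) N (κ ^ 6 / (2 * (7 * |a|) ^ 5))
    exact (measurable_const (a := (1 : ENNReal))).indicator h1
  refine pi_four (i1 := ⟨k, by omega⟩) (i2 := ⟨k + 1, by omega⟩) (i3 := ⟨k + 2, by omega⟩)
    (i4 := ⟨k + 3, by omega⟩) hm ?_ ?_ ?_ ?_ ?_ ?_ ?_
  · intro h; have := Fin.mk.inj h; omega
  · intro h; have := Fin.mk.inj h; omega
  · intro h; have := Fin.mk.inj h; omega
  · intro h; have := Fin.mk.inj h; omega
  · intro h; have := Fin.mk.inj h; omega
  · intro h; have := Fin.mk.inj h; omega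
  intro w0
  have hKm : Measurable (fun P : T2 => kap (cs a (fun j => ext w0 (k + 4 + j)) P) N) :=
    kap_jm (cs_jm a (w := fun (_ : T2) j => ext w0 (k + 4 + j)) (fun _ => measurable_const)
      measurable_id) N
  have hV : 0 < ‖vec (cs a (ext w0) p) (1, 0) k‖ := vec_pos (by rw [norm_e1]; norm_num) k
  have h1 := bad_all (K := fun P : T2 => kap (cs a (fun j => ext w0 (k + 4 + j)) P) N) ha hKm
    hκ0 hκ1 hV
  have h2 := four (a := a) (BadSet_meas a (κ ^ 6 / (2 * (7 * |a|) ^ 5)) (vec (cs a (ext w0) p) (1, 0) k)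
    hKm) hν (orb a (ext w0) k p)
  refine le_trans (le_of_eq ?_) (h2.trans (mul_le_mul_right h1 _))
  apply lintegral_congr; intro x1
  apply lintegral_congr; intro x2
  apply lintegral_congr; intro x3
  apply lintegral_congr; intro x4
  have h3 := Bd_noise a (κ ^ 6 / (2 * (7 * |a|) ^ 5)) N hk w0 p x1 x2 x3 x4
  by_cases hp : p ∈ Bd a (ext (Function.update (Function.update (Function.update
      (Function.update w0 ⟨k, by omega⟩ x1) ⟨k + 1, by omega⟩ x2) ⟨k + 2, by omega⟩ x3)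
        ⟨k + 3, by omega⟩ x4)) (k + 4) N (κ ^ 6 / (2 * (7 * |a|) ^ 5))
  · rw [Set.indicator_of_mem hp, Set.indicator_of_mem (h3.1 hp)]
  · rw [Set.indicator_of_notMem hp, Set.indicator_of_notMem (fun h => hp (h3.2 h))]

theorem jm_snd {n : ℕ} : ∀ k, Measurable fun x : (Fin n → ℝ) × T2 => ext x.1 k :=
  fun k => (ext_meas k).comp measurable_fst

theorem avg_Bd {a κ : ℝ} {ν : Measure ℝ} [IsProbabilityMeasure ν] {M : ENNReal} (ha : 16 ≤ |a|)
    (hν : ν ≤ M • volume.restrict (Icc (-1 / 2 : ℝ) (1 / 2))) (hκ0 : 0 < κ) (hκ1 : κ ≤ 1)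
    {n k : ℕ} (hk : k + 4 ≤ n) (N : ℕ) :
    ∫⁻ w : Fin n → ℝ, volume (Bd a (ext w) (k + 4) N (κ ^ 6 / (2 * (7 * |a|) ^ 5)))
      ∂(Measure.pi fun _ => ν) ≤ M ^ 4 * ENNReal.ofReal (9 * κ) := by
  set τ := κ ^ 6 / (2 * (7 * |a|) ^ 5) with hτ
  have hj : MeasurableSet {x : (Fin n → ℝ) × T2 | x.2 ∈ Bd a (ext x.1) (k + 4) N τ} :=
    Bd_jm a (w := fun x : (Fin n → ℝ) × T2 => ext x.1) (p := fun x => x.2) jm_snd measurable_snd
      (k + 4) N τ
  have e1 : ∀ w : Fin n → ℝ, volume (Bd a (ext w) (k + 4) N τ) =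
      ∫⁻ p : T2, (Bd a (ext w) (k + 4) N τ).indicator (fun _ => (1 : ENNReal)) p := by
    intro w
    exact (lintegral_indicator_one (Bd_meas a (ext w) (k + 4) N τ)).symm
  simp_rw [e1]
  rw [lintegral_lintegral_swap (f := fun (w : Fin n → ℝ) (p : T2) =>
    (Bd a (ext w) (k + 4) N τ).indicator (fun _ => (1 : ENNReal)) p)
    (((measurable_const (a := (1 : ENNReal))).indicator hj).aemeasurable)]
  calc ∫⁻ p : T2, ∫⁻ w : Fin n → ℝ, (Bd a (ext w) (k + 4) N τ).indicator
        (fun _ => (1 : ENNReal)) p ∂(Measure.pi fun _ => ν)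
      ≤ ∫⁻ _ : T2, M ^ 4 * ENNReal.ofReal (9 * κ) :=
        lintegral_mono fun p => noise_Bd ha hν hκ0 hκ1 hk N p
    _ = M ^ 4 * ENNReal.ofReal (9 * κ) := by rw [lintegral_const, measure_univ, mul_one]

theorem Bd_vol_meas (a τ : ℝ) {n : ℕ} (m N : ℕ) :
    Measurable fun w : Fin n → ℝ => volume (Bd a (ext w) m N τ) := by
  have hj : MeasurableSet {x : (Fin n → ℝ) × T2 | x.2 ∈ Bd a (ext x.1) m N τ} :=
    Bd_jm a (w := fun x : (Fin n → ℝ) × T2 => ext x.1) (p := fun x => x.2) jm_snd measurable_snd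
      m N τ
  exact measurable_measure_prodMk_left hj

theorem avg_real {a κ M : ℝ} {ν : Measure ℝ} [IsProbabilityMeasure ν] (ha : 16 ≤ |a|)
    (hM : 0 ≤ M) (hν : ν ≤ ENNReal.ofReal M • volume.restrict (Icc (-1 / 2 : ℝ) (1 / 2)))
    (hκ0 : 0 < κ) (hκ1 : κ ≤ 1) {n k : ℕ} (hk : k + 4 ≤ n) (N : ℕ) :
    ∫ w : Fin n → ℝ, volume.real (Bd a (ext w) (k + 4) N (κ ^ 6 / (2 * (7 * |a|) ^ 5)))
      ∂(Measure.pi fun _ => ν) ≤ M ^ 4 * (9 * κ) := by
  have h := avg_Bd (κ := κ) ha hν hκ0 hκ1 hk N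
  have e : ∫ w : Fin n → ℝ, volume.real (Bd a (ext w) (k + 4) N (κ ^ 6 / (2 * (7 * |a|) ^ 5)))
      ∂(Measure.pi fun _ => ν) = (∫⁻ w : Fin n → ℝ, volume (Bd a (ext w) (k + 4) N
        (κ ^ 6 / (2 * (7 * |a|) ^ 5))) ∂(Measure.pi fun _ => ν)).toReal := by
    apply integral_toReal (Bd_vol_meas a _ (k + 4) N).aemeasurable
    exact Filter.Eventually.of_forall fun w => measure_lt_top _ _
  rw [e]
  apply ENNReal.toReal_le_of_le_ofReal (by positivity)
  refine h.trans (le_of_eq ?_)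
  rw [ENNReal.ofReal_mul (pow_nonneg hM 4), ENNReal.ofReal_pow hM]

theorem Bd_real_int (a τ : ℝ) {ν : Measure ℝ} [IsProbabilityMeasure ν] {n : ℕ} (m N : ℕ) :
    Integrable (fun w : Fin n → ℝ => volume.real (Bd a (ext w) m N τ))
      (Measure.pi fun _ => ν) := by
  refine Integrable.of_bound (Bd_vol_meas a τ m N).ennreal_toReal.aestronglyMeasurable 1 ?_
  refine Filter.Eventually.of_forall fun w => ?_
  show ‖volume.real (Bd a (ext w) m N τ)‖ ≤ 1
  rw [Real.norm_of_nonneg measureReal_nonneg]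
  exact measureReal_le_one

theorem J_meas (a : ℝ) {n : ℕ} (m : ℕ) : StronglyMeasurable fun w : Fin n → ℝ => J a (ext w) m := by
  have h : StronglyMeasurable fun x : (Fin n → ℝ) × T2 => lg a (ext x.1) m x.2 :=
    (lg_jm a (w := fun x : (Fin n → ℝ) × T2 => ext x.1) jm_snd measurable_snd m).stronglyMeasurable
  exact h.integral_prod_right'

theorem J_int {a : ℝ} (ha : 16 ≤ |a|) {ν : Measure ℝ} [IsProbabilityMeasure ν] {n : ℕ} (m : ℕ) :
    Integrable (fun w : Fin n → ℝ => J a (ext w) m) (Measure.pi fun _ => ν) := by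
  refine Integrable.of_bound (J_meas a m).aestronglyMeasurable (m * log (7 * |a|)) ?_
  exact Filter.Eventually.of_forall fun w => J_abs ha _ m

/-- the mean over the noise -/
noncomputable def A (a : ℝ) (ν : Measure ℝ) (n m : ℕ) : ℝ :=
  ∫ w : Fin n → ℝ, J a (ext w) m ∂(Measure.pi fun _ => ν)

/-- the mean rate of a block of length `N` -/
noncomputable def rate (a : ℝ) (N : ℕ) : ℝ :=
  log (π * |a|) - 32 * ll a / |a| - 660 * N * ll a ^ 2 / |a| ^ 2

theorem A_block {a : ℝ} (ha : 16 ≤ |a|) {ν : Measure ℝ} [IsProbabilityMeasure ν] (n m : ℕ) :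
    m * rate a m ≤ A a ν n m := by
  unfold A
  have h := integral_mono (μ := Measure.pi fun _ : Fin n => ν) (integrable_const (m * rate a m))
    (J_int ha m) fun w => block_low ha (ext w) m
  rwa [integral_const, probReal_univ, one_smul] at h

theorem A_join {a κ M : ℝ} {ν : Measure ℝ} [IsProbabilityMeasure ν] (ha : 16 ≤ |a|)
    (hM : 0 ≤ M) (hν : ν ≤ ENNReal.ofReal M • volume.restrict (Icc (-1 / 2 : ℝ) (1 / 2)))
    (hκ0 : 0 < κ) (hκ1 : κ ≤ 1) {n m : ℕ} (hm : 4 ≤ m) (hmn : m ≤ n) (N : ℕ) :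
    A a ν n m + N * rate a N + log (κ ^ 6 / (2 * (7 * |a|) ^ 5)) -
      2 * N * log (7 * |a|) * (M ^ 4 * (9 * κ)) ≤ A a ν n (m + N) := by
  obtain ⟨k, rfl⟩ : ∃ k, m = k + 4 := ⟨m - 4, by omega⟩
  set τ := κ ^ 6 / (2 * (7 * |a|) ^ 5) with hτ
  have ha0 : 0 < |a| := by linarith
  have hτ0 : 0 < τ := by positivity
  have hτ1 : τ ≤ 1 := by
    rw [hτ, div_le_one (by positivity)]
    have h1 : κ ^ 6 ≤ 1 := pow_le_one₀ hκ0.le hκ1
    have h2 : 1 ≤ (7 * |a|) ^ 5 := one_le_pow₀ (by linarith)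
    linarith
  have h1 : ∀ w : Fin n → ℝ, J a (ext w) (k + 4) + N * rate a N + log τ -
      2 * N * log (7 * |a|) * volume.real (Bd a (ext w) (k + 4) N τ) ≤
      J a (ext w) (k + 4 + N) := by
    intro w
    have h2 := joinI ha hτ0 hτ1 (ext w) (k + 4) N
    have h3 := block_low ha (fun j => ext w (k + 4 + j)) N
    unfold rate
    linarith
  have i1 := J_int ha (ν := ν) (n := n) (k + 4)
  have i2 : Integrable (fun w : Fin n → ℝ => J a (ext w) (k + 4) + N * rate a N)
      (Measure.pi fun _ => ν) := i1.add (integrable_const _)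
  have i3 : Integrable (fun w : Fin n → ℝ => J a (ext w) (k + 4) + N * rate a N + log τ)
      (Measure.pi fun _ => ν) := i2.add (integrable_const _)
  have i4 := Bd_real_int a τ (ν := ν) (n := n) (k + 4) N
  have h2 := integral_mono (i3.sub (i4.const_mul (2 * N * log (7 * |a|))))
    (J_int ha (k + 4 + N)) h1
  rw [integral_sub' i3 (i4.const_mul _), integral_add i2 (integrable_const _),
    integral_add i1 (integrable_const _)] at h2
  have e5 : ∫ w : Fin n → ℝ, 2 * N * log (7 * |a|) * volume.real (Bd a (ext w) (k + 4) N τ)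
      ∂(Measure.pi fun _ => ν) = 2 * N * log (7 * |a|) * ∫ w : Fin n → ℝ,
        volume.real (Bd a (ext w) (k + 4) N τ) ∂(Measure.pi fun _ => ν) := integral_const_mul _ _
  rw [e5] at h2
  simp only [integral_const, probReal_univ, smul_eq_mul, one_mul] at h2
  have h3 := avg_real ha hM hν hκ0 hκ1 (n := n) (k := k) hmn N
  have h4 : 2 * N * log (7 * |a|) * ∫ w : Fin n → ℝ, volume.real (Bd a (ext w) (k + 4) N τ)
      ∂(Measure.pi fun _ => ν) ≤ 2 * N * log (7 * |a|) * (M ^ 4 * (9 * κ)) := by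
    apply mul_le_mul_of_nonneg_left h3
    have := lam_log0 ha
    positivity
  unfold A
  linarith

end Pool.Agent.V8H99.RP
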