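import Pool.Agent.V8H99.RP.Reg

set_option autoImplicit false

/-!
# Random perturbations of the standard map: one block
-/

namespace Pool.Agent.V8H99.RP

open Real MeasureTheory Set Function
open Pool.Agent.TH705.SM (L L_cont phi phi_coe phi_cont T2 S S_mp)
open Pool.Agent.V1152.SMI (cc cc_coe cc_cont cc_le ff ff_cont ff_mean Lper)

theorem st_jm (a : ℝ) {X : Type*} [MeasurableSpace X] {u : X → TT} {p : X → T2}
    (hu : Measurable u) (hp : Measurable p) : Measurable fun x => st a (u x) (p x) := by
  unfold st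
  have h := (phi_cont a).measurable
  have h1 : Measurable fun x => (p x).1 + u x := (measurable_fst.comp hp).add hu
  exact ((h.comp h1).sub (measurable_snd.comp hp)).prodMk h1

theorem orb_jm (a : ℝ) {X : Type*} [MeasurableSpace X] {w : X → ℕ → TT} {p : X → T2}
    (hw : ∀ k, Measurable fun x => w x k) (hp : Measurable p) (n : ℕ) :
    Measurable fun x => orb a (w x) n (p x) := by
  induction n with
  | zero => exact hp
  | succ n ih => exact st_jm a (hw n) ih

theorem cs_jm (a : ℝ) {X : Type*} [MeasurableSpace X] {w : X → ℕ → TT} {p : X → T2}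
    (hw : ∀ k, Measurable fun x => w x k) (hp : Measurable p) (n : ℕ) :
    Measurable fun x => cs a (w x) (p x) n :=
  (cc_meas a).comp (measurable_snd.comp (orb_jm a hw hp (n + 1)))

theorem vec_jm {X : Type*} [MeasurableSpace X] {c : X → ℕ → ℝ} {v : X → ℝ × ℝ}
    (hc : ∀ k, Measurable fun x => c x k) (hv : Measurable v) (n : ℕ) :
    Measurable fun x => vec (c x) (v x) n := by
  induction n with
  | zero => exact hv
  | succ n ih => exact stp_meas (hc n) ih

theorem kap_jm {X : Type*} [MeasurableSpace X] {c : X → ℕ → ℝ}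
    (hc : ∀ k, Measurable fun x => c x k) (N : ℕ) : Measurable fun x => kap (c x) N := by
  have h1 : Measurable fun x => vec (c x) (1, 0) N := vec_jm hc measurable_const N
  have h2 : Measurable fun x => vec (c x) (0, 1) N := vec_jm hc measurable_const N
  unfold kap
  refine Measurable.ite ?_ ?_ ?_
  · exact measurableSet_le (meas_abs (measurable_snd.comp h1)) (meas_abs (measurable_fst.comp h1))
  · exact (measurable_fst.comp h2).div (measurable_fst.comp h1)
  · exact (measurable_snd.comp h2).div (measurable_snd.comp h1)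

theorem cs_lam {a : ℝ} (ha : 16 ≤ |a|) (w : ℕ → TT) (p : T2) (n : ℕ) :
    |cs a w p n| + 1 ≤ 7 * |a| := cc_lam ha _

/-- the logarithm of the norm -/
noncomputable def lg (a : ℝ) (w : ℕ → TT) (n : ℕ) (p : T2) : ℝ := log ‖vec (cs a w p) (1, 0) n‖

theorem lg_jm (a : ℝ) {X : Type*} [MeasurableSpace X] {w : X → ℕ → TT} {p : X → T2}
    (hw : ∀ k, Measurable fun x => w x k) (hp : Measurable p) (n : ℕ) :
    Measurable fun x => lg a (w x) n (p x) := by
  unfold lg
  exact Real.measurable_log.comp (measurable_norm.comp (vec_jm (cs_jm a hw hp) measurable_const n))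

theorem lam_log {a : ℝ} (ha : 16 ≤ |a|) : log (7 * |a|) ≤ 2 * ll a := by
  unfold ll
  rw [Real.log_mul (by norm_num) (by linarith)]
  have h1 : log 7 ≤ log |a| := Real.log_le_log (by norm_num) (by linarith)
  have h2 : 0 ≤ log |a| := Real.log_nonneg (by linarith)
  linarith

theorem lam_log0 {a : ℝ} (ha : 16 ≤ |a|) : 0 ≤ log (7 * |a|) := Real.log_nonneg (by linarith)

theorem lg_abs {a : ℝ} (ha : 16 ≤ |a|) (w : ℕ → TT) (n : ℕ) (p : T2) :
    |lg a w n p| ≤ n * log (7 * |a|) := by
  have h1 := vec_log_le (by linarith) (cs_lam ha w p) (v := (1, 0)) (by rw [norm_e1]; norm_num) n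
  have h2 := vec_log_ge (by linarith) (cs_lam ha w p) (v := (1, 0)) (by rw [norm_e1]; norm_num) n
  rw [norm_e1, Real.log_one] at h1 h2
  unfold lg
  rw [abs_le]
  constructor <;> linarith

theorem lg_meas (a : ℝ) (w : ℕ → TT) (n : ℕ) : Measurable (lg a w n) :=
  lg_jm a (w := fun _ : T2 => w) (fun _ => measurable_const) measurable_id n

theorem lgI {a : ℝ} (ha : 16 ≤ |a|) (w : ℕ → TT) (n : ℕ) : Integrable (lg a w n) volume := by
  refine Integrable.of_bound (lg_meas a w n).aestronglyMeasurable (n * log (7 * |a|)) ?_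
  exact Filter.Eventually.of_forall fun p => lg_abs ha w n p

/-- the mean growth -/
noncomputable def J (a : ℝ) (w : ℕ → TT) (n : ℕ) : ℝ := ∫ p : T2, lg a w n p

theorem snd_mp (a : ℝ) (w : ℕ → TT) (n : ℕ) :
    MeasurePreserving (fun p : T2 => (orb a w n p).2) volume volume := by
  have h : MeasurePreserving (Prod.snd : T2 → TT) ((volume : Measure TT).prod volume) volume :=
    measurePreserving_snd
  exact h.comp (orb_mp a w n)

theorem int_cs (a : ℝ) (w : ℕ → TT) (n : ℕ) {F : ℝ → ℝ} (hF : Measurable F) :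
    ∫ p : T2, F (cs a w p n) = ∫ x : TT, F (cc a x) := by
  have h := snd_mp a w (n + 1)
  have h1 : ∫ x : TT, F (cc a x) ∂(Measure.map (fun p : T2 => (orb a w (n + 1) p).2) volume) =
      ∫ p : T2, F (cc a (orb a w (n + 1) p).2) :=
    integral_map h.measurable.aemeasurable (hF.comp (cc_meas a)).aestronglyMeasurable
  rw [h.map_eq] at h1
  exact h1.symm

theorem lw_cs_int (a : ℝ) (w : ℕ → TT) (n : ℕ) :
    Integrable (fun p : T2 => lw (cs a w p n)) volume :=
  (snd_mp a w (n + 1)).integrable_comp_of_integrable (cont_int (lw_cont.comp (cc_cont a)))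

theorem crit_meas : Measurable crit := by
  unfold crit
  exact Measurable.ite (measurableSet_lt (meas_abs measurable_id) measurable_const)
    measurable_const measurable_const

theorem crit_cs_int (a : ℝ) (w : ℕ → TT) (n : ℕ) :
    Integrable (fun p : T2 => crit (cs a w p n)) volume := by
  refine Integrable.of_bound (crit_meas.comp (cs_meas a w n)).aestronglyMeasurable 1 ?_
  refine Filter.Eventually.of_forall fun p => ?_
  show ‖crit (cs a w p n)‖ ≤ 1
  unfold crit
  split_ifs <;> simp

theorem crit_mean {a : ℝ} (ha : 16 ≤ |a|) (w : ℕ → TT) (n : ℕ) :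
    ∫ p : T2, crit (cs a w p n) ≤ 2 / (3 * |a|) := by
  rw [int_cs a w n crit_meas]
  have e : ∀ x : TT, crit (cc a x) = ({x : TT | |cc a x| < 2}).indicator (fun _ => (1:ℝ)) x := by
    intro x
    unfold crit
    by_cases hx : |cc a x| < 2
    · rw [if_pos hx, Set.indicator_of_mem (show x ∈ {x : TT | |cc a x| < 2} from hx)]
    · rw [if_neg hx, Set.indicator_of_notMem (show x ∉ {x : TT | |cc a x| < 2} from hx)]
  simp_rw [e]
  rw [integral_indicator_const _ (small_meas a 2), smul_eq_mul, mul_one]
  have h1 := vol_small (a := a) (s := 2) (by linarith) (by norm_num)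
  refine h1.trans (le_of_eq ?_)
  have : 0 < |a| := by linarith
  field_simp
  norm_num

open Classical in
theorem Ev_ind_int (a : ℝ) (w : ℕ → TT) (j : ℕ) :
    Integrable (fun p : T2 => if Ev (cs a w p) j then (1:ℝ) else 0) volume := by
  refine Integrable.of_bound ?_ 1 ?_
  · exact (Measurable.ite (Ev_meas a w j) measurable_const measurable_const).aestronglyMeasurable
  · refine Filter.Eventually.of_forall fun p => ?_
    show ‖if Ev (cs a w p) j then (1:ℝ) else 0‖ ≤ 1
    split_ifs <;> simp

open Classical in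
theorem Ev_mean {a : ℝ} (ha : 16 ≤ |a|) (w : ℕ → TT) (j : ℕ) :
    ∫ p : T2, (if Ev (cs a w p) j then (1:ℝ) else 0) ≤ 165 * ll a / |a| ^ 2 := by
  have e : ∀ p : T2, (if Ev (cs a w p) j then (1:ℝ) else 0) =
      ({p : T2 | Ev (cs a w p) j}).indicator (fun _ => (1:ℝ)) p := by
    intro p
    by_cases hp : Ev (cs a w p) j
    · rw [if_pos hp, Set.indicator_of_mem (show p ∈ {p : T2 | Ev (cs a w p) j} from hp)]
    · rw [if_neg hp, Set.indicator_of_notMem (show p ∉ {p : T2 | Ev (cs a w p) j} from hp)]
  simp_rw [e]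
  rw [integral_indicator_const _ (Ev_meas a w j), smul_eq_mul, mul_one]
  exact vol_Ev ha w j

/-- the lower bound in one block, for every sequence of perturbations -/
theorem block_low {a : ℝ} (ha : 16 ≤ |a|) (w : ℕ → TT) (N : ℕ) :
    N * (log (π * |a|) - 32 * ll a / |a| - 660 * N * ll a ^ 2 / |a| ^ 2) ≤ J a w N := by
  classical
  have ha0 : 0 < |a| := by linarith
  have hl := ll_one ha
  have hΛ := lam_log ha
  have hΛ0 := lam_log0 ha
  set ℓ := log (7 * |a|) with hℓ
  have h1 : ∀ p : T2, ∑ n ∈ Finset.range N, (lw (cs a w p n) - 4 * ℓ * crit (cs a w p n)) -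
      2 * N * ℓ * (crit (cs a w p 0) + ∑ j ∈ Finset.range N, if Ev (cs a w p) j then (1:ℝ) else 0) ≤
      lg a w N p := fun p => growth_all (by linarith) (cs_lam ha w p) N
  have i1 : ∀ n, Integrable (fun p : T2 => lw (cs a w p n) - 4 * ℓ * crit (cs a w p n)) volume :=
    fun n => (lw_cs_int a w n).sub ((crit_cs_int a w n).const_mul _)
  have i2 : Integrable (fun p : T2 => ∑ n ∈ Finset.range N,
      (lw (cs a w p n) - 4 * ℓ * crit (cs a w p n))) volume :=
    integrable_finsetSum _ fun n _ => i1 n
  have i3 : Integrable (fun p : T2 => ∑ j ∈ Finset.range N,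
      if Ev (cs a w p) j then (1:ℝ) else 0) volume :=
    integrable_finsetSum _ fun j _ => Ev_ind_int a w j
  have i4 : Integrable (fun p : T2 => crit (cs a w p 0) + ∑ j ∈ Finset.range N,
      if Ev (cs a w p) j then (1:ℝ) else 0) volume := (crit_cs_int a w 0).add i3
  have h2 := integral_mono (i2.sub (i4.const_mul (2 * N * ℓ))) (lgI ha w N) h1
  rw [integral_sub' i2 (i4.const_mul _), integral_const_mul,
    integral_add (crit_cs_int a w 0) i3, integral_finsetSum _ fun n _ => i1 n,
    integral_finsetSum _ fun j _ => Ev_ind_int a w j] at h2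
  have h3 : N * (log (π * |a|) - 24 * ll a / |a| - 4 * ℓ * (2 / (3 * |a|))) ≤
      ∑ n ∈ Finset.range N, ∫ p : T2, (lw (cs a w p n) - 4 * ℓ * crit (cs a w p n)) := by
    have h4 : ∀ n ∈ Finset.range N, log (π * |a|) - 24 * ll a / |a| - 4 * ℓ * (2 / (3 * |a|)) ≤
        ∫ p : T2, (lw (cs a w p n) - 4 * ℓ * crit (cs a w p n)) := by
      intro n _
      rw [integral_sub (lw_cs_int a w n) ((crit_cs_int a w n).const_mul _), integral_const_mul,
        int_cs a w n lw_cont.measurable]
      have h5 := lw_mean ha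
      have h6 := crit_mean ha w n
      have h7 : 4 * ℓ * ∫ p : T2, crit (cs a w p n) ≤ 4 * ℓ * (2 / (3 * |a|)) :=
        mul_le_mul_of_nonneg_left h6 (by linarith)
      unfold ll
      linarith
    have h5 := Finset.card_nsmul_le_sum _ _ _ h4
    rwa [Finset.card_range, nsmul_eq_mul] at h5
  have h4 : ∑ j ∈ Finset.range N, ∫ p : T2, (if Ev (cs a w p) j then (1:ℝ) else 0) ≤
      N * (165 * ll a / |a| ^ 2) := by
    have h5 := Finset.sum_le_card_nsmul _ _ _ fun j (_ : j ∈ Finset.range N) => Ev_mean ha w j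
    rwa [Finset.card_range, nsmul_eq_mul] at h5
  have h5 := crit_mean ha w 0
  have hN : (0:ℝ) ≤ N := Nat.cast_nonneg N
  have h6 : 2 * N * ℓ * ((∫ p : T2, crit (cs a w p 0)) +
      ∑ j ∈ Finset.range N, ∫ p : T2, (if Ev (cs a w p) j then (1:ℝ) else 0)) ≤
      2 * N * (2 * ll a) * (2 / (3 * |a|) + N * (165 * ll a / |a| ^ 2)) := by
    apply mul_le_mul
    · exact mul_le_mul_of_nonneg_left hΛ (by positivity)
    · linarith
    · apply add_nonneg
      · exact integral_nonneg fun p => crit_nonneg _
      · apply Finset.sum_nonneg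
        intro j _
        apply integral_nonneg
        intro p
        show (0:ℝ) ≤ if Ev (cs a w p) j then (1:ℝ) else 0
        split_ifs <;> norm_num
    · positivity
  have h7 : 4 * ℓ * (2 / (3 * |a|)) ≤ 4 * (2 * ll a) * (2 / (3 * |a|)) := by
    apply mul_le_mul_of_nonneg_right _ (by positivity)
    linarith
  have h8 : (N:ℝ) * (log (π * |a|) - 24 * ll a / |a| - 4 * (2 * ll a) * (2 / (3 * |a|))) ≤
      N * (log (π * |a|) - 24 * ll a / |a| - 4 * ℓ * (2 / (3 * |a|))) := by
    apply mul_le_mul_of_nonneg_left _ hN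
    linarith
  have e : (N:ℝ) * (log (π * |a|) - 32 * ll a / |a| - 660 * N * ll a ^ 2 / |a| ^ 2) =
      N * (log (π * |a|) - 24 * ll a / |a| - 4 * (2 * ll a) * (2 / (3 * |a|))) -
      2 * N * (2 * ll a) * (2 / (3 * |a|) + N * (165 * ll a / |a| ^ 2)) := by
    field_simp
    ring
  rw [e]
  unfold J
  linarith

/-- the set of the points where the two blocks are not transversal -/
def Bd (a : ℝ) (w : ℕ → TT) (m N : ℕ) (τ : ℝ) : Set T2 :=
  {p | |(vec (cs a w p) (1, 0) m).1 + kap (cs a (fun j => w (m + j)) (orb a w m p)) N *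
    (vec (cs a w p) (1, 0) m).2| < τ * ‖vec (cs a w p) (1, 0) m‖}

theorem Bd_jm (a : ℝ) {X : Type*} [MeasurableSpace X] {w : X → ℕ → TT} {p : X → T2}
    (hw : ∀ k, Measurable fun x => w x k) (hp : Measurable p) (m N : ℕ) (τ : ℝ) :
    MeasurableSet {x | p x ∈ Bd a (w x) m N τ} := by
  have h1 : Measurable fun x => vec (cs a (w x) (p x)) (1, 0) m :=
    vec_jm (cs_jm a hw hp) measurable_const m
  have h2 : Measurable fun x => kap (cs a (fun j => w x (m + j)) (orb a (w x) m (p x))) N :=
    kap_jm (cs_jm a (w := fun x j => w x (m + j)) (fun k => hw (m + k)) (orb_jm a hw hp m)) N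
  exact measurableSet_lt (meas_abs ((measurable_fst.comp h1).add (h2.mul (measurable_snd.comp h1))))
    ((measurable_norm.comp h1).const_mul τ)

theorem Bd_meas (a : ℝ) (w : ℕ → TT) (m N : ℕ) (τ : ℝ) : MeasurableSet (Bd a w m N τ) :=
  Bd_jm a (w := fun _ : T2 => w) (fun _ => measurable_const) measurable_id m N τ

/-- two blocks -/
theorem joinI {a τ : ℝ} (ha : 16 ≤ |a|) (hτ0 : 0 < τ) (hτ1 : τ ≤ 1) (w : ℕ → TT) (m N : ℕ) :
    J a w m + J a (fun j => w (m + j)) N + log τ -
      2 * N * log (7 * |a|) * volume.real (Bd a w m N τ) ≤ J a w (m + N) := by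
  classical
  have h1 : ∀ p : T2, lg a w m p + lg a (fun j => w (m + j)) N (orb a w m p) + log τ -
      2 * N * log (7 * |a|) * (Bd a w m N τ).indicator (fun _ => (1:ℝ)) p ≤ lg a w (m + N) p := by
    intro p
    have h2 := join (c := cs a (fun j => w (m + j)) (orb a w m p))
      (v := vec (cs a w p) (1, 0) m) (Λ := 7 * |a|) (τ := τ) (by linarith)
      (cs_lam ha _ _) (vec_pos (by rw [norm_e1]; norm_num) m) hτ0 hτ1 N
    have h3 : vec (cs a w p) (1, 0) (m + N) = vec (cs a (fun j => w (m + j)) (orb a w m p))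
        (vec (cs a w p) (1, 0) m) N := by
      rw [vec_add, cs_add]
    unfold lg
    rw [h3]
    refine le_trans (le_of_eq ?_) h2
    congr 2
  have i1 := lgI ha w m
  have i2 : Integrable (fun p => lg a (fun j => w (m + j)) N (orb a w m p)) volume :=
    (orb_mp a w m).integrable_comp_of_integrable (lgI ha (fun j => w (m + j)) N)
  have i3 : Integrable ((Bd a w m N τ).indicator (fun _ => (1:ℝ))) volume :=
    (integrable_const _).indicator (Bd_meas a w m N τ)
  have i12 : Integrable (fun p => lg a w m p + lg a (fun j => w (m + j)) N (orb a w m p)) volume :=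
    i1.add i2
  have i123 : Integrable (fun p => lg a w m p + lg a (fun j => w (m + j)) N (orb a w m p) + log τ)
    volume := i12.add (integrable_const _)
  have h2 := integral_mono (i123.sub (i3.const_mul (2 * N * log (7 * |a|)))) (lgI ha w (m + N)) h1
  rw [integral_sub' i123 (i3.const_mul _), integral_add i12 (integrable_const _),
    integral_add i1 i2, integral_const_mul, integral_indicator_const _ (Bd_meas a w m N τ)] at h2
  have h3 : ∫ p, lg a (fun j => w (m + j)) N (orb a w m p) = J a (fun j => w (m + j)) N := by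
    have h := orb_mp a w m
    have h4 : ∫ x : T2, lg a (fun j => w (m + j)) N x ∂(Measure.map (orb a w m) volume) =
        ∫ p : T2, lg a (fun j => w (m + j)) N (orb a w m p) :=
      integral_map h.measurable.aemeasurable (lg_meas a _ N).aestronglyMeasurable
    rw [h.map_eq] at h4
    exact h4.symm
  rw [h3, integral_const] at h2
  simp only [probReal_univ, smul_eq_mul, one_mul, mul_one] at h2
  exact h2

theorem J_abs {a : ℝ} (ha : 16 ≤ |a|) (w : ℕ → TT) (n : ℕ) : |J a w n| ≤ n * log (7 * |a|) := by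
  unfold J
  have h := norm_integral_le_of_norm_le_const (μ := (volume : Measure T2)) (f := lg a w n)
    (C := n * log (7 * |a|)) (Filter.Eventually.of_forall fun p => lg_abs ha w n p)
  rwa [probReal_univ, mul_one] at h

end Pool.Agent.V8H99.RP
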