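import Pool.Agent.V8H99.RP.Avg

set_option autoImplicit false

/-!
# Random perturbations of the standard map: the exponent
-/

namespace Pool.Agent.V8H99.RP

open Real MeasureTheory Set Function
open Pool.Agent.TH705.SM (L L_cont phi phi_coe phi_cont T2 S S_mp)
open Pool.Agent.V1152.SMI (cc cc_coe cc_cont cc_le ff ff_cont ff_mean Lper)

theorem rate_anti {a : ℝ} (ha : 16 ≤ |a|) {m n : ℕ} (h : m ≤ n) : rate a n ≤ rate a m := by
  unfold rate
  have ha0 : 0 < |a| := by linarith
  have hl := ll_one ha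
  have h1 : (m : ℝ) ≤ n := by exact_mod_cast h
  have h2 : 660 * (m : ℝ) * ll a ^ 2 / |a| ^ 2 ≤ 660 * n * ll a ^ 2 / |a| ^ 2 := by
    apply div_le_div_of_nonneg_right _ (by positivity)
    apply mul_le_mul_of_nonneg_right _ (by positivity)
    linarith
  linarith

/-- the cost of a joint -/
noncomputable def cost (a κ M : ℝ) (N : ℕ) : ℝ :=
  2 * N * log (7 * |a|) * (M ^ 4 * (9 * κ)) - log (κ ^ 6 / (2 * (7 * |a|) ^ 5))

theorem A_iter {a κ M : ℝ} {ν : Measure ℝ} [IsProbabilityMeasure ν] (ha : 16 ≤ |a|)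
    (hM : 0 ≤ M) (hν : ν ≤ ENNReal.ofReal M • volume.restrict (Icc (-1 / 2 : ℝ) (1 / 2)))
    (hκ0 : 0 < κ) (hκ1 : κ ≤ 1) {n m0 N : ℕ} (hm0 : 4 ≤ m0) (q : ℕ) (hq : m0 + q * N ≤ n) :
    m0 * rate a m0 + q * N * rate a N - q * cost a κ M N ≤ A a ν n (m0 + q * N) := by
  induction q with
  | zero =>
    have := A_block ha (ν := ν) n m0
    simpa using this
  | succ q ih =>
    have e : m0 + (q + 1) * N = m0 + q * N + N := by ring
    rw [e] at hq ⊢
    have h1 := ih (by omega)
    have h2 := A_join ha hM hν hκ0 hκ1 (n := n) (m := m0 + q * N) (by omega) (by omega) N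
    push_cast
    unfold cost at h1 ⊢
    linarith

theorem cost_nonneg {a κ M : ℝ} (ha : 16 ≤ |a|) (hM : 0 ≤ M) (hκ0 : 0 < κ) (hκ1 : κ ≤ 1)
    (N : ℕ) : 0 ≤ cost a κ M N := by
  unfold cost
  have ha0 : 0 < |a| := by linarith
  have h1 : κ ^ 6 ≤ 1 := pow_le_one₀ hκ0.le hκ1
  have h2 : 1 ≤ (7 * |a|) ^ 5 := one_le_pow₀ (by linarith)
  have h3 : log (κ ^ 6 / (2 * (7 * |a|) ^ 5)) ≤ 0 := by
    apply Real.log_nonpos (by positivity)
    rw [div_le_one (by positivity)]
    linarith
  have h4 := lam_log0 ha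
  have h5 : 0 ≤ 2 * N * log (7 * |a|) * (M ^ 4 * (9 * κ)) := by positivity
  linarith

theorem A_pre {a κ M : ℝ} {ν : Measure ℝ} [IsProbabilityMeasure ν] (ha : 16 ≤ |a|)
    (hM : 0 ≤ M) (hν : ν ≤ ENNReal.ofReal M • volume.restrict (Icc (-1 / 2 : ℝ) (1 / 2)))
    (hκ0 : 0 < κ) (hκ1 : κ ≤ 1) {N : ℕ} (hN : 4 ≤ N) (n : ℕ) :
    n * (rate a (2 * N) - cost a κ M N / N) ≤ A a ν n n := by
  have hc := cost_nonneg ha hM hκ0 hκ1 N (a := a) (κ := κ) (M := M)
  have hNr : (0:ℝ) < N := by
    have : (4:ℝ) ≤ N := by exact_mod_cast hN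
    linarith
  have hn0 : (0:ℝ) ≤ n := Nat.cast_nonneg n
  have hcN : 0 ≤ cost a κ M N / N := div_nonneg hc hNr.le
  by_cases h : n < N
  · have h1 := A_block ha (ν := ν) n n
    have h2 := rate_anti ha (show n ≤ 2 * N by omega)
    have h3 : (n:ℝ) * (rate a (2 * N) - cost a κ M N / N) ≤ n * rate a n := by
      apply mul_le_mul_of_nonneg_left _ hn0
      linarith
    exact h3.trans h1
  · rw [not_lt] at h
    set q := (n - N) / N with hq
    set r := (n - N) % N with hr
    have hr1 : r < N := Nat.mod_lt _ (by omega)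
    have hqr : n - N = N * q + r := (Nat.div_add_mod (n - N) N).symm
    have hn : n = (N + r) + q * N := by
      have : N * q = q * N := Nat.mul_comm _ _
      omega
    have h1 := A_iter ha hM hν hκ0 hκ1 (n := n) (m0 := N + r) (N := N) (by omega) q (by omega)
    rw [← hn] at h1
    have h2 := rate_anti ha (show N + r ≤ 2 * N by omega)
    have h3 := rate_anti ha (show N ≤ 2 * N by omega)
    have e : (n:ℝ) = ((N:ℝ) + r) + q * N := by exact_mod_cast hn
    refine le_trans ?_ h1
    push_cast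
    have h4 : ((N:ℝ) + r) * rate a (2 * N) ≤ (N + r) * rate a (N + r) :=
      mul_le_mul_of_nonneg_left h2 (by positivity)
    have h5 : (q:ℝ) * N * rate a (2 * N) ≤ q * N * rate a N :=
      mul_le_mul_of_nonneg_left h3 (by positivity)
    have h6 : (q:ℝ) * cost a κ M N ≤ n * (cost a κ M N / N) := by
      have e2 : (q:ℝ) * cost a κ M N = (q * N) * (cost a κ M N / N) := by field_simp
      rw [e2]
      apply mul_le_mul_of_nonneg_right _ hcN
      rw [e]
      have : (0:ℝ) ≤ N + r := by positivity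
      linarith
    have e3 : (n:ℝ) * (rate a (2 * N) - cost a κ M N / N) =
        ((N:ℝ) + r) * rate a (2 * N) + q * N * rate a (2 * N) - n * (cost a κ M N / N) := by
      rw [mul_sub]
      nth_rewrite 1 [e]
      ring
    rw [e3]
    linarith

/-- the scale of the blocks -/
noncomputable def sc (a M : ℝ) : ℝ := √(ll a + log M)

theorem sc_one {a M : ℝ} (ha : 16 ≤ |a|) (hM : 1 ≤ M) : 1 ≤ sc a M := by
  unfold sc
  rw [Real.one_le_sqrt]
  have := ll_one ha
  have := Real.log_nonneg hM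
  linarith

theorem sc_sq {a M : ℝ} (ha : 16 ≤ |a|) (hM : 1 ≤ M) : sc a M ^ 2 = ll a + log M := by
  unfold sc
  apply Real.sq_sqrt
  have := ll_one ha
  have := Real.log_nonneg hM
  linarith

theorem ll_le {a : ℝ} (ha : 16 ≤ |a|) : ll a ≤ |a| := by
  unfold ll
  have := Real.log_le_sub_one_of_pos (show 0 < |a| by linarith)
  linarith

theorem cost_le {a M : ℝ} (ha : 16 ≤ |a|) (hM : 1 ≤ M) {N : ℕ} (hN : 4 ≤ N) :
    cost a (1 / (M ^ 4 * (7 * |a|) ^ 2)) M N / N ≤ 36 * sc a M ^ 2 / N + ll a / |a| := by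
  have ha0 : 0 < |a| := by linarith
  have hM0 : 0 < M := by linarith
  have hNr : (0:ℝ) < N := by
    have : (4:ℝ) ≤ N := by exact_mod_cast hN
    linarith
  have hl := ll_one ha
  have hlM := Real.log_nonneg hM
  have h1 := lam_log ha
  have h0 := lam_log0 ha
  set Λ := 7 * |a| with hΛ
  have hΛ0 : 0 < Λ := by positivity
  rw [sc_sq ha hM]
  have e1 : log ((1 / (M ^ 4 * Λ ^ 2)) ^ 6 / (2 * Λ ^ 5)) = -(24 * log M + 17 * log Λ + log 2) := by
    have e2 : (1 / (M ^ 4 * Λ ^ 2)) ^ 6 / (2 * Λ ^ 5) = (M ^ 24 * Λ ^ 17 * 2)⁻¹ := by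
      field_simp
    rw [e2, Real.log_inv, Real.log_mul (by positivity) (by norm_num),
      Real.log_mul (by positivity) (by positivity), Real.log_pow, Real.log_pow]
    norm_num
  have e3 : M ^ 4 * (9 * (1 / (M ^ 4 * Λ ^ 2))) = 9 / Λ ^ 2 := by field_simp
  have h2 : log 2 ≤ log Λ := Real.log_le_log (by norm_num) (by linarith)
  unfold cost
  rw [← hΛ, e1, e3]
  have e4 : (2 * N * log Λ * (9 / Λ ^ 2) - -(24 * log M + 17 * log Λ + log 2)) / N =
      18 * log Λ / Λ ^ 2 + (24 * log M + 17 * log Λ + log 2) / N := by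
    field_simp
    ring
  rw [e4]
  have h3 : 18 * log Λ / Λ ^ 2 ≤ ll a / |a| := by
    rw [div_le_div_iff₀ (by positivity) ha0, hΛ]
    have h4 : 18 * log (7 * |a|) * |a| ≤ 18 * (2 * ll a) * |a| := by
      apply mul_le_mul_of_nonneg_right _ ha0.le
      linarith
    have h5 : 18 * (2 * ll a) * |a| ≤ ll a * (7 * |a|) ^ 2 := by
      have h6 : 0 ≤ ll a * |a| := by positivity
      nlinarith
    linarith
  have h4 : (24 * log M + 17 * log Λ + log 2) / N ≤ 36 * (ll a + log M) / N := by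
    apply div_le_div_of_nonneg_right _ hNr.le
    linarith
  linarith

/-- the lower bound -/
theorem A_lower {a M : ℝ} {ν : Measure ℝ} [IsProbabilityMeasure ν] (ha : 16 ≤ |a|)
    (hM : 1 ≤ M) (hν : ν ≤ ENNReal.ofReal M • volume.restrict (Icc (-1 / 2 : ℝ) (1 / 2)))
    (n : ℕ) : n * (log (π * |a|) - 8000 * ll a * sc a M / |a|) ≤ A a ν n n := by
  have ha0 : 0 < |a| := by linarith
  have hM0 : 0 < M := by linarith
  have hl := ll_one ha
  have hs := sc_one ha hM
  have hla := ll_le ha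
  set s := sc a M with hsd
  set ρ := |a| * s / ll a with hρ
  have hρ1 : 1 ≤ ρ := by
    rw [hρ, le_div_iff₀ (by linarith)]
    nlinarith
  set N := ⌈ρ⌉₊ + 4 with hN
  have hN4 : 4 ≤ N := by omega
  have hNρ : ρ ≤ N := by
    rw [hN]
    push_cast
    have := Nat.le_ceil ρ
    linarith
  have hNu : (N:ℝ) ≤ 6 * ρ := by
    rw [hN]
    push_cast
    have := (Nat.ceil_lt_add_one (by linarith : 0 ≤ ρ)).le
    linarith
  have hNr : (0:ℝ) < N := by linarith
  set κ := 1 / (M ^ 4 * (7 * |a|) ^ 2) with hκ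
  have hκ0 : 0 < κ := by positivity
  have hκ1 : κ ≤ 1 := by
    rw [hκ, div_le_one (by positivity)]
    have h1 : 1 ≤ M ^ 4 := one_le_pow₀ hM
    have h2 : 1 ≤ (7 * |a|) ^ 2 := one_le_pow₀ (by linarith)
    nlinarith
  have h1 := A_pre ha hM0.le hν hκ0 hκ1 hN4 n
  have h2 := cost_le ha hM hN4
  rw [← hκ] at h2
  refine le_trans (mul_le_mul_of_nonneg_left ?_ (Nat.cast_nonneg n)) h1
  have h3 : 36 * s ^ 2 / N ≤ 36 * (ll a * s / |a|) := by
    rw [div_le_iff₀ hNr]
    calc 36 * s ^ 2 = 36 * (ll a * s / |a|) * ρ := by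
          rw [hρ]; field_simp
      _ ≤ 36 * (ll a * s / |a|) * N := mul_le_mul_of_nonneg_left hNρ (by positivity)
  have h4 : 660 * (2 * (N:ℝ)) * ll a ^ 2 / |a| ^ 2 ≤ 7920 * (ll a * s / |a|) := by
    calc 660 * (2 * (N:ℝ)) * ll a ^ 2 / |a| ^ 2 ≤ 660 * (2 * (6 * ρ)) * ll a ^ 2 / |a| ^ 2 := by
          apply div_le_div_of_nonneg_right _ (by positivity)
          apply mul_le_mul_of_nonneg_right _ (by positivity)
          linarith
      _ = 7920 * (ll a * s / |a|) := by
          rw [hρ]; field_simp; ring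
  have h5 : ll a / |a| ≤ ll a * s / |a| := by
    apply div_le_div_of_nonneg_right _ ha0.le
    nlinarith
  have e1 : 8000 * ll a * s / |a| = 8000 * (ll a * s / |a|) := by ring
  have e2 : 32 * ll a / |a| = 32 * (ll a / |a|) := by ring
  unfold rate
  push_cast
  rw [e1, e2]
  have h6 : 0 ≤ ll a * s / |a| := by positivity
  linarith

/-- the operator norm for the maximum norm -/
noncomputable def opn (c : ℕ → ℝ) (n : ℕ) : ℝ :=
  max (|(vec c (1, 0) n).1| + |(vec c (0, 1) n).1|) (|(vec c (1, 0) n).2| + |(vec c (0, 1) n).2|)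

theorem opn_ge (c : ℕ → ℝ) (n : ℕ) : ‖vec c (1, 0) n‖ ≤ opn c n := by
  rw [Prod.norm_def, Real.norm_eq_abs, Real.norm_eq_abs]
  unfold opn
  exact max_le_max (le_add_of_nonneg_right (abs_nonneg _)) (le_add_of_nonneg_right (abs_nonneg _))

theorem opn_pos (c : ℕ → ℝ) (n : ℕ) : 0 < opn c n :=
  lt_of_lt_of_le (vec_pos (by rw [norm_e1]; norm_num) n) (opn_ge c n)

theorem opn_succ (c : ℕ → ℝ) (n : ℕ) : opn c (n + 1) ≤ (1 + |c n|) * opn c n := by
  set x := vec c (1, 0) n with hx
  set y := vec c (0, 1) n with hy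
  have hp := opn_pos c n
  have h1 : |x.1| + |y.1| ≤ opn c n := le_max_left _ _
  have h2 : |x.2| + |y.2| ≤ opn c n := le_max_right _ _
  have hc := abs_nonneg (c n)
  have ex : vec c (1, 0) (n + 1) = (c n * x.1 - x.2, x.1) := rfl
  have ey : vec c (0, 1) (n + 1) = (c n * y.1 - y.2, y.1) := rfl
  have e : opn c (n + 1) = max (|c n * x.1 - x.2| + |c n * y.1 - y.2|) (|x.1| + |y.1|) := by
    unfold opn
    rw [ex, ey]
  rw [e]
  apply max_le
  · have a1 := abs_sub (c n * x.1) x.2
    have a2 := abs_sub (c n * y.1) y.2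
    rw [abs_mul] at a1 a2
    nlinarith [mul_le_mul_of_nonneg_left h1 hc]
  · nlinarith [mul_nonneg hc hp.le]

theorem opn_log (c : ℕ → ℝ) (n : ℕ) : log (opn c n) ≤ ∑ k ∈ Finset.range n, log (1 + |c k|) := by
  induction n with
  | zero =>
    have : opn c 0 = 1 := by
      unfold opn vec
      simp
    rw [this]
    simp
  | succ n ih =>
    rw [Finset.sum_range_succ]
    have h1 := Real.log_le_log (opn_pos c (n + 1)) (opn_succ c n)
    have h2 : (1 + |c n|) ≠ 0 := by positivity
    rw [Real.log_mul h2 (opn_pos c n).ne'] at h1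
    linarith

/-- the logarithm of the operator norm -/
noncomputable def LO (a : ℝ) (w : ℕ → TT) (n : ℕ) (p : T2) : ℝ := log (opn (cs a w p) n)

theorem opn_jm {X : Type*} [MeasurableSpace X] {c : X → ℕ → ℝ}
    (hc : ∀ k, Measurable fun x => c x k) (N : ℕ) : Measurable fun x => opn (c x) N := by
  have h1 : Measurable fun x => vec (c x) (1, 0) N := vec_jm hc measurable_const N
  have h2 : Measurable fun x => vec (c x) (0, 1) N := vec_jm hc measurable_const N
  unfold opn
  exact ((meas_abs (measurable_fst.comp h1)).add (meas_abs (measurable_fst.comp h2))).max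
    ((meas_abs (measurable_snd.comp h1)).add (meas_abs (measurable_snd.comp h2)))

theorem LO_jm (a : ℝ) {X : Type*} [MeasurableSpace X] {w : X → ℕ → TT} {p : X → T2}
    (hw : ∀ k, Measurable fun x => w x k) (hp : Measurable p) (n : ℕ) :
    Measurable fun x => LO a (w x) n (p x) := by
  unfold LO
  exact Real.measurable_log.comp (opn_jm (cs_jm a hw hp) n)

theorem LO_ge (a : ℝ) (w : ℕ → TT) (n : ℕ) (p : T2) : lg a w n p ≤ LO a w n p :=
  Real.log_le_log (vec_pos (by rw [norm_e1]; norm_num) n) (opn_ge _ _)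

theorem LO_abs {a : ℝ} (ha : 16 ≤ |a|) (w : ℕ → TT) (n : ℕ) (p : T2) :
    |LO a w n p| ≤ n * log (7 * |a|) := by
  rw [abs_le]
  constructor
  · have h1 := LO_ge a w n p
    have h2 := (abs_le.1 (lg_abs ha w n p)).1
    linarith
  · refine (opn_log (cs a w p) n).trans ?_
    calc ∑ k ∈ Finset.range n, log (1 + |cs a w p k|) ≤ ∑ _k ∈ Finset.range n, log (7 * |a|) := by
          apply Finset.sum_le_sum
          intro k _
          apply Real.log_le_log (by positivity)
          have := cs_lam ha w p k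
          linarith
      _ = n * log (7 * |a|) := by rw [Finset.sum_const, Finset.card_range, nsmul_eq_mul]

theorem LO_meas (a : ℝ) (w : ℕ → TT) (n : ℕ) : Measurable (LO a w n) :=
  LO_jm a (w := fun _ : T2 => w) (fun _ => measurable_const) measurable_id n

theorem LO_int {a : ℝ} (ha : 16 ≤ |a|) (w : ℕ → TT) (n : ℕ) : Integrable (LO a w n) volume := by
  refine Integrable.of_bound (LO_meas a w n).aestronglyMeasurable (n * log (7 * |a|)) ?_
  exact Filter.Eventually.of_forall fun p => LO_abs ha w n p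

/-- the mean of the logarithm of the operator norm -/
noncomputable def B (a : ℝ) (ν : Measure ℝ) (n : ℕ) : ℝ :=
  ∫ w : Fin n → ℝ, (∫ p : T2, LO a (ext w) n p) ∂(Measure.pi fun _ => ν)

theorem LO_up {a : ℝ} (ha : 16 ≤ |a|) (w : ℕ → TT) (n : ℕ) :
    ∫ p : T2, LO a w n p ≤ n * (log (π * |a|) + 9 * ll a / |a|) := by
  have hm : Measurable fun x : ℝ => log (1 + |x|) :=
    Real.measurable_log.comp (measurable_const.add (meas_abs measurable_id))
  have hi : ∀ k, Integrable (fun p : T2 => log (1 + |cs a w p k|)) volume := by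
    intro k
    refine Integrable.of_bound (hm.comp (cs_meas a w k)).aestronglyMeasurable (log (7 * |a|)) ?_
    refine Filter.Eventually.of_forall fun p => ?_
    show ‖log (1 + |cs a w p k|)‖ ≤ _
    rw [Real.norm_of_nonneg (Real.log_nonneg (by linarith [abs_nonneg (cs a w p k)]))]
    apply Real.log_le_log (by positivity)
    have := cs_lam ha w p k
    linarith
  have h1 : ∫ p : T2, LO a w n p ≤ ∫ p : T2, ∑ k ∈ Finset.range n, log (1 + |cs a w p k|) :=
    integral_mono (LO_int ha w n) (integrable_finsetSum _ fun k _ => hi k)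
      fun p => opn_log (cs a w p) n
  rw [integral_finsetSum _ fun k _ => hi k] at h1
  refine h1.trans ?_
  have h2 : ∀ k ∈ Finset.range n, ∫ p : T2, log (1 + |cs a w p k|) ≤
      log (π * |a|) + 9 * ll a / |a| := by
    intro k _
    rw [int_cs a w k hm]
    have := up_mean ha
    unfold ll
    exact this
  have h3 := Finset.sum_le_card_nsmul _ _ _ h2
  rwa [Finset.card_range, nsmul_eq_mul] at h3

theorem LOw_int {a : ℝ} (ha : 16 ≤ |a|) {ν : Measure ℝ} [IsProbabilityMeasure ν] {n : ℕ} (m : ℕ) :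
    Integrable (fun w : Fin n → ℝ => ∫ p : T2, LO a (ext w) m p) (Measure.pi fun _ => ν) := by
  have h : StronglyMeasurable fun x : (Fin n → ℝ) × T2 => LO a (ext x.1) m x.2 :=
    (LO_jm a (w := fun x : (Fin n → ℝ) × T2 => ext x.1) jm_snd measurable_snd m).stronglyMeasurable
  refine Integrable.of_bound h.integral_prod_right'.aestronglyMeasurable (m * log (7 * |a|)) ?_
  refine Filter.Eventually.of_forall fun w => ?_
  have h := norm_integral_le_of_norm_le_const (μ := (volume : Measure T2)) (f := LO a (ext w) m)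
    (C := m * log (7 * |a|)) (Filter.Eventually.of_forall fun p => LO_abs ha (ext w) m p)
  rwa [probReal_univ, mul_one] at h

theorem B_two {a M : ℝ} {ν : Measure ℝ} [IsProbabilityMeasure ν] (ha : 16 ≤ |a|)
    (hM : 1 ≤ M) (hν : ν ≤ ENNReal.ofReal M • volume.restrict (Icc (-1 / 2 : ℝ) (1 / 2)))
    {n : ℕ} (hn : 1 ≤ n) : |1 / n * B a ν n - log (π * |a|)| ≤ 8000 * ll a * sc a M / |a| := by
  have hn0 : (0:ℝ) < n := by exact_mod_cast hn
  have ha0 : 0 < |a| := by linarith
  have hl := ll_one ha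
  have hs := sc_one ha hM
  have h1 := A_lower ha hM hν n
  have h2 : A a ν n n ≤ B a ν n := by
    unfold A B
    apply integral_mono (J_int ha n) (LOw_int ha n)
    intro w
    exact integral_mono (lgI ha (ext w) n) (LO_int ha (ext w) n) fun p => LO_ge a (ext w) n p
  have h3 : B a ν n ≤ n * (log (π * |a|) + 9 * ll a / |a|) := by
    unfold B
    have h := integral_mono (μ := Measure.pi fun _ : Fin n => ν) (LOw_int ha n)
      (integrable_const (n * (log (π * |a|) + 9 * ll a / |a|))) fun w => LO_up ha (ext w) n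
    rwa [integral_const, probReal_univ, one_smul] at h
  have h4 : 9 * ll a / |a| ≤ 8000 * ll a * sc a M / |a| := by
    apply div_le_div_of_nonneg_right _ ha0.le
    nlinarith
  have e : 1 / n * B a ν n - log (π * |a|) = (B a ν n - n * log (π * |a|)) / n := by
    field_simp
  rw [e, abs_div, abs_of_pos hn0, div_le_iff₀ hn0, abs_le]
  have e2 : (n:ℝ) * (log (π * |a|) - 8000 * ll a * sc a M / |a|) =
    n * log (π * |a|) - 8000 * ll a * sc a M / |a| * n := by ring
  have e3 : (n:ℝ) * (log (π * |a|) + 9 * ll a / |a|) = n * log (π * |a|) + 9 * ll a / |a| * n := by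
    ring
  rw [e2] at h1
  rw [e3] at h3
  have h5 : 9 * ll a / |a| * n ≤ 8000 * ll a * sc a M / |a| * n :=
    mul_le_mul_of_nonneg_right h4 hn0.le
  constructor <;> linarith

end Pool.Agent.V8H99.RP
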