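import Pool.Agent.V1152.SMIJ

set_option autoImplicit false

/-!
# Random perturbations of the standard map: small sets of the circle
-/

namespace Pool.Agent.V8H99.RP

open Real MeasureTheory Set Function
open Pool.Agent.TH705.SM (L L_cont phi phi_coe phi_cont T2)
open Pool.Agent.V1152.SMI (cc cc_coe cc_cont cc_le ff ff_cont ff_mean Lper)

/-- the circle -/
abbrev TT := UnitAddCircle

theorem vol_eq {A : Set TT} (hA : MeasurableSet A) (s : ℝ) :
    volume A = volume (((↑) : ℝ → TT) ⁻¹' A ∩ Ioc s (s + 1)) := by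
  have h := UnitAddCircle.measurePreserving_mk s
  rw [← h.measure_preimage hA.nullMeasurableSet, Measure.restrict_apply (h.measurable hA)]

/-- a set of the line with small distances has small measure -/
theorem vol_diam {E : Set ℝ} {δ : ℝ} (hδ : 0 ≤ δ) (h : ∀ x ∈ E, ∀ y ∈ E, |x - y| ≤ δ) :
    volume E ≤ ENNReal.ofReal δ := by
  refine (Real.volume_le_diam E).trans ?_
  apply Metric.ediam_le
  intro x hx y hy
  rw [edist_dist, Real.dist_eq]
  exact ENNReal.ofReal_le_ofReal (h x hx y hy)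

theorem two_arcs {A : Set TT} {s δ : ℝ} (hA : MeasurableSet A) (hδ : 0 ≤ δ)
    (h1 : ∀ x ∈ Ioc s (s + 1 / 2), ∀ y ∈ Ioc s (s + 1 / 2), (x : TT) ∈ A → (y : TT) ∈ A →
      |x - y| ≤ δ)
    (h2 : ∀ x ∈ Ioc (s + 1 / 2) (s + 1), ∀ y ∈ Ioc (s + 1 / 2) (s + 1), (x : TT) ∈ A →
      (y : TT) ∈ A → |x - y| ≤ δ) :
    volume.real A ≤ 2 * δ := by
  unfold Measure.real
  apply ENNReal.toReal_le_of_le_ofReal (by linarith)
  rw [vol_eq hA s]
  have e : ((↑) : ℝ → TT) ⁻¹' A ∩ Ioc s (s + 1) ⊆
      (((↑) : ℝ → TT) ⁻¹' A ∩ Ioc s (s + 1 / 2)) ∪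
        (((↑) : ℝ → TT) ⁻¹' A ∩ Ioc (s + 1 / 2) (s + 1)) := by
    rintro x ⟨hx, hx1, hx2⟩
    by_cases hx3 : x ≤ s + 1 / 2
    · exact Or.inl ⟨hx, hx1, hx3⟩
    · exact Or.inr ⟨hx, not_le.1 hx3, hx2⟩
  refine (measure_mono e).trans ((measure_union_le _ _).trans ?_)
  rw [two_mul, ENNReal.ofReal_add hδ hδ]
  refine add_le_add (vol_diam hδ ?_) (vol_diam hδ ?_)
  · rintro x ⟨hx, hx'⟩ y ⟨hy, hy'⟩
    exact h1 x hx' y hy' hx hy
  · rintro x ⟨hx, hx'⟩ y ⟨hy, hy'⟩
    exact h2 x hx' y hy' hx hy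

theorem real_le_one (A : Set TT) : volume.real A ≤ 1 := measureReal_le_one

/-- Jordan -/
theorem sin_pi_ge {d : ℝ} (h0 : 0 ≤ d) (h1 : d ≤ 1 / 2) : 2 * d ≤ sin (π * d) := by
  have h := Real.mul_le_sin (x := π * d) (by positivity) (by nlinarith [Real.pi_pos])
  have e : 2 / π * (π * d) = 2 * d := by field_simp
  rwa [e] at h

theorem abs_sin_ge {d : ℝ} (h1 : |d| ≤ 1 / 4) : 4 * |d| ≤ |sin (2 * π * d)| := by
  have h := sin_pi_ge (d := 2 * |d|) (by positivity) (by linarith)
  have e : |sin (2 * π * d)| = |sin (π * (2 * |d|))| := by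
    rcases abs_cases d with ⟨h2, -⟩ | ⟨h2, -⟩
    · rw [h2]; congr 2; ring
    · rw [h2, show π * (2 * -d) = -(2 * π * d) by ring, sin_neg, abs_neg]
  rw [e, abs_of_nonneg (le_trans (by positivity) h)]
  linarith

theorem cos_diff (x y : ℝ) : |cos (2 * π * x) - cos (2 * π * y)| =
    2 * |sin (π * (x + y))| * |sin (π * (x - y))| := by
  rw [Real.cos_sub_cos, abs_mul, abs_mul, abs_neg, abs_two]
  congr 3
  · congr 1; ring
  · congr 1; ring

/-- quadratic lower bound on the first half -/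
theorem cos_quad {x y : ℝ} (hx : x ∈ Icc (0:ℝ) (1 / 2)) (hy : y ∈ Icc (0:ℝ) (1 / 2)) :
    8 * (x - y) ^ 2 ≤ |cos (2 * π * x) - cos (2 * π * y)| := by
  obtain ⟨hx0, hx1⟩ := hx
  obtain ⟨hy0, hy1⟩ := hy
  rw [cos_diff]
  have hd0 : 0 ≤ |x - y| := abs_nonneg _
  have hd : |x - y| ≤ 1 / 2 := by rw [abs_le]; constructor <;> linarith
  have h1 : 2 * |x - y| ≤ |sin (π * (x - y))| := by
    have h := sin_pi_ge hd0 hd
    have e : |sin (π * (x - y))| = |sin (π * |x - y|)| := by
      rcases abs_cases (x - y) with ⟨h2, -⟩ | ⟨h2, -⟩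
      · rw [h2]
      · rw [h2, show π * -(x - y) = -(π * (x - y)) by ring, sin_neg, abs_neg]
    rw [e]
    exact h.trans (le_abs_self _)
  have h2 : 2 * |x - y| ≤ |sin (π * (x + y))| := by
    have hs1 : |x - y| ≤ x + y := by rw [abs_le]; constructor <;> linarith
    have hs2 : |x - y| ≤ 1 - (x + y) := by rw [abs_le]; constructor <;> linarith
    by_cases hs : x + y ≤ 1 / 2
    · have h := sin_pi_ge (by linarith) hs
      refine le_trans ?_ (h.trans (le_abs_self _))
      linarith
    · have h := sin_pi_ge (d := 1 - (x + y)) (by linarith) (by linarith)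
      have e : sin (π * (1 - (x + y))) = sin (π * (x + y)) := by
        rw [show π * (1 - (x + y)) = π - π * (x + y) by ring, sin_pi_sub]
      rw [e] at h
      refine le_trans ?_ (h.trans (le_abs_self _))
      linarith
  calc 8 * (x - y) ^ 2 = 2 * (2 * |x - y|) * (2 * |x - y|) := by
        rw [← sq_abs (x - y)]; ring
    _ ≤ 2 * |sin (π * (x + y))| * |sin (π * (x - y))| := by
        gcongr

theorem cos_refl (x : ℝ) : cos (2 * π * (1 - x)) = cos (2 * π * x) := by
  rw [show 2 * π * (1 - x) = 2 * π - 2 * π * x by ring, cos_two_pi_sub]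

theorem sin_refl (x : ℝ) : sin (2 * π * (1 - x)) = - sin (2 * π * x) := by
  rw [show 2 * π * (1 - x) = 2 * π - 2 * π * x by ring, sin_two_pi_sub]

theorem cos_per : Periodic (fun x : ℝ => cos (2 * π * x)) 1 := by
  intro x
  show cos (2 * π * (x + 1)) = cos (2 * π * x)
  rw [show 2 * π * (x + 1) = 2 * π * x + 2 * π by ring, cos_add_two_pi]

/-- the cosine on the circle -/
noncomputable def co : TT → ℝ := cos_per.lift

theorem co_coe (x : ℝ) : co (x : TT) = cos (2 * π * x) := Periodic.lift_coe _ x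

theorem co_cont : Continuous co :=
  Pool.Agent.TH705.SM.lift_cont cos_per (by fun_prop)

theorem cc_co (a : ℝ) (x : TT) : cc a x = 2 + 2 * π * a * co x := by
  induction x using QuotientAddGroup.induction_on with
  | H x =>
    rw [cc_coe, co_coe]
    rfl

/-- sublevel sets of `A + B cos` -/
theorem sub_level {A B τ : ℝ} (h : 1 ≤ max |A| |B|) (hτ : 0 ≤ τ) :
    volume.real {x : TT | |A + B * co x| < τ} ≤ 2 * √τ := by
  by_cases hτ1 : 1 / 2 < τ
  · refine (real_le_one _).trans ?_
    have : √(1 / 4 : ℝ) ≤ √τ := Real.sqrt_le_sqrt (by linarith)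
    have e : √(1 / 4 : ℝ) = 1 / 2 := by
      rw [show (1 / 4 : ℝ) = (1 / 2) ^ 2 by norm_num, Real.sqrt_sq (by norm_num)]
    linarith
  rw [not_lt] at hτ1
  have hm : MeasurableSet {x : TT | |A + B * co x| < τ} :=
    measurableSet_lt ((continuous_const.add (continuous_const.mul co_cont)).abs.measurable)
      measurable_const
  have hs0 := Real.sqrt_nonneg τ
  by_cases hB : |B| < 1 / 2
  · have hA : 1 ≤ |A| := by
      rcases le_max_iff.1 h with h | h
      · exact h
      · linarith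
    have e : {x : TT | |A + B * co x| < τ} = ∅ := by
      rw [Set.eq_empty_iff_forall_notMem]
      intro x hx
      have hx : |A + B * co x| < τ := hx
      induction x using QuotientAddGroup.induction_on with
      | H x =>
        have hx' : |A + B * cos (2 * π * x)| < τ := by
          rw [← co_coe]; exact hx
        have h1 : |B * cos (2 * π * x)| ≤ 1 / 2 := by
          rw [abs_mul]
          have := Real.abs_cos_le_one (2 * π * x)
          nlinarith [abs_nonneg B, abs_nonneg (cos (2 * π * x))]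
        have h2 : |A| ≤ |A + B * cos (2 * π * x)| + |B * cos (2 * π * x)| := by
          have := abs_sub (A + B * cos (2 * π * x)) (B * cos (2 * π * x))
          simpa using this
        linarith
    rw [e]
    simp only [measureReal_empty]
    positivity
  rw [not_lt] at hB
  have key : ∀ x y : ℝ, x ∈ Icc (0:ℝ) (1 / 2) → y ∈ Icc (0:ℝ) (1 / 2) →
      |A + B * cos (2 * π * x)| < τ → |A + B * cos (2 * π * y)| < τ → |x - y| ≤ √τ := by
    intro x y hx hy h1 h2
    have h3 := cos_quad hx hy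
    have h4 : |B| * |cos (2 * π * x) - cos (2 * π * y)| ≤ 2 * τ := by
      rw [← abs_mul]
      have e : B * (cos (2 * π * x) - cos (2 * π * y)) =
          (A + B * cos (2 * π * x)) - (A + B * cos (2 * π * y)) := by ring
      rw [e]
      refine (abs_sub _ _).trans ?_
      linarith
    apply Real.abs_le_sqrt
    nlinarith [abs_nonneg (cos (2 * π * x) - cos (2 * π * y)), sq_nonneg (x - y)]
  refine two_arcs (s := 0) hm hs0 ?_ ?_
  · intro x hx y hy h1 h2
    rw [zero_add] at hx hy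
    exact key x y ⟨hx.1.le, hx.2⟩ ⟨hy.1.le, hy.2⟩ (by rw [← co_coe]; exact h1)
      (by rw [← co_coe]; exact h2)
  · intro x hx y hy h1 h2
    rw [zero_add, zero_add] at hx hy
    have h := key (1 - x) (1 - y) ⟨by linarith [hx.2], by linarith [hx.1]⟩
      ⟨by linarith [hy.2], by linarith [hy.1]⟩ (by rw [cos_refl, ← co_coe]; exact h1)
      (by rw [cos_refl, ← co_coe]; exact h2)
    rwa [show 1 - x - (1 - y) = -(x - y) by ring, abs_neg] at h

end Pool.Agent.V8H99.RP
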