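import Pool.Agent.V8H99.RP.Meas

set_option autoImplicit false

/-!
# Random perturbations of the standard map: small sets near the critical points
-/

namespace Pool.Agent.V8H99.RP

open Real MeasureTheory Set Function
open Pool.Agent.TH705.SM (L L_cont phi phi_coe phi_cont T2)
open Pool.Agent.V1152.SMI (cc cc_coe cc_cont cc_le ff ff_cont ff_mean Lper)

theorem cos_quarter (x : ℝ) : cos (2 * π * x) = sin (2 * π * (1 / 4 - x)) := by
  rw [← Real.sin_pi_div_two_sub]
  congr 1
  ring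

theorem near_quarter {x κ : ℝ} (hx : x ∈ Icc (0:ℝ) (1 / 2)) (h : |cos (2 * π * x)| ≤ κ) :
    |x - 1 / 4| ≤ κ / 4 := by
  have h1 := abs_sin_ge (d := 1 / 4 - x) (by rw [abs_le]; constructor <;> linarith [hx.1, hx.2])
  rw [← cos_quarter] at h1
  rw [abs_sub_comm]
  linarith

theorem sin_half {s : ℝ} (h1 : 1 / 4 ≤ s) (h2 : s ≤ 3 / 4) : 1 / 2 ≤ |sin (π * s)| := by
  by_cases hs : s ≤ 1 / 2
  · have h := sin_pi_ge (by linarith) hs
    exact le_trans (by linarith) (le_abs_self _)
  · have h := sin_pi_ge (d := 1 - s) (by linarith) (by linarith)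
    have e : sin (π * (1 - s)) = sin (π * s) := by
      rw [show π * (1 - s) = π - π * s by ring, sin_pi_sub]
    rw [e] at h
    exact le_trans (by linarith) (le_abs_self _)

theorem sin_abs_ge {d : ℝ} (hd : |d| ≤ 1 / 2) : 2 * |d| ≤ |sin (π * d)| := by
  have h := sin_pi_ge (abs_nonneg d) hd
  have e : |sin (π * d)| = |sin (π * |d|)| := by
    rcases abs_cases d with ⟨h2, -⟩ | ⟨h2, -⟩
    · rw [h2]
    · rw [h2, show π * -d = -(π * d) by ring, sin_neg, abs_neg]
  rw [e]
  exact h.trans (le_abs_self _)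

theorem cos_lin {x y : ℝ} (hx : x ∈ Icc (0:ℝ) (1 / 2)) (hy : y ∈ Icc (0:ℝ) (1 / 2))
    (h1 : |cos (2 * π * x)| ≤ 1 / 2) (h2 : |cos (2 * π * y)| ≤ 1 / 2) :
    2 * |x - y| ≤ |cos (2 * π * x) - cos (2 * π * y)| := by
  have a1 := abs_le.1 (near_quarter hx h1)
  have a2 := abs_le.1 (near_quarter hy h2)
  rw [cos_diff]
  have b1 := sin_half (s := x + y) (by linarith [a1.1, a2.1]) (by linarith [a1.2, a2.2])
  have b2 := sin_abs_ge (d := x - y) (by
    rw [abs_le]; constructor <;> linarith [hx.1, hx.2, hy.1, hy.2])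
  nlinarith [abs_nonneg (x - y), abs_nonneg (sin (π * (x - y)))]

theorem L_cos {a x s : ℝ} (ha : 0 < |a|) (h : |L a x| ≤ s) :
    |cos (2 * π * x)| ≤ (s + 2) / (2 * π * |a|) := by
  rw [le_div_iff₀ (by positivity)]
  have e : |cos (2 * π * x)| * (2 * π * |a|) = |L a x - 2| := by
    unfold L
    rw [show 2 + 2 * π * a * cos (2 * π * x) - 2 = 2 * π * a * cos (2 * π * x) by ring, abs_mul,
      abs_mul, abs_of_pos (by positivity : (0:ℝ) < 2 * π)]
    ring
  rw [e]
  refine (abs_sub _ _).trans ?_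
  rw [abs_two]
  linarith

theorem L_diff (a x y : ℝ) : |L a x - L a y| =
    2 * π * |a| * |cos (2 * π * x) - cos (2 * π * y)| := by
  unfold L
  rw [show 2 + 2 * π * a * cos (2 * π * x) - (2 + 2 * π * a * cos (2 * π * y)) =
    2 * π * a * (cos (2 * π * x) - cos (2 * π * y)) by ring, abs_mul, abs_mul,
    abs_of_pos (by positivity : (0:ℝ) < 2 * π)]

theorem L_refl (a x : ℝ) : L a (1 - x) = L a x := by
  unfold L
  rw [cos_refl]

/-- the trace is a diffeomorphism near the critical points -/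
theorem L_expand {a x y : ℝ} (ha : 16 ≤ |a|) (hx : x ∈ Icc (0:ℝ) (1 / 2))
    (hy : y ∈ Icc (0:ℝ) (1 / 2)) (h1 : |L a x| ≤ 4) (h2 : |L a y| ≤ 4) :
    12 * |a| * |x - y| ≤ |L a x - L a y| := by
  have ha0 : 0 < |a| := by linarith
  have hpi := Real.pi_gt_three
  have hk : (4 + 2) / (2 * π * |a|) ≤ 1 / 2 := by
    rw [div_le_iff₀ (by positivity)]
    nlinarith
  have h := cos_lin hx hy ((L_cos ha0 h1).trans hk) ((L_cos ha0 h2).trans hk)
  rw [L_diff]
  calc 12 * |a| * |x - y| ≤ (2 * π * |a|) * (2 * |x - y|) := by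
        nlinarith [mul_nonneg (abs_nonneg a) (abs_nonneg (x - y))]
    _ ≤ _ := mul_le_mul_of_nonneg_left h (by positivity)

/-- the small values of the trace -/
theorem vol_small {a s : ℝ} (ha : 1 ≤ |a|) (hs : 0 ≤ s) :
    volume.real {x : TT | |cc a x| < s} ≤ (s + 2) / (6 * |a|) := by
  have ha0 : 0 < |a| := by linarith
  have hpi := Real.pi_gt_three
  have hm : MeasurableSet {x : TT | |cc a x| < s} :=
    measurableSet_lt (cc_cont a).abs.measurable measurable_const
  set σ := (s + 2) / (2 * π * |a|) with hσ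
  have hσ0 : 0 ≤ σ := by rw [hσ]; positivity
  have key : ∀ x y : ℝ, x ∈ Icc (0:ℝ) (1 / 2) → y ∈ Icc (0:ℝ) (1 / 2) →
      |L a x| < s → |L a y| < s → |x - y| ≤ σ / 2 := by
    intro x y hx hy h1 h2
    have a1 := abs_le.1 (near_quarter hx (L_cos ha0 h1.le))
    have a2 := abs_le.1 (near_quarter hy (L_cos ha0 h2.le))
    rw [abs_le]
    constructor <;> linarith [a1.1, a1.2, a2.1, a2.2]
  have h : volume.real {x : TT | |cc a x| < s} ≤ 2 * (σ / 2) := by
    refine two_arcs (s := 0) hm (by linarith) ?_ ?_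
    · intro x hx y hy h1 h2
      rw [zero_add] at hx hy
      exact key x y ⟨hx.1.le, hx.2⟩ ⟨hy.1.le, hy.2⟩ (by rw [← cc_coe]; exact h1)
        (by rw [← cc_coe]; exact h2)
    · intro x hx y hy h1 h2
      rw [zero_add, zero_add] at hx hy
      have h := key (1 - x) (1 - y) ⟨by linarith [hx.2], by linarith [hx.1]⟩
        ⟨by linarith [hy.2], by linarith [hy.1]⟩ (by rw [L_refl, ← cc_coe]; exact h1)
        (by rw [L_refl, ← cc_coe]; exact h2)
      rwa [show 1 - x - (1 - y) = -(x - y) by ring, abs_neg] at h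
  refine h.trans ?_
  have e : 2 * (σ / 2) = σ := by ring
  rw [e, hσ]
  apply div_le_div_of_nonneg_left (by linarith) (by positivity)
  nlinarith

/-- the trace is in a short interval -/
theorem vol_target {a z η : ℝ} (ha : 16 ≤ |a|) (hη : 0 ≤ η) :
    volume.real {x : TT | |cc a x| ≤ 4 ∧ |cc a x - z| ≤ η} ≤ η / |a| := by
  have ha0 : 0 < |a| := by linarith
  have hm : MeasurableSet {x : TT | |cc a x| ≤ 4 ∧ |cc a x - z| ≤ η} :=
    (measurableSet_le (cc_cont a).abs.measurable measurable_const).inter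
      (measurableSet_le ((cc_cont a).sub continuous_const).abs.measurable measurable_const)
  have key : ∀ x y : ℝ, x ∈ Icc (0:ℝ) (1 / 2) → y ∈ Icc (0:ℝ) (1 / 2) →
      (|L a x| ≤ 4 ∧ |L a x - z| ≤ η) → (|L a y| ≤ 4 ∧ |L a y - z| ≤ η) →
      |x - y| ≤ η / (2 * |a|) := by
    intro x y hx hy h1 h2
    have h3 := L_expand ha hx hy h1.1 h2.1
    have h4 : |L a x - L a y| ≤ 2 * η := by
      have e : L a x - L a y = (L a x - z) - (L a y - z) := by ring
      rw [e]
      exact (abs_sub _ _).trans (by linarith [h1.2, h2.2])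
    rw [le_div_iff₀ (by positivity)]
    nlinarith [mul_nonneg (abs_nonneg a) (abs_nonneg (x - y))]
  have h : volume.real {x : TT | |cc a x| ≤ 4 ∧ |cc a x - z| ≤ η} ≤ 2 * (η / (2 * |a|)) := by
    refine two_arcs (s := 0) hm (by positivity) ?_ ?_
    · intro x hx y hy h1 h2
      rw [zero_add] at hx hy
      exact key x y ⟨hx.1.le, hx.2⟩ ⟨hy.1.le, hy.2⟩ (by rw [← cc_coe]; exact h1)
        (by rw [← cc_coe]; exact h2)
    · intro x hx y hy h1 h2
      rw [zero_add, zero_add] at hx hy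
      have h := key (1 - x) (1 - y) ⟨by linarith [hx.2], by linarith [hx.1]⟩
        ⟨by linarith [hy.2], by linarith [hy.1]⟩ (by rw [L_refl, ← cc_coe]; exact h1)
        (by rw [L_refl, ← cc_coe]; exact h2)
      rwa [show 1 - x - (1 - y) = -(x - y) by ring, abs_neg] at h
  refine h.trans (le_of_eq ?_)
  field_simp

/-- the real map -/
noncomputable def Fr (a x : ℝ) : ℝ := 2 * x + a * sin (2 * π * x)

theorem Fr_hasDeriv (a x : ℝ) : HasDerivAt (Fr a) (L a x) x := by
  have h1 : HasDerivAt (fun x : ℝ => 2 * π * x) (2 * π) x := by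
    simpa using (hasDerivAt_id x).const_mul (2 * π)
  have h2 := ((hasDerivAt_id x).const_mul 2).add (h1.sin.const_mul a)
  refine HasDerivAt.congr_deriv (f := Fr a) h2 ?_
  unfold L
  ring

theorem Fr_refl (a x : ℝ) : Fr a (1 - x) = 2 - Fr a x := by
  unfold Fr
  rw [sin_refl]
  ring

theorem Fr_lip {a x y K : ℝ} (hK : ∀ z ∈ uIcc x y, |L a z| ≤ K) :
    |Fr a y - Fr a x| ≤ K * |y - x| := by
  have h := Convex.norm_image_sub_le_of_norm_hasDerivWithin_le (f := Fr a) (f' := L a)
    (s := uIcc x y) (x := x) (y := y) (C := K)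
    (fun z _ => (Fr_hasDeriv a z).hasDerivWithinAt) (fun z hz => hK z hz) (convex_uIcc x y)
    left_mem_uIcc right_mem_uIcc
  simpa [Real.norm_eq_abs] using h

theorem L_lip (a x y : ℝ) : |L a x - L a y| ≤ 4 * π ^ 2 * |a| * |x - y| := by
  rw [L_diff]
  have h : |cos (2 * π * x) - cos (2 * π * y)| ≤ |2 * π * x - 2 * π * y| :=
    Real.abs_cos_sub_cos_le _ _
  have e : |2 * π * x - 2 * π * y| = 2 * π * |x - y| := by
    rw [← mul_sub, abs_mul, abs_of_pos (by positivity : (0:ℝ) < 2 * π)]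
  rw [e] at h
  calc 2 * π * |a| * |cos (2 * π * x) - cos (2 * π * y)| ≤ 2 * π * |a| * (2 * π * |x - y|) :=
        mul_le_mul_of_nonneg_left h (by positivity)
    _ = _ := by ring

/-- the trace is small between two points where it is small -/
theorem L_between {a x y : ℝ} (hx : x ∈ Icc (0:ℝ) (1 / 2)) (hy : y ∈ Icc (0:ℝ) (1 / 2))
    {K : ℝ} (h1 : |L a x| ≤ K) (h2 : |L a y| ≤ K) : ∀ z ∈ uIcc x y, |L a z| ≤ K := by
  have hpi := Real.pi_pos
  have key : ∀ x y : ℝ, x ∈ Icc (0:ℝ) (1 / 2) → y ∈ Icc (0:ℝ) (1 / 2) → x ≤ y → |L a x| ≤ K →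
      |L a y| ≤ K → ∀ z, x ≤ z → z ≤ y → |L a z| ≤ K := by
    intro x y hx hy hxy h1 h2 z hz1 hz2
    have c1 : cos (2 * π * z) ≤ cos (2 * π * x) := by
      apply Real.cos_le_cos_of_nonneg_of_le_pi
      · have := hx.1; positivity
      · nlinarith [hy.2]
      · nlinarith
    have c2 : cos (2 * π * y) ≤ cos (2 * π * z) := by
      apply Real.cos_le_cos_of_nonneg_of_le_pi
      · have := hx.1; nlinarith
      · nlinarith [hy.2]
      · nlinarith
    rw [abs_le] at h1 h2 ⊢
    unfold L at *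
    rcases le_total 0 a with ha | ha
    · have d1 := mul_le_mul_of_nonneg_left c1 (by positivity : 0 ≤ 2 * π * a)
      have d2 := mul_le_mul_of_nonneg_left c2 (by positivity : 0 ≤ 2 * π * a)
      constructor <;> linarith [h1.1, h1.2, h2.1, h2.2]
    · have hn : 2 * π * a ≤ 0 := mul_nonpos_of_nonneg_of_nonpos (by positivity) ha
      have d1 := mul_le_mul_of_nonpos_left c1 hn
      have d2 := mul_le_mul_of_nonpos_left c2 hn
      constructor <;> linarith [h1.1, h1.2, h2.1, h2.2]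
  intro z hz
  rcases le_total x y with h | h
  · rw [uIcc_of_le h] at hz
    exact key x y hx hy h h1 h2 z hz.1 hz.2
  · rw [uIcc_of_ge h] at hz
    exact key y x hy hx h h2 h1 z hz.1 hz.2

/-- a critical point whose trace is nearly the inverse of the trace at another point of the orbit -/
theorem vol_match {a ρ : ℝ} (ha : 16 ≤ |a|) (hρ : 0 ≤ ρ) (t : TT) :
    volume.real {x : TT | |cc a x| ≤ 2 ∧ 4 ≤ |cc a (phi a x + t)| ∧
      |cc a x - (cc a (phi a x + t))⁻¹| ≤ ρ} ≤ ρ / |a| := by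
  have ha0 : 0 < |a| := by linarith
  have hm : MeasurableSet {x : TT | |cc a x| ≤ 2 ∧ 4 ≤ |cc a (phi a x + t)| ∧
      |cc a x - (cc a (phi a x + t))⁻¹| ≤ ρ} := by
    have m1 : Measurable fun x : TT => cc a (phi a x + t) :=
      ((cc_cont a).comp ((phi_cont a).add continuous_const)).measurable
    exact (measurableSet_le (cc_cont a).abs.measurable measurable_const).inter
      ((measurableSet_le measurable_const (measurable_norm.comp m1)).inter
      (measurableSet_le (measurable_norm.comp ((cc_cont a).measurable.sub m1.inv)) measurable_const))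
  induction t using QuotientAddGroup.induction_on with
  | H t =>
  have e0 : ∀ x : ℝ, cc a (phi a (x : TT) + (t : TT)) = L a (Fr a x + t) := by
    intro x
    rw [phi_coe, ← AddCircle.coe_add, cc_coe]
    rfl
  have key : ∀ (F : ℝ → ℝ), (∀ x y, x ∈ Icc (0:ℝ) (1 / 2) → y ∈ Icc (0:ℝ) (1 / 2) →
        |L a x| ≤ 2 → |L a y| ≤ 2 → |F x - F y| ≤ 2 * |x - y|) →
      ∀ x y : ℝ, x ∈ Icc (0:ℝ) (1 / 2) → y ∈ Icc (0:ℝ) (1 / 2) →
      (|L a x| ≤ 2 ∧ 4 ≤ |L a (F x)| ∧ |L a x - (L a (F x))⁻¹| ≤ ρ) →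
      (|L a y| ≤ 2 ∧ 4 ≤ |L a (F y)| ∧ |L a y - (L a (F y))⁻¹| ≤ ρ) →
      |x - y| ≤ ρ / (2 * |a|) := by
    intro F hF x y hx hy h1 h2
    obtain ⟨b1, b2, b3⟩ := h1
    obtain ⟨c1, c2, c3⟩ := h2
    have h3 := L_expand ha hx hy (by linarith) (by linarith)
    have h4 := hF x y hx hy b1 c1
    have h5 := L_lip a (F x) (F y)
    have hne1 : L a (F x) ≠ 0 := by
      intro h; rw [h, abs_zero] at b2; linarith
    have hne2 : L a (F y) ≠ 0 := by
      intro h; rw [h, abs_zero] at c2; linarith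
    have h6 : |(L a (F x))⁻¹ - (L a (F y))⁻¹| ≤ |L a (F x) - L a (F y)| / 16 := by
      rw [inv_sub_inv hne1 hne2, abs_div, abs_mul, abs_sub_comm]
      apply div_le_div_of_nonneg_left (abs_nonneg _) (by norm_num)
      nlinarith
    have h7 : |L a x - L a y| ≤ 2 * ρ + |(L a (F x))⁻¹ - (L a (F y))⁻¹| := by
      have e : L a x - L a y = (L a x - (L a (F x))⁻¹) - (L a y - (L a (F y))⁻¹) +
          ((L a (F x))⁻¹ - (L a (F y))⁻¹) := by ring
      rw [e]
      refine (abs_add_le _ _).trans (add_le_add ?_ le_rfl)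
      exact (abs_sub _ _).trans (by linarith)
    have hpi : π ^ 2 ≤ 10 := by nlinarith [Real.pi_lt_d2, Real.pi_gt_three]
    have h8 : |(L a (F x))⁻¹ - (L a (F y))⁻¹| ≤ 5 * |a| * |x - y| := by
      refine h6.trans ?_
      rw [div_le_iff₀ (by norm_num)]
      refine h5.trans ?_
      have n1 := mul_nonneg (abs_nonneg a) (abs_nonneg (x - y))
      have n2 := mul_le_mul_of_nonneg_left h4 (by positivity : 0 ≤ 4 * π ^ 2 * |a|)
      nlinarith
    rw [le_div_iff₀ (by positivity)]
    nlinarith [mul_nonneg (abs_nonneg a) (abs_nonneg (x - y))]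
  have hF1 : ∀ x y, x ∈ Icc (0:ℝ) (1 / 2) → y ∈ Icc (0:ℝ) (1 / 2) →
        |L a x| ≤ 2 → |L a y| ≤ 2 → |Fr a x - Fr a y| ≤ 2 * |x - y| := by
    intro x y hx hy h1 h2
    have h := Fr_lip (L_between hx hy h1 h2)
    rw [abs_sub_comm, abs_sub_comm x y]
    exact h
  have h : volume.real {x : TT | |cc a x| ≤ 2 ∧ 4 ≤ |cc a (phi a x + (t : TT))| ∧
      |cc a x - (cc a (phi a x + (t : TT)))⁻¹| ≤ ρ} ≤ 2 * (ρ / (2 * |a|)) := by
    refine two_arcs (s := 0) hm (by positivity) ?_ ?_
    · intro x hx y hy h1 h2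
      rw [zero_add] at hx hy
      refine key (fun x => Fr a x + t) ?_ x y ⟨hx.1.le, hx.2⟩ ⟨hy.1.le, hy.2⟩ ?_ ?_
      · intro x y hx hy h1 h2
        simpa using hF1 x y hx hy h1 h2
      · have := h1
        rw [Set.mem_ofPred_eq, e0, cc_coe] at this
        exact this
      · have := h2
        rw [Set.mem_ofPred_eq, e0, cc_coe] at this
        exact this
    · intro x hx y hy h1 h2
      rw [zero_add, zero_add] at hx hy
      have h := key (fun x => Fr a (1 - x) + t) ?_ (1 - x) (1 - y)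
        ⟨by linarith [hx.2], by linarith [hx.1]⟩ ⟨by linarith [hy.2], by linarith [hy.1]⟩ ?_ ?_
      · rwa [show 1 - x - (1 - y) = -(x - y) by ring, abs_neg] at h
      · intro x y hx hy h1 h2
        have h := hF1 x y hx hy h1 h2
        rw [Fr_refl, Fr_refl, show 2 - Fr a x + t - (2 - Fr a y + t) = -(Fr a x - Fr a y) by ring,
          abs_neg]
        exact h
      · have := h1
        rw [Set.mem_ofPred_eq, e0, cc_coe] at this
        simp only [L_refl, sub_sub_cancel]
        exact this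
      · have := h2
        rw [Set.mem_ofPred_eq, e0, cc_coe] at this
        simp only [L_refl, sub_sub_cancel]
        exact this
  refine h.trans (le_of_eq ?_)
  field_simp

end Pool.Agent.V8H99.RP
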