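import Pool.Agent.V8H99.RP.Meas2

set_option autoImplicit false

/-!
# Random perturbations of the standard map: means
-/

namespace Pool.Agent.V8H99.RP

open Real MeasureTheory Set Function
open Pool.Agent.TH705.SM (L L_cont phi phi_coe phi_cont T2)
open Pool.Agent.V1152.SMI (cc cc_coe cc_cont cc_le ff ff_cont ff_mean Lper)

/-- the weight -/
noncomputable def wt (a : ℝ) (x : TT) : ℝ := 1 / (1 + |cc a x|)

theorem wt_cont (a : ℝ) : Continuous (wt a) := by
  unfold wt
  apply Continuous.div continuous_const (continuous_const.add (cc_cont a).abs)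
  intro x
  have h : 0 < 1 + |cc a x| := by positivity
  exact h.ne'

theorem wt_nonneg (a : ℝ) (x : TT) : 0 ≤ wt a x := by unfold wt; positivity

theorem wt_le (a : ℝ) (x : TT) : wt a x ≤ 1 := by
  unfold wt
  rw [div_le_one (by positivity)]
  linarith [abs_nonneg (cc a x)]

theorem cont_int {f : TT → ℝ} (hf : Continuous f) : Integrable f volume :=
  hf.integrable_of_hasCompactSupport (HasCompactSupport.of_compactSpace f)

theorem dyadic {c : ℝ} {m : ℕ} (h : |c| < 2 ^ m) (hm : 1 ≤ m) :
    1 / (1 + |c|) ≤ ∑ j ∈ Finset.range m, (1 / 2 : ℝ) ^ j * (if |c| < 2 ^ (j + 1) then 1 else 0) := by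
  classical
  have hex : ∃ j : ℕ, |c| < 2 ^ (j + 1) := ⟨m - 1, by rwa [Nat.sub_add_cancel hm]⟩
  set j := Nat.find hex with hj
  have h1 : |c| < 2 ^ (j + 1) := Nat.find_spec hex
  have h2 : j ≤ m - 1 := Nat.find_min' hex (by rwa [Nat.sub_add_cancel hm])
  have hjm : j ∈ Finset.range m := Finset.mem_range.2 (by omega)
  have h3 : (1 / 2 : ℝ) ^ j * (if |c| < 2 ^ (j + 1) then 1 else 0) ≤
      ∑ j ∈ Finset.range m, (1 / 2 : ℝ) ^ j * (if |c| < 2 ^ (j + 1) then 1 else 0) :=
    Finset.single_le_sum (f := fun j : ℕ => (1 / 2 : ℝ) ^ j * (if |c| < 2 ^ (j + 1) then 1 else 0))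
      (fun i _ => by positivity) hjm
  refine le_trans ?_ h3
  rw [if_pos h1, mul_one]
  rcases Nat.eq_zero_or_pos j with h0 | h0
  · rw [h0, pow_zero, div_le_one (by positivity)]
    linarith [abs_nonneg c]
  · have h4 : ¬ |c| < 2 ^ (j - 1 + 1) := Nat.find_min hex (by omega)
    rw [Nat.sub_add_cancel h0, not_lt] at h4
    rw [div_le_iff₀ (by positivity)]
    have h5 : (1 / 2 : ℝ) ^ j * 2 ^ j = 1 := by rw [← mul_pow]; norm_num
    nlinarith [pow_pos (by norm_num : (0:ℝ) < 1 / 2) j]

theorem wt_int {a : ℝ} (ha : 16 ≤ |a|) : ∫ x, wt a x ≤ 3 * (1 + log |a|) / |a| := by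
  have ha0 : 0 < |a| := by linarith
  have hl : 0 ≤ log |a| := Real.log_nonneg (by linarith)
  set m : ℕ := ⌈3 * (1 + log |a|)⌉₊ with hm
  have hm1 : 3 * (1 + log |a|) ≤ m := Nat.le_ceil _
  have hm2 : (m : ℝ) ≤ 4 * (1 + log |a|) := by
    have := Nat.ceil_lt_add_one (a := 3 * (1 + log |a|)) (by positivity)
    rw [← hm] at this
    linarith
  have hm3 : 1 ≤ m := by
    rw [hm, Nat.one_le_ceil_iff]
    positivity
  have hpow : 2 + 2 * π * |a| < (2:ℝ) ^ m := by
    have h1 : exp (2 + log |a|) ≤ (2:ℝ) ^ m := by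
      rw [← Real.exp_log (by positivity : (0:ℝ) < 2 ^ m)]
      apply Real.exp_le_exp.2
      rw [Real.log_pow]
      have := Real.log_two_gt_d9
      nlinarith
    have h2 : exp (2 + log |a|) = exp 2 * |a| := by rw [Real.exp_add, Real.exp_log ha0]
    have h3 : (7.3:ℝ) ≤ exp 2 := by
      have h4 := Real.exp_one_gt_d9
      have : exp 2 = exp 1 * exp 1 := by rw [← Real.exp_add]; norm_num
      rw [this]
      nlinarith
    rw [h2] at h1
    have := Real.pi_lt_d2
    nlinarith
  have hmeas : ∀ j : ℕ, MeasurableSet {x : TT | |cc a x| < 2 ^ (j + 1)} := fun j =>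
    measurableSet_lt (cc_cont a).abs.measurable measurable_const
  have hi : ∀ j : ℕ, Integrable (fun x : TT => (1 / 2 : ℝ) ^ j *
      (if |cc a x| < 2 ^ (j + 1) then (1:ℝ) else 0)) volume := by
    intro j
    apply Integrable.const_mul
    have : (fun x : TT => if |cc a x| < 2 ^ (j + 1) then (1:ℝ) else 0) =
        Set.indicator {x : TT | |cc a x| < 2 ^ (j + 1)} (fun _ => (1:ℝ)) := by
      funext x
      simp [Set.indicator_apply]
    rw [this]
    exact (integrable_const 1).indicator (hmeas j)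
  have h1 : ∫ x, wt a x ≤ ∫ x, ∑ j ∈ Finset.range m, (1 / 2 : ℝ) ^ j *
      (if |cc a x| < 2 ^ (j + 1) then (1:ℝ) else 0) := by
    apply integral_mono (cont_int (wt_cont a)) (integrable_finsetSum _ fun j _ => hi j)
    intro x
    exact dyadic ((cc_le a x).trans_lt hpow) hm3
  refine h1.trans ?_
  rw [integral_finsetSum _ fun j _ => hi j]
  have h2 : ∀ j ∈ Finset.range m, ∫ x : TT, (1 / 2 : ℝ) ^ j *
      (if |cc a x| < 2 ^ (j + 1) then (1:ℝ) else 0) ≤ 4 / (6 * |a|) := by
    intro j _
    rw [integral_const_mul]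
    have e : (fun x : TT => if |cc a x| < 2 ^ (j + 1) then (1:ℝ) else 0) =
        Set.indicator {x : TT | |cc a x| < 2 ^ (j + 1)} (fun _ => (1:ℝ)) := by
      funext x
      simp [Set.indicator_apply]
    rw [e, integral_indicator_const _ (hmeas j), smul_eq_mul, mul_one]
    have h3 := vol_small (a := a) (s := 2 ^ (j + 1)) (by linarith) (by positivity)
    have h4 : (1 / 2 : ℝ) ^ j ≤ 1 := pow_le_one₀ (by norm_num) (by norm_num)
    have h5 : (1 / 2 : ℝ) ^ j * 2 ^ (j + 1) = 2 := by
      rw [pow_succ, ← mul_assoc, ← mul_pow]; norm_num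
    calc (1 / 2 : ℝ) ^ j * volume.real {x : TT | |cc a x| < 2 ^ (j + 1)}
        ≤ (1 / 2 : ℝ) ^ j * ((2 ^ (j + 1) + 2) / (6 * |a|)) :=
          mul_le_mul_of_nonneg_left h3 (by positivity)
      _ = ((1 / 2 : ℝ) ^ j * 2 ^ (j + 1) + 2 * (1 / 2 : ℝ) ^ j) / (6 * |a|) := by ring
      _ ≤ 4 / (6 * |a|) := by
          apply div_le_div_of_nonneg_right _ (by positivity)
          rw [h5]
          linarith
  refine (Finset.sum_le_sum h2).trans ?_
  rw [Finset.sum_const, Finset.card_range, nsmul_eq_mul]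
  rw [← mul_div_assoc, div_le_div_iff₀ (by positivity) ha0]
  nlinarith [mul_nonneg hl ha0.le, mul_le_mul_of_nonneg_right hm2 ha0.le]

theorem Fr_mvt (a x y : ℝ) : ∃ z ∈ uIcc x y, Fr a y - Fr a x = L a z * (y - x) := by
  rcases lt_trichotomy x y with h | h | h
  · obtain ⟨z, hz, e⟩ := exists_hasDerivAt_eq_slope (Fr a) (L a) h
      (fun w _ => (Fr_hasDeriv a w).continuousAt.continuousWithinAt) (fun w _ => Fr_hasDeriv a w)
    refine ⟨z, ?_, ?_⟩
    · rw [uIcc_of_le h.le]; exact ⟨hz.1.le, hz.2.le⟩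
    · rw [e]
      have : y - x ≠ 0 := by linarith
      field_simp
  · exact ⟨x, left_mem_uIcc, by rw [h]; ring⟩
  · obtain ⟨z, hz, e⟩ := exists_hasDerivAt_eq_slope (Fr a) (L a) h
      (fun w _ => (Fr_hasDeriv a w).continuousAt.continuousWithinAt) (fun w _ => Fr_hasDeriv a w)
    refine ⟨z, ?_, ?_⟩
    · rw [uIcc_of_ge h.le]; exact ⟨hz.1.le, hz.2.le⟩
    · rw [e]
      have : x - y ≠ 0 := by linarith
      field_simp
      ring

/-- two near points which are both near the critical points -/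
theorem near_both {u v κ : ℝ} (huv : |u - v| ≤ 1 / 4) (h1 : |cos (2 * π * u)| ≤ κ)
    (h2 : |cos (2 * π * v)| ≤ κ) : |u - v| ≤ κ / 2 := by
  have h3 := abs_sin_ge huv
  have e : sin (2 * π * (u - v)) = sin (2 * π * u) * cos (2 * π * v) -
      cos (2 * π * u) * sin (2 * π * v) := by
    rw [← Real.sin_sub]; congr 1; ring
  rw [e] at h3
  have h4 := abs_sub (sin (2 * π * u) * cos (2 * π * v)) (cos (2 * π * u) * sin (2 * π * v))
  rw [abs_mul, abs_mul] at h4
  have s1 := Real.abs_sin_le_one (2 * π * u)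
  have s2 := Real.abs_sin_le_one (2 * π * v)
  nlinarith [abs_nonneg (cos (2 * π * u)), abs_nonneg (cos (2 * π * v)),
    abs_nonneg (sin (2 * π * u)), abs_nonneg (sin (2 * π * v))]

/-- the window estimate -/
theorem window {a : ℝ} (ha : 16 ≤ |a|) (x t : ℝ) :
    volume {s : ℝ | s ∈ Ioo (-(1 / (120 * |a|))) (1 / (120 * |a|)) ∧ |L a (Fr a (x + s) + t)| < 2} ≤
      ENNReal.ofReal (2 * (1 / (120 * |a|)) * (70 * (1 / (1 + |L a x|)))) := by
  have ha0 : 0 < |a| := by linarith
  have hpi := Real.pi_gt_three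
  have hpi2 := Real.pi_lt_d2
  set h := 1 / (120 * |a|) with hh
  have hh0 : 0 < h := by rw [hh]; positivity
  have hah : |a| * h = 1 / 120 := by rw [hh]; field_simp
  by_cases hL : |L a x| ≤ 1
  · refine (measure_mono (t := Ioo (-h) h) (fun s hs => hs.1)).trans ?_
    rw [Real.volume_Ioo]
    apply ENNReal.ofReal_le_ofReal
    have h1 : 1 ≤ 70 * (1 / (1 + |L a x|)) := by
      rw [mul_one_div, le_div_iff₀ (by positivity)]
      linarith
    nlinarith
  rw [not_le] at hL
  have hLa : |L a x| ≤ 7 * |a| := by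
    have h1 := cc_le a (x : TT)
    rw [cc_coe] at h1
    nlinarith
  have hnear : ∀ w, |w - x| ≤ h → |L a w - L a x| ≤ 0.4 := by
    intro w hw
    refine (L_lip a w x).trans ?_
    have h1 : π ^ 2 ≤ 10 := by nlinarith
    calc 4 * π ^ 2 * |a| * |w - x| ≤ 4 * π ^ 2 * |a| * h :=
          mul_le_mul_of_nonneg_left hw (by positivity)
      _ = 4 * π ^ 2 * (|a| * h) := by ring
      _ ≤ 0.4 := by rw [hah]; linarith
  have key : ∀ s ∈ {s : ℝ | s ∈ Ioo (-h) h ∧ |L a (Fr a (x + s) + t)| < 2},
      ∀ r ∈ {s : ℝ | s ∈ Ioo (-h) h ∧ |L a (Fr a (x + s) + t)| < 2},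
      |s - r| ≤ 1 / (1.8 * |a| * |L a x|) := by
    rintro s ⟨hs, hs2⟩ r ⟨hr, hr2⟩
    obtain ⟨w, hw, hw2⟩ := Fr_mvt a (x + r) (x + s)
    have hwx : |w - x| ≤ h := by
      rw [abs_le]
      rcases le_total (x + r) (x + s) with h1 | h1
      · rw [uIcc_of_le h1] at hw
        constructor <;> linarith [hw.1, hw.2, hs.1, hs.2, hr.1, hr.2]
      · rw [uIcc_of_ge h1] at hw
        constructor <;> linarith [hw.1, hw.2, hs.1, hs.2, hr.1, hr.2]
    have h1 := hnear w hwx
    have h2 : |L a w| ≤ |L a x| + 0.4 := by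
      have := abs_sub_abs_le_abs_sub (L a w) (L a x)
      linarith
    have h3 : 0.6 * |L a x| ≤ |L a w| := by
      have := abs_sub_abs_le_abs_sub (L a x) (L a w)
      rw [abs_sub_comm] at this
      linarith
    have h4 : |Fr a (x + s) - Fr a (x + r)| = |L a w| * |s - r| := by
      rw [hw2, abs_mul]
      congr 2
      ring
    have hsr : |s - r| ≤ 2 * h := by
      rw [abs_le]
      constructor <;> linarith [hs.1, hs.2, hr.1, hr.2]
    have h5 : |(Fr a (x + s) + t) - (Fr a (x + r) + t)| ≤ 1 / 4 := by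
      rw [add_sub_add_right_eq_sub, h4]
      calc |L a w| * |s - r| ≤ (7 * |a| + 0.4) * (2 * h) :=
            mul_le_mul (by linarith) hsr (abs_nonneg _) (by positivity)
        _ = 14 * (|a| * h) + 0.8 * h := by ring
        _ ≤ 1 / 4 := by
            rw [hah]
            have : h ≤ 1 / 120 := by
              rw [← hah]
              nlinarith
            linarith
    have h6 := near_both h5 (L_cos ha0 hs2.le) (L_cos ha0 hr2.le)
    rw [add_sub_add_right_eq_sub, h4] at h6
    rw [le_div_iff₀ (by positivity)]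
    have h7 : (2 + 2) / (2 * π * |a|) / 2 ≤ 1 / (3 * |a|) := by
      rw [div_div, div_le_div_iff₀ (by positivity) (by positivity)]
      nlinarith
    have h8 : |L a w| * |s - r| ≤ 1 / (3 * |a|) := h6.trans h7
    rw [le_div_iff₀ (by positivity)] at h8
    have h9 := mul_le_mul_of_nonneg_right h3 (mul_nonneg (abs_nonneg (s - r)) ha0.le)
    nlinarith
  refine (vol_diam (by positivity) key).trans (ENNReal.ofReal_le_ofReal ?_)
  have e : 2 * h * (70 * (1 / (1 + |L a x|))) = 140 / (120 * |a| * (1 + |L a x|)) := by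
    rw [hh]; field_simp; norm_num
  rw [e, div_le_div_iff₀ (by positivity) (by positivity)]
  nlinarith [mul_pos ha0 (by linarith : (0:ℝ) < |L a x|)]

/-- visits of the critical region two steps later -/
theorem vol_two {a : ℝ} (ha : 16 ≤ |a|) (t : TT) :
    volume.real {y : TT | |cc a (phi a y + t)| < 2} ≤ 70 * ∫ x, wt a x := by
  have ha0 : 0 < |a| := by linarith
  set E : Set TT := {y : TT | |cc a (phi a y + t)| < 2} with hE
  have hm : MeasurableSet E := measurableSet_lt
    ((cc_cont a).comp ((phi_cont a).add continuous_const)).abs.measurable measurable_const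
  set h := 1 / (120 * |a|) with hh
  have hh0 : 0 < h := by rw [hh]; positivity
  have hshift : ∀ s : TT, ∫⁻ x : TT, E.indicator (fun _ => (1 : ENNReal)) (x + s) = volume E := by
    intro s
    rw [lintegral_add_right_eq_self (μ := (volume : Measure TT))
      (E.indicator (fun _ => (1 : ENNReal))) s, lintegral_indicator_const hm, one_mul]
  have h1 : ∫⁻ s in Ioo (-h) h, ∫⁻ x : TT, E.indicator (fun _ => (1 : ENNReal)) (x + (s : TT)) =
      volume E * ENNReal.ofReal (2 * h) := by
    simp_rw [hshift]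
    rw [setLIntegral_const, Real.volume_Ioo]
    congr 2
    ring
  have h2 : ∫⁻ s in Ioo (-h) h, ∫⁻ x : TT, E.indicator (fun _ => (1 : ENNReal)) (x + (s : TT)) =
      ∫⁻ x : TT, ∫⁻ s in Ioo (-h) h, E.indicator (fun _ => (1 : ENNReal)) (x + (s : TT)) := by
    apply lintegral_lintegral_swap
    apply Measurable.aemeasurable
    have hc : Measurable fun q : ℝ × TT => q.2 + ((q.1 : ℝ) : TT) := by
      apply Continuous.measurable
      exact continuous_snd.add ((AddCircle.continuous_mk' 1).comp continuous_fst)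
    exact (measurable_const.indicator hm).comp hc
  have h3 : ∀ x : TT, ∫⁻ s in Ioo (-h) h, E.indicator (fun _ => (1 : ENNReal)) (x + (s : TT)) ≤
      ENNReal.ofReal (2 * h * (70 * wt a x)) := by
    intro x
    induction x using QuotientAddGroup.induction_on with
    | H x =>
    induction t using QuotientAddGroup.induction_on with
    | H t =>
    have h4 := window ha x t
    have e : ∀ s : ℝ, E.indicator (fun _ => (1 : ENNReal)) (((x : ℝ) : TT) + ((s : ℝ) : TT)) =
        ({s : ℝ | |L a (Fr a (x + s) + t)| < 2}).indicator (fun _ => (1 : ENNReal)) s := by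
      intro s
      have : (((x : ℝ) : TT) + ((s : ℝ) : TT) ∈ E) ↔ s ∈ {s : ℝ | |L a (Fr a (x + s) + t)| < 2} := by
        rw [← AddCircle.coe_add, hE, Set.mem_ofPred_eq, Set.mem_ofPred_eq, phi_coe,
          ← AddCircle.coe_add, cc_coe]
        rfl
      by_cases hs : s ∈ {s : ℝ | |L a (Fr a (x + s) + t)| < 2}
      · rw [Set.indicator_of_mem hs, Set.indicator_of_mem (this.2 hs)]
      · rw [Set.indicator_of_notMem hs, Set.indicator_of_notMem (fun h => hs (this.1 h))]
    have hm2 : MeasurableSet {s : ℝ | |L a (Fr a (x + s) + t)| < 2} := by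
      apply measurableSet_lt _ measurable_const
      apply Continuous.measurable
      have : Continuous (Fr a) := by unfold Fr; fun_prop
      exact ((L_cont a).comp ((this.comp (continuous_const.add continuous_id)).add
        continuous_const)).abs
    calc ∫⁻ s in Ioo (-h) h, E.indicator (fun _ => (1 : ENNReal)) (((x : ℝ) : TT) + ((s : ℝ) : TT))
        = ∫⁻ s in Ioo (-h) h,
            ({s : ℝ | |L a (Fr a (x + s) + t)| < 2}).indicator (fun _ => (1 : ENNReal)) s := by
          simp_rw [e]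
      _ = volume ({s : ℝ | |L a (Fr a (x + s) + t)| < 2} ∩ Ioo (-h) h) := by
          rw [lintegral_indicator_const hm2, one_mul, Measure.restrict_apply hm2]
      _ ≤ _ := by
          rw [Set.inter_comm]
          refine h4.trans (le_of_eq ?_)
          unfold wt
          rw [cc_coe]
  have h4 : volume E * ENNReal.ofReal (2 * h) ≤ ∫⁻ x : TT, ENNReal.ofReal (2 * h * (70 * wt a x)) := by
    rw [← h1, h2]
    exact lintegral_mono h3
  have h5 : ∫⁻ x : TT, ENNReal.ofReal (2 * h * (70 * wt a x)) =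
      ENNReal.ofReal (∫ x, 2 * h * (70 * wt a x)) := by
    rw [ofReal_integral_eq_lintegral_ofReal]
    · exact cont_int (continuous_const.mul (continuous_const.mul (wt_cont a)))
    · exact Filter.Eventually.of_forall fun x => by
        have := wt_nonneg a x
        show 0 ≤ 2 * h * (70 * wt a x)
        positivity
  rw [h5, integral_const_mul, integral_const_mul, mul_comm (2 * h),
    ENNReal.ofReal_mul' (by positivity : (0:ℝ) ≤ 2 * h)] at h4
  have h6 := (ENNReal.mul_le_mul_iff_left (by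
    rw [ne_eq, ENNReal.ofReal_eq_zero, not_le]; positivity) ENNReal.ofReal_ne_top).1 h4
  unfold Measure.real
  apply ENNReal.toReal_le_of_le_ofReal _ h6
  have : 0 ≤ ∫ x, wt a x := integral_nonneg (wt_nonneg a)
  positivity

end Pool.Agent.V8H99.RP
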