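import Pool.Agent.V8H99.RP.Meas3

set_option autoImplicit false

/-!
# Random perturbations of the standard map: mean expansion, and the law of the direction
-/

namespace Pool.Agent.V8H99.RP

open Real MeasureTheory Set Function
open Pool.Agent.TH705.SM (L L_cont phi phi_coe phi_cont T2)
open Pool.Agent.V1152.SMI (cc cc_coe cc_cont cc_le ff ff_cont ff_mean Lper)

/-- lower bound of the logarithmic growth -/
noncomputable def lw (c : ℝ) : ℝ := log (2 + c ^ 2) / 2 - 8 / (1 + |c|)

theorem lw_cont : Continuous lw := by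
  unfold lw
  apply Continuous.sub
  · apply Continuous.div_const
    apply Continuous.log (by fun_prop)
    intro x
    nlinarith [sq_nonneg x]
  · apply Continuous.div continuous_const (by fun_prop)
    intro x
    have : 0 < 1 + |x| := by positivity
    exact this.ne'

theorem lw_big {c : ℝ} (hc : 2 ≤ |c|) : lw c ≤ log (|c| - 1) := by
  unfold lw
  rw [← sq_abs c]
  set t := |c| with ht
  have h1 : log (2 + t ^ 2) / 2 - log (t - 1) ≤ 8 / (1 + t) := by
    have e : log (2 + t ^ 2) / 2 - log (t - 1) = log ((2 + t ^ 2) / (t - 1) ^ 2) / 2 := by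
      rw [Real.log_div (by positivity) (by nlinarith), Real.log_pow]
      norm_num
      ring
    rw [e]
    have h2 : log ((2 + t ^ 2) / (t - 1) ^ 2) ≤ (2 + t ^ 2) / (t - 1) ^ 2 - 1 :=
      Real.log_le_sub_one_of_pos (div_pos (by positivity) (by nlinarith))
    have h3 : (2 + t ^ 2) / (t - 1) ^ 2 - 1 ≤ 16 / (1 + t) := by
      rw [sub_le_iff_le_add, div_add_one (by linarith), div_le_div_iff₀ (by nlinarith) (by linarith)]
      nlinarith [mul_nonneg (by linarith : (0:ℝ) ≤ t) (by linarith : (0:ℝ) ≤ t - 2),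
        sq_nonneg (t - 2), mul_nonneg (mul_nonneg (by linarith : (0:ℝ) ≤ t)
        (by linarith : (0:ℝ) ≤ t - 2)) (by linarith : (0:ℝ) ≤ t - 2)]
    have e2 : 8 / (1 + t) = (16 / (1 + t)) / 2 := by ring
    rw [e2]
    linarith
  linarith

theorem lw_small {c : ℝ} (hc : |c| < 2) : lw c ≤ 0 := by
  unfold lw
  have h1 : log (2 + c ^ 2) ≤ 2 := by
    rw [Real.log_le_iff_le_exp (by positivity)]
    have h2 : c ^ 2 ≤ 4 := by
      rw [← sq_abs]
      nlinarith [abs_nonneg c]
    have h3 : (7.3:ℝ) ≤ exp 2 := by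
      have h4 := Real.exp_one_gt_d9
      have : exp 2 = exp 1 * exp 1 := by rw [← Real.exp_add]; norm_num
      rw [this]
      nlinarith
    linarith
  have h2 : 2 ≤ 8 / (1 + |c|) := by
    rw [le_div_iff₀ (by positivity)]
    linarith
  linarith

theorem up_le (c : ℝ) : log (1 + |c|) ≤ log (2 + c ^ 2) / 2 + 2 / (1 + |c|) := by
  rw [← sq_abs c]
  set t := |c| with ht
  have ht0 : 0 ≤ t := abs_nonneg c
  have e : log (1 + t) - log (2 + t ^ 2) / 2 = log ((1 + t) ^ 2 / (2 + t ^ 2)) / 2 := by
    rw [Real.log_div (by positivity) (by positivity), Real.log_pow]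
    norm_num
    ring
  have h2 : log ((1 + t) ^ 2 / (2 + t ^ 2)) ≤ (1 + t) ^ 2 / (2 + t ^ 2) - 1 :=
    Real.log_le_sub_one_of_pos (by positivity)
  have h3 : (1 + t) ^ 2 / (2 + t ^ 2) - 1 ≤ 4 / (1 + t) := by
    rw [sub_le_iff_le_add, div_add_one (by positivity), div_le_div_iff₀ (by positivity)
      (by positivity)]
    nlinarith [mul_nonneg ht0 (sq_nonneg (t - 1)), sq_nonneg (t - 1)]
  have e2 : 2 / (1 + t) = (4 / (1 + t)) / 2 := by ring
  rw [e2]
  linarith

theorem circle_int (f : TT → ℝ) : ∫ x, f x = ∫ x in (0:ℝ)..1, f (x : TT) := by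
  have h := UnitAddCircle.intervalIntegral_preimage 0 f
  rw [zero_add] at h
  exact h.symm

theorem lg_cont (a : ℝ) : Continuous fun x : TT => log (2 + cc a x ^ 2) / 2 := by
  have hc := cc_cont a
  apply Continuous.div_const
  refine Continuous.log (by fun_prop) (fun x => ?_)
  have : 0 < 2 + cc a x ^ 2 := by positivity
  exact this.ne'

theorem lg_int (a : ℝ) : ∫ x : TT, log (2 + cc a x ^ 2) / 2 = ∫ x in (0:ℝ)..1, ff a x := by
  rw [circle_int (fun x => log (2 + cc a x ^ 2) / 2)]
  apply intervalIntegral.integral_congr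
  intro x _
  show log (2 + cc a (x : TT) ^ 2) / 2 = ff a x
  rw [cc_coe]
  rfl

theorem lw_mean {a : ℝ} (ha : 16 ≤ |a|) :
    log (π * |a|) - 24 * (1 + log |a|) / |a| ≤ ∫ x, lw (cc a x) := by
  have h1 := (ff_mean ha).1
  have h2 := wt_int ha
  have e : ∫ x, lw (cc a x) = (∫ x in (0:ℝ)..1, ff a x) - 8 * ∫ x, wt a x := by
    have i1 := cont_int (lg_cont a)
    have i2 : Integrable (fun x : TT => 8 * wt a x) volume :=
      cont_int (continuous_const.mul (wt_cont a))
    rw [← lg_int, ← integral_const_mul, ← integral_sub i1 i2]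
    apply integral_congr_ae
    refine Filter.Eventually.of_forall fun x => ?_
    show lw (cc a x) = log (2 + cc a x ^ 2) / 2 - 8 * wt a x
    unfold lw wt
    ring
  rw [e]
  have e3 : 24 * (1 + log |a|) / |a| = 8 * (3 * (1 + log |a|) / |a|) := by ring
  rw [e3]
  linarith

theorem up_mean {a : ℝ} (ha : 16 ≤ |a|) :
    ∫ x, log (1 + |cc a x|) ≤ log (π * |a|) + 9 * (1 + log |a|) / |a| := by
  have ha0 : 0 < |a| := by linarith
  have hl : 0 ≤ log |a| := Real.log_nonneg (by linarith)
  have h1 := (ff_mean ha).2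
  have h2 := wt_int ha
  have i1 := cont_int (lg_cont a)
  have i2 : Integrable (fun x : TT => 2 * wt a x) volume :=
    cont_int (continuous_const.mul (wt_cont a))
  have h3 : ∫ x, log (1 + |cc a x|) ≤ ∫ x, (log (2 + cc a x ^ 2) / 2 + 2 * wt a x) := by
    apply integral_mono
    · apply cont_int
      refine Continuous.log (continuous_const.add (cc_cont a).abs) (fun x => ?_)
      have : 0 < 1 + |cc a x| := by positivity
      exact this.ne'
    · exact i1.add i2
    · intro x
      have := up_le (cc a x)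
      show log (1 + |cc a x|) ≤ log (2 + cc a x ^ 2) / 2 + 2 * wt a x
      unfold wt
      rw [mul_one_div]
      exact this
  have h4 : ∫ x, (log (2 + cc a x ^ 2) / 2 + 2 * wt a x) =
      (∫ x in (0:ℝ)..1, ff a x) + 2 * ∫ x, wt a x := by
    rw [← lg_int, ← integral_const_mul]
    exact integral_add i1 i2
  refine h3.trans ?_
  rw [h4]
  have e3 : 9 * (1 + log |a|) / |a| = 3 / |a| + 2 * (3 * (1 + log |a|) / |a|) + 3 * log |a| / |a| := by
    ring
  have h4 : 0 ≤ 3 * log |a| / |a| := by positivity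
  rw [e3]
  linarith

/-- one step of the derivative -/
def stp (c : ℝ) (v : ℝ × ℝ) : ℝ × ℝ := (c * v.1 - v.2, v.1)

/-- the law of the direction after two steps -/
theorem two_level {a δ κ σ α β : ℝ} {v : ℝ × ℝ} (ha : 1 ≤ |a|) (hδ : 0 < δ) (hκ0 : 0 < κ)
    (hκ1 : κ ≤ 1) (hσ : σ ≤ δ * κ ^ 6) (hσ0 : 0 ≤ σ) (hv : ‖v‖ = 1) (hαβ : δ ≤ max |α| |β|) :
    ∫⁻ u : TT, volume {w : TT | |α * (stp (cc a w) (stp (cc a u) v)).1 +
      β * (stp (cc a w) (stp (cc a u) v)).2| < σ} ≤ ENNReal.ofReal (9 * κ) := by
  have hpi := Real.pi_gt_three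
  have hvm : max |v.1| |v.2| = 1 := by rw [← hv, Prod.norm_def]; rfl
  have hv1 : |v.1| ≤ 1 := by rw [← hvm]; exact le_max_left _ _
  have hmin : δ ≤ max |α| |β| := hαβ
  set r : TT → ℝ := fun u => cc a u * v.1 - v.2 with hr
  have hrc : Continuous r := ((cc_cont a).mul continuous_const).sub continuous_const
  set ρ := κ ^ 2 with hρ
  have hρ0 : 0 < ρ := by positivity
  have hρ1 : ρ ≤ 1 := pow_le_one₀ hκ0.le hκ1
  have hm : MeasurableSet {u : TT | |r u| < ρ} :=
    measurableSet_lt hrc.abs.measurable measurable_const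
  -- the first variable
  have h1 : volume {u : TT | |r u| < ρ} ≤ ENNReal.ofReal (2 * √(2 * ρ)) := by
    have h2 : volume.real {x : TT | |2 * (2 * v.1 - v.2) + 2 * (2 * π * a * v.1) * co x| < 2 * ρ} ≤
        2 * √(2 * ρ) := by
      apply sub_level _ (by positivity)
      by_cases hv3 : |v.1| < 1 / 6
      · have hv2 : |v.2| = 1 := by
          rcases le_total |v.1| |v.2| with h | h
          · rwa [max_eq_right h] at hvm
          · rw [max_eq_left h] at hvm; linarith
        refine le_trans ?_ (le_max_left _ _)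
        rw [abs_mul, abs_two]
        have h4 : |v.2| ≤ |2 * v.1 - v.2| + |2 * v.1| := by
          have := abs_sub (2 * v.1 - v.2) (2 * v.1)
          rw [show 2 * v.1 - v.2 - 2 * v.1 = -v.2 by ring, abs_neg] at this
          exact this
        rw [abs_mul 2 v.1, abs_two] at h4
        linarith
      · rw [not_lt] at hv3
        refine le_trans ?_ (le_max_right _ _)
        rw [abs_mul, abs_mul, abs_mul, abs_two, abs_of_pos (by positivity : (0:ℝ) < 2 * π)]
        nlinarith [mul_le_mul ha hv3 (by norm_num) (abs_nonneg a),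
          mul_nonneg (abs_nonneg a) (abs_nonneg v.1)]
    have e : {u : TT | |r u| < ρ} =
        {x : TT | |2 * (2 * v.1 - v.2) + 2 * (2 * π * a * v.1) * co x| < 2 * ρ} := by
      ext x
      have e1 : 2 * (2 * v.1 - v.2) + 2 * (2 * π * a * v.1) * co x = 2 * r x := by
        rw [hr]
        simp only [cc_co]
        ring
      rw [Set.mem_ofPred_eq, Set.mem_ofPred_eq, e1, abs_mul, abs_two]
      constructor <;> intro h <;> linarith
    rw [e, ← ENNReal.ofReal_toReal (measure_ne_top volume _)]
    exact ENNReal.ofReal_le_ofReal h2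
  -- the second variable
  have h3 : ∀ u : TT, volume {w : TT | |α * (stp (cc a w) (stp (cc a u) v)).1 +
      β * (stp (cc a w) (stp (cc a u) v)).2| < σ} ≤
      ({u : TT | |r u| < ρ}).indicator (fun _ => 1) u + ENNReal.ofReal (6 * κ) := by
    intro u
    by_cases hu : |r u| < ρ
    · rw [Set.indicator_of_mem (show u ∈ {u : TT | |r u| < ρ} from hu)]
      refine (prob_le_one (μ := volume)).trans ?_
      exact le_self_add
    have hu' : ρ ≤ |r u| := not_lt.1 hu
    rw [Set.indicator_of_notMem (show u ∉ {u : TT | |r u| < ρ} from hu), zero_add]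
    set A := (2 * α + β) * r u - α * v.1 with hA
    set B := 2 * π * a * α * r u with hB
    set μ := δ * ρ ^ 2 / 8 with hμ
    have hμ0 : 0 < μ := by positivity
    have hAB : μ ≤ max |A| |B| := by
      by_cases hα : δ * ρ / 8 ≤ |α|
      · refine le_trans ?_ (le_max_right _ _)
        rw [hB, abs_mul, abs_mul, abs_mul, abs_of_pos (by positivity : (0:ℝ) < 2 * π)]
        have h5 : δ * ρ / 8 * ρ ≤ |α| * |r u| := mul_le_mul hα hu' hρ0.le (abs_nonneg _)
        have h6 : 1 ≤ 2 * π * |a| := by nlinarith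
        calc μ = 1 * (δ * ρ / 8 * ρ) := by rw [hμ]; ring
          _ ≤ (2 * π * |a|) * (|α| * |r u|) :=
            mul_le_mul h6 h5 (by positivity) (by positivity)
          _ = _ := by ring
      · rw [not_le] at hα
        have hβ : δ ≤ |β| := by
          rcases le_max_iff.1 hmin with h | h
          · nlinarith
          · exact h
        refine le_trans ?_ (le_max_left _ _)
        have h5 : |β * r u| ≤ |A| + |2 * α * r u| + |α * v.1| := by
          have e : β * r u = A - 2 * α * r u + α * v.1 := by rw [hA]; ring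
          rw [e]
          exact (abs_add_le _ _).trans (add_le_add (abs_sub _ _) le_rfl)
        rw [abs_mul, abs_mul, abs_mul, abs_two, abs_mul] at h5
        have h6 : (δ * ρ / 8) * |v.1| ≤ δ * ρ / 8 := by nlinarith [mul_pos hδ hρ0]
        have h7 : |α| * |v.1| ≤ δ * ρ / 8 := by
          nlinarith [mul_le_mul_of_nonneg_right hα.le (abs_nonneg v.1)]
        have h8 : 2 * |α| * |r u| ≤ δ * ρ / 4 * |r u| := by
          nlinarith [abs_nonneg (r u)]
        have h9 : δ * |r u| ≤ |β| * |r u| := mul_le_mul_of_nonneg_right hβ (abs_nonneg _)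
        have h10 : δ * ρ / 4 * |r u| ≤ δ / 4 * |r u| := by
          apply mul_le_mul_of_nonneg_right _ (abs_nonneg _)
          nlinarith
        have h11 : δ * ρ ≤ δ * |r u| := mul_le_mul_of_nonneg_left hu' hδ.le
        have h12 : δ * ρ ^ 2 ≤ δ * ρ := by nlinarith [mul_pos hδ hρ0]
        rw [hμ]
        nlinarith
    have h5 : volume.real {x : TT | |A / μ + B / μ * co x| < σ / μ} ≤ 2 * √(σ / μ) := by
      apply sub_level _ (by positivity)
      have q1 : |A / μ| = |A| / μ := by rw [abs_div, abs_of_pos hμ0]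
      have q2 : |B / μ| = |B| / μ := by rw [abs_div, abs_of_pos hμ0]
      rw [q1, q2]
      rcases le_max_iff.1 hAB with h | h
      · exact le_max_of_le_left ((one_le_div hμ0).2 h)
      · exact le_max_of_le_right ((one_le_div hμ0).2 h)
    have e : {w : TT | |α * (stp (cc a w) (stp (cc a u) v)).1 +
        β * (stp (cc a w) (stp (cc a u) v)).2| < σ} =
        {x : TT | |A / μ + B / μ * co x| < σ / μ} := by
      ext w
      have e1 : A / μ + B / μ * co w = (α * (stp (cc a w) (stp (cc a u) v)).1 +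
        β * (stp (cc a w) (stp (cc a u) v)).2) / μ := by
        rw [hA, hB, hr]
        simp only [stp]
        rw [cc_co a w]
        field_simp
        ring
      rw [Set.mem_ofPred_eq, Set.mem_ofPred_eq, e1, abs_div, abs_of_pos hμ0,
        div_lt_div_iff_of_pos_right hμ0]
    rw [e, ← ENNReal.ofReal_toReal (measure_ne_top volume _)]
    apply ENNReal.ofReal_le_ofReal
    refine h5.trans ?_
    have h6 : √(σ / μ) ≤ 3 * κ := by
      apply Real.sqrt_le_iff.2
      refine ⟨by positivity, ?_⟩
      rw [div_le_iff₀ hμ0]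
      have e2 : (3 * κ) ^ 2 * μ = 9 / 8 * (δ * κ ^ 6) := by
        rw [hμ, hρ]; ring
      rw [e2]
      have : 0 ≤ δ * κ ^ 6 := by positivity
      linarith
    linarith
  calc ∫⁻ u : TT, volume {w : TT | |α * (stp (cc a w) (stp (cc a u) v)).1 +
        β * (stp (cc a w) (stp (cc a u) v)).2| < σ}
      ≤ ∫⁻ u : TT, (({u : TT | |r u| < ρ}).indicator (fun _ => 1) u + ENNReal.ofReal (6 * κ)) :=
        lintegral_mono h3
    _ = volume {u : TT | |r u| < ρ} + ENNReal.ofReal (6 * κ) := by
        rw [lintegral_add_right _ measurable_const, lintegral_indicator_const hm, one_mul,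
          lintegral_const, measure_univ, mul_one]
    _ ≤ ENNReal.ofReal (2 * √(2 * ρ)) + ENNReal.ofReal (6 * κ) := add_le_add h1 le_rfl
    _ = ENNReal.ofReal (2 * √(2 * ρ) + 6 * κ) := (ENNReal.ofReal_add (by positivity) (by positivity)).symm
    _ ≤ ENNReal.ofReal (9 * κ) := by
        apply ENNReal.ofReal_le_ofReal
        have h7 : √(2 * ρ) ≤ 3 / 2 * κ := by
          apply Real.sqrt_le_iff.2
          refine ⟨by positivity, ?_⟩
          rw [hρ]
          nlinarith [sq_nonneg κ]
        linarith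

end Pool.Agent.V8H99.RP
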