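import Pool.Agent.V8H99.RP.Seq

set_option autoImplicit false

/-!
# Random perturbations of the standard map: orbits with noise
-/

namespace Pool.Agent.V8H99.RP

open Real MeasureTheory Set Function
open Pool.Agent.TH705.SM (L L_cont phi phi_coe phi_cont T2 S S_mp)
open Pool.Agent.V1152.SMI (cc cc_coe cc_cont cc_le ff ff_cont ff_mean Lper)

/-- one noisy step -/
noncomputable def st (a : ℝ) (ω : TT) (p : T2) : T2 := (phi a (p.1 + ω) - p.2, p.1 + ω)

/-- the orbit -/
noncomputable def orb (a : ℝ) (w : ℕ → TT) : ℕ → T2 → T2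
  | 0, p => p
  | n + 1, p => st a (w n) (orb a w n p)

/-- the traces along the orbit -/
noncomputable def cs (a : ℝ) (w : ℕ → TT) (p : T2) (n : ℕ) : ℝ := cc a (orb a w (n + 1) p).2

theorem shift_mp (ω : TT) : MeasurePreserving (fun p : T2 => (p.1 + ω, p.2)) volume volume := by
  have h1 : MeasurePreserving (fun x : TT => x + ω) volume volume :=
    measurePreserving_add_right volume ω
  exact h1.prod (MeasurePreserving.id _)

theorem st_mp (a : ℝ) (ω : TT) : MeasurePreserving (st a ω) volume volume :=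
  (S_mp a).comp (shift_mp ω)

theorem orb_mp (a : ℝ) (w : ℕ → TT) (n : ℕ) : MeasurePreserving (orb a w n) volume volume := by
  induction n with
  | zero => exact MeasurePreserving.id _
  | succ n ih => exact (st_mp a (w n)).comp ih

theorem orb_add (a : ℝ) (w : ℕ → TT) (m n : ℕ) (p : T2) :
    orb a w (m + n) p = orb a (fun j => w (m + j)) n (orb a w m p) := by
  induction n with
  | zero => rfl
  | succ n ih =>
    show st a (w (m + n)) (orb a w (m + n) p) = st a (w (m + n)) _
    rw [ih]

theorem cs_add (a : ℝ) (w : ℕ → TT) (m : ℕ) (p : T2) :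
    (fun j => cs a w p (m + j)) = cs a (fun j => w (m + j)) (orb a w m p) := by
  funext j
  unfold cs
  rw [show m + j + 1 = m + (j + 1) by ring, orb_add]

/-- two consecutive positions -/
noncomputable def pr (a : ℝ) (w : ℕ → TT) (n : ℕ) (p : T2) : T2 :=
  ((orb a w n p).2, (orb a w n p).1 + w n)

theorem pr_mp (a : ℝ) (w : ℕ → TT) (n : ℕ) : MeasurePreserving (pr a w n) volume volume := by
  have h1 : MeasurePreserving (Prod.swap : T2 → T2)
      ((volume : Measure UnitAddCircle).prod volume) ((volume : Measure UnitAddCircle).prod volume) :=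
    Measure.measurePreserving_swap
  exact (h1.comp (shift_mp (w n))).comp (orb_mp a w n)

theorem pr_snd (a : ℝ) (w : ℕ → TT) (n : ℕ) (p : T2) : cc a (pr a w n p).2 = cs a w p n := rfl

theorem pr_fst (a : ℝ) (w : ℕ → TT) (n : ℕ) (p : T2) :
    cc a (pr a w (n + 1) p).1 = cs a w p n := rfl

theorem pr_next (a : ℝ) (w : ℕ → TT) (n : ℕ) (p : T2) :
    phi a (pr a w n p).2 - (pr a w n p).1 + w (n + 1) = (pr a w (n + 1) p).2 := rfl

theorem pr_prev (a : ℝ) (w : ℕ → TT) (n : ℕ) (p : T2) :
    phi a (pr a w (n + 1) p).1 - (pr a w (n + 1) p).2 + w (n + 1) = (pr a w n p).1 := by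
  have h := pr_next a w n p
  have e : (pr a w (n + 1) p).1 = (pr a w n p).2 := rfl
  rw [← h, e]
  abel

theorem cc_meas (a : ℝ) : Measurable (cc a) := (cc_cont a).measurable

theorem cs_meas (a : ℝ) (w : ℕ → TT) (n : ℕ) : Measurable (fun p => cs a w p n) :=
  (cc_meas a).comp (measurable_snd.comp (orb_mp a w (n + 1)).measurable)

/-- exceptional sets -/
def S1 (a : ℝ) (t : TT) : Set T2 := {q | |cc a q.1| < 2 ∧ |cc a (phi a q.2 - q.1 + t)| < 2}

def S2 (a : ℝ) : Set T2 := {q | |cc a q.1| < 4 ∧ |cc a q.2| < 2}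

def S3 (a : ℝ) : Set T2 :=
  {q | |cc a q.2| < 2 ∧ 4 ≤ |cc a q.1| ∧ |cc a q.2 - (cc a q.1)⁻¹| ≤ 4 / cc a q.1 ^ 2}

def S4 (a : ℝ) (t : TT) : Set T2 :=
  {q | |cc a q.1| < 2 ∧ 4 ≤ |cc a (phi a q.1 - q.2 + t)| ∧
    |cc a q.1 - (cc a (phi a q.1 - q.2 + t))⁻¹| ≤ 6 / (1 + |cc a q.2|)}

theorem meas_abs {X : Type*} [MeasurableSpace X] {f : X → ℝ} (hf : Measurable f) :
    Measurable fun x => |f x| := measurable_norm.comp hf

theorem S1_meas (a : ℝ) (t : TT) : MeasurableSet (S1 a t) := by
  have m1 : Measurable fun q : T2 => cc a q.1 := (cc_meas a).comp measurable_fst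
  have m2 : Measurable fun q : T2 => cc a (phi a q.2 - q.1 + t) := by
    apply Continuous.measurable
    have := phi_cont a
    have := cc_cont a
    fun_prop
  exact (measurableSet_lt (meas_abs m1) measurable_const).inter
    (measurableSet_lt (meas_abs m2) measurable_const)

theorem S2_meas (a : ℝ) : MeasurableSet (S2 a) := by
  have m1 : Measurable fun q : T2 => cc a q.1 := (cc_meas a).comp measurable_fst
  have m2 : Measurable fun q : T2 => cc a q.2 := (cc_meas a).comp measurable_snd
  exact (measurableSet_lt (meas_abs m1) measurable_const).inter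
    (measurableSet_lt (meas_abs m2) measurable_const)

theorem S3_meas (a : ℝ) : MeasurableSet (S3 a) := by
  have m1 : Measurable fun q : T2 => cc a q.1 := (cc_meas a).comp measurable_fst
  have m2 : Measurable fun q : T2 => cc a q.2 := (cc_meas a).comp measurable_snd
  exact (measurableSet_lt (meas_abs m2) measurable_const).inter
    ((measurableSet_le measurable_const (meas_abs m1)).inter
    (measurableSet_le (meas_abs (m2.sub m1.inv)) (measurable_const.div (m1.pow_const 2))))

theorem S4_meas (a : ℝ) (t : TT) : MeasurableSet (S4 a t) := by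
  have m1 : Measurable fun q : T2 => cc a q.1 := (cc_meas a).comp measurable_fst
  have m2 : Measurable fun q : T2 => cc a q.2 := (cc_meas a).comp measurable_snd
  have m3 : Measurable fun q : T2 => cc a (phi a q.1 - q.2 + t) := by
    apply Continuous.measurable
    have := phi_cont a
    have := cc_cont a
    fun_prop
  exact (measurableSet_lt (meas_abs m1) measurable_const).inter
    ((measurableSet_le measurable_const (meas_abs m3)).inter
    (measurableSet_le (meas_abs (m1.sub m3.inv))
      (measurable_const.div (measurable_const.add (meas_abs m2)))))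

theorem vol_sec {Q : Set T2} (hQ : MeasurableSet Q) {g : TT → ℝ} (hg : Integrable g volume)
    (hg0 : ∀ x, 0 ≤ g x) (h : ∀ x, volume.real {y | (x, y) ∈ Q} ≤ g x) :
    volume.real Q ≤ ∫ x, g x := by
  unfold Measure.real
  apply ENNReal.toReal_le_of_le_ofReal (integral_nonneg hg0)
  rw [ofReal_integral_eq_lintegral_ofReal hg (Filter.Eventually.of_forall hg0)]
  have e : (volume : Measure T2) Q = ∫⁻ x : TT, volume (Prod.mk x ⁻¹' Q) :=
    Measure.prod_apply hQ
  rw [e]
  apply lintegral_mono
  intro x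
  show volume (Prod.mk x ⁻¹' Q) ≤ ENNReal.ofReal (g x)
  rw [← ENNReal.ofReal_toReal (measure_ne_top volume (Prod.mk x ⁻¹' Q))]
  exact ENNReal.ofReal_le_ofReal (h x)

theorem vol_sec' {Q : Set T2} (hQ : MeasurableSet Q) {g : TT → ℝ} (hg : Integrable g volume)
    (hg0 : ∀ x, 0 ≤ g x) (h : ∀ y, volume.real {x | (x, y) ∈ Q} ≤ g y) :
    volume.real Q ≤ ∫ x, g x := by
  unfold Measure.real
  apply ENNReal.toReal_le_of_le_ofReal (integral_nonneg hg0)
  rw [ofReal_integral_eq_lintegral_ofReal hg (Filter.Eventually.of_forall hg0)]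
  have e : (volume : Measure T2) Q = ∫⁻ y : TT, volume ((fun x => (x, y)) ⁻¹' Q) :=
    Measure.prod_apply_symm hQ
  rw [e]
  apply lintegral_mono
  intro y
  show volume ((fun x => (x, y)) ⁻¹' Q) ≤ ENNReal.ofReal (g y)
  rw [← ENNReal.ofReal_toReal (measure_ne_top volume ((fun x => (x, y)) ⁻¹' Q))]
  exact ENNReal.ofReal_le_ofReal (h y)

/-- the logarithmic factor -/
noncomputable def ll (a : ℝ) : ℝ := 1 + log |a|

theorem ll_one {a : ℝ} (ha : 16 ≤ |a|) : 1 ≤ ll a := by
  unfold ll
  linarith [Real.log_nonneg (by linarith : 1 ≤ |a|)]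

theorem small_meas (a s : ℝ) : MeasurableSet {x : TT | |cc a x| < s} :=
  measurableSet_lt (meas_abs (cc_meas a)) measurable_const

theorem vol_S1 {a : ℝ} (ha : 16 ≤ |a|) (t : TT) : volume.real (S1 a t) ≤ 140 * ll a / |a| ^ 2 := by
  have ha0 : 0 < |a| := by linarith
  have hl := ll_one ha
  have hW := wt_int ha
  have hW0 : 0 ≤ ∫ x, wt a x := integral_nonneg (wt_nonneg a)
  set g : TT → ℝ := ({x : TT | |cc a x| < 2}).indicator (fun _ => 70 * ∫ x, wt a x) with hg
  have hgi : Integrable g volume := (integrable_const _).indicator (small_meas a 2)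
  have h := vol_sec (S1_meas a t) hgi ?_ ?_
  · refine h.trans ?_
    rw [hg, integral_indicator_const _ (small_meas a 2), smul_eq_mul]
    have h1 := vol_small (a := a) (s := 2) (by linarith) (by norm_num)
    calc volume.real {x : TT | |cc a x| < 2} * (70 * ∫ x, wt a x)
        ≤ ((2 + 2) / (6 * |a|)) * (70 * (3 * (1 + log |a|) / |a|)) := by
          apply mul_le_mul h1 _ (by positivity) (by positivity)
          linarith
      _ = 140 * ll a / |a| ^ 2 := by unfold ll; field_simp; ring
  · intro x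
    exact Set.indicator_nonneg (fun _ _ => by positivity) x
  · intro x
    by_cases hx : |cc a x| < 2
    · rw [hg, Set.indicator_of_mem (show x ∈ {x : TT | |cc a x| < 2} from hx)]
      refine le_trans (measureReal_mono ?_ (measure_ne_top _ _)) (vol_two ha (-x + t))
      rintro y ⟨-, hy⟩
      show |cc a (phi a y + (-x + t))| < 2
      have e : phi a y + (-x + t) = phi a y - x + t := by abel
      rw [e]
      exact hy
    · rw [hg, Set.indicator_of_notMem (show x ∉ {x : TT | |cc a x| < 2} from hx)]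
      have e : {y | (x, y) ∈ S1 a t} = ∅ := by
        rw [Set.eq_empty_iff_forall_notMem]
        rintro y ⟨hy, -⟩
        exact hx hy
      rw [e]
      simp

theorem vol_S2 {a : ℝ} (ha : 16 ≤ |a|) : volume.real (S2 a) ≤ ll a / |a| ^ 2 := by
  have ha0 : 0 < |a| := by linarith
  have hl := ll_one ha
  have e : S2 a = {x : TT | |cc a x| < 4} ×ˢ {x : TT | |cc a x| < 2} := by
    ext q
    rfl
  have e2 : (volume : Measure T2) = (volume : Measure TT).prod (volume : Measure TT) := rfl
  rw [e, e2, measureReal_prod_prod]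
  have h1 := vol_small (a := a) (s := 2) (by linarith) (by norm_num)
  have h2 := vol_small (a := a) (s := 4) (by linarith) (by norm_num)
  calc volume.real {x : TT | |cc a x| < 4} * volume.real {x : TT | |cc a x| < 2}
      ≤ ((4 + 2) / (6 * |a|)) * ((2 + 2) / (6 * |a|)) :=
        mul_le_mul h2 h1 (by positivity) (by positivity)
    _ = (2 / 3) / |a| ^ 2 := by field_simp; norm_num
    _ ≤ ll a / |a| ^ 2 := by
        apply div_le_div_of_nonneg_right _ (by positivity)
        linarith

theorem vol_S3 {a : ℝ} (ha : 16 ≤ |a|) : volume.real (S3 a) ≤ 6 * ll a / |a| ^ 2 := by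
  have ha0 : 0 < |a| := by linarith
  have hl := ll_one ha
  have hW := wt_int ha
  have h := vol_sec (S3_meas a) (g := fun x => 2 / |a| * wt a x)
    (cont_int (continuous_const.mul (wt_cont a))) ?_ ?_
  · refine h.trans ?_
    rw [integral_const_mul]
    calc 2 / |a| * ∫ x, wt a x ≤ 2 / |a| * (3 * (1 + log |a|) / |a|) :=
          mul_le_mul_of_nonneg_left hW (by positivity)
      _ = 6 * ll a / |a| ^ 2 := by unfold ll; field_simp; ring
  · intro x
    have := wt_nonneg a x
    show 0 ≤ 2 / |a| * wt a x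
    positivity
  · intro x
    by_cases hx : 4 ≤ |cc a x|
    · have h1 := vol_target (z := (cc a x)⁻¹) ha (η := 4 / cc a x ^ 2) (by positivity)
      refine le_trans (measureReal_mono ?_ (measure_ne_top _ _)) (h1.trans ?_)
      · rintro y ⟨h2, -, h3⟩
        have h2' : |cc a y| < 2 := h2
        exact ⟨by linarith, h3⟩
      · unfold wt
        rw [← sq_abs (cc a x)]
        set u := |cc a x| with hu
        have hu0 : 0 < u := by linarith
        rw [div_div, div_mul_div_comm, mul_one, div_le_div_iff₀ (by positivity) (by positivity)]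
        nlinarith [mul_pos ha0 hu0, mul_nonneg (mul_nonneg ha0.le hu0.le)
          (by linarith : (0:ℝ) ≤ u - 4)]
    · have e : {y | (x, y) ∈ S3 a} = ∅ := by
        rw [Set.eq_empty_iff_forall_notMem]
        rintro y ⟨-, hy, -⟩
        exact hx hy
      rw [e]
      have := wt_nonneg a x
      simp only [measureReal_empty]
      positivity

theorem vol_S4 {a : ℝ} (ha : 16 ≤ |a|) (t : TT) : volume.real (S4 a t) ≤ 18 * ll a / |a| ^ 2 := by
  have ha0 : 0 < |a| := by linarith
  have hl := ll_one ha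
  have hW := wt_int ha
  have h := vol_sec' (S4_meas a t) (g := fun x => 6 / |a| * wt a x)
    (cont_int (continuous_const.mul (wt_cont a))) ?_ ?_
  · refine h.trans ?_
    rw [integral_const_mul]
    calc 6 / |a| * ∫ x, wt a x ≤ 6 / |a| * (3 * (1 + log |a|) / |a|) :=
          mul_le_mul_of_nonneg_left hW (by positivity)
      _ = 18 * ll a / |a| ^ 2 := by unfold ll; field_simp; ring
  · intro x
    have := wt_nonneg a x
    show 0 ≤ 6 / |a| * wt a x
    positivity
  · intro y
    have h1 := vol_match ha (ρ := 6 / (1 + |cc a y|)) (by positivity) (-y + t)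
    refine le_trans (measureReal_mono ?_ (measure_ne_top _ _)) (h1.trans (le_of_eq ?_))
    · rintro x ⟨h2, h3, h4⟩
      have e : phi a x - y + t = phi a x + (-y + t) := by abel
      simp only [e] at h3 h4
      exact ⟨h2.le, h3, h4⟩
    · unfold wt
      field_simp

theorem Ev_sub (a : ℝ) (w : ℕ → TT) (j : ℕ) : {p : T2 | Ev (cs a w p) j} ⊆
    (pr a w (j + 1) ⁻¹' (S2 a)) ∪ ((pr a w j ⁻¹' (S1 a (w (j + 1)))) ∪
      ((pr a w (j + 1) ⁻¹' (S3 a)) ∪ (pr a w (j + 2) ⁻¹' (S4 a (w (j + 2)))))) := by
  rintro p ⟨h0, h1 | ⟨i, rfl, h1⟩ | h1 | h1⟩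
  · exact Or.inl ⟨h1, h0⟩
  · refine Or.inr (Or.inl ⟨h1, ?_⟩)
    rw [pr_next]
    exact h0
  · exact Or.inr (Or.inr (Or.inl ⟨h0, h1.1, h1.2⟩))
  · refine Or.inr (Or.inr (Or.inr ⟨h0, ?_⟩))
    have e := pr_prev a w (j + 1) p
    show 4 ≤ |cc a (phi a (pr a w (j + 2) p).1 - (pr a w (j + 2) p).2 + w (j + 2))| ∧
      |cc a (pr a w (j + 2) p).1 - (cc a (phi a (pr a w (j + 2) p).1 - (pr a w (j + 2) p).2 +
        w (j + 2)))⁻¹| ≤ 6 / (1 + |cc a (pr a w (j + 2) p).2|)
    have e' : phi a (pr a w (j + 2) p).1 - (pr a w (j + 2) p).2 + w (j + 2) = (pr a w (j + 1) p).1 := e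
    rw [e']
    exact h1

theorem Ev_meas (a : ℝ) (w : ℕ → TT) (j : ℕ) : MeasurableSet {p : T2 | Ev (cs a w p) j} := by
  have m := cs_meas a w
  unfold Ev
  refine (measurableSet_lt (meas_abs (m (j + 1))) measurable_const).inter ?_
  refine (measurableSet_lt (meas_abs (m j)) measurable_const).union ?_
  refine MeasurableSet.union ?_ (MeasurableSet.union ?_ ?_)
  · rcases Nat.eq_zero_or_pos j with h | h
    · have e : {p : T2 | ∃ i, j = i + 1 ∧ |cs a w p i| < 2} = ∅ := by
        rw [Set.eq_empty_iff_forall_notMem]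
        rintro p ⟨i, hi, -⟩
        omega
      show MeasurableSet {p : T2 | ∃ i, j = i + 1 ∧ |cs a w p i| < 2}
      rw [e]
      exact MeasurableSet.empty
    · have e : {p : T2 | ∃ i, j = i + 1 ∧ |cs a w p i| < 2} = {p : T2 | |cs a w p (j - 1)| < 2} := by
        ext p
        constructor
        · rintro ⟨i, hi, h2⟩
          have : i = j - 1 := by omega
          rwa [this] at h2
        · intro h2
          exact ⟨j - 1, by omega, h2⟩
      show MeasurableSet {p : T2 | ∃ i, j = i + 1 ∧ |cs a w p i| < 2}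
      rw [e]
      exact measurableSet_lt (meas_abs (m (j - 1))) measurable_const
  · exact (measurableSet_le measurable_const (meas_abs (m j))).inter
      (measurableSet_le (meas_abs ((m (j + 1)).sub (m j).inv))
        (measurable_const.div ((m j).pow_const 2)))
  · exact (measurableSet_le measurable_const (meas_abs (m j))).inter
      (measurableSet_le (meas_abs ((m (j + 1)).sub (m j).inv))
        (measurable_const.div (measurable_const.add (meas_abs (m (j + 2))))))

theorem real_pre {f : T2 → T2} (hf : MeasurePreserving f volume volume) {Q : Set T2}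
    (hQ : MeasurableSet Q) : volume.real (f ⁻¹' Q) = volume.real Q := by
  unfold Measure.real
  rw [hf.measure_preimage hQ.nullMeasurableSet]

theorem vol_Ev {a : ℝ} (ha : 16 ≤ |a|) (w : ℕ → TT) (j : ℕ) :
    volume.real {p : T2 | Ev (cs a w p) j} ≤ 165 * ll a / |a| ^ 2 := by
  refine (measureReal_mono (Ev_sub a w j) (measure_ne_top _ _)).trans ?_
  refine (measureReal_union_le _ _).trans ?_
  have h1 := real_pre (pr_mp a w (j + 1)) (S2_meas a)
  have h2 := real_pre (pr_mp a w j) (S1_meas a (w (j + 1)))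
  have h3 := real_pre (pr_mp a w (j + 1)) (S3_meas a)
  have h4 := real_pre (pr_mp a w (j + 2)) (S4_meas a (w (j + 2)))
  have h5 := measureReal_union_le (μ := (volume : Measure T2)) (pr a w j ⁻¹' (S1 a (w (j + 1))))
      ((pr a w (j + 1) ⁻¹' (S3 a)) ∪ (pr a w (j + 2) ⁻¹' (S4 a (w (j + 2)))))
  have h6 := measureReal_union_le (μ := (volume : Measure T2)) (pr a w (j + 1) ⁻¹' (S3 a))
    (pr a w (j + 2) ⁻¹' (S4 a (w (j + 2))))
  rw [h1]
  rw [h2] at h5
  rw [h3, h4] at h6
  have v1 := vol_S1 ha (w (j + 1))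
  have v2 := vol_S2 ha
  have v3 := vol_S3 ha
  have v4 := vol_S4 ha (w (j + 2))
  have e : 165 * ll a / |a| ^ 2 = ll a / |a| ^ 2 + (140 * ll a / |a| ^ 2 +
    (6 * ll a / |a| ^ 2 + 18 * ll a / |a| ^ 2)) := by ring
  rw [e]
  linarith

end Pool.Agent.V8H99.RP
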