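import Pool.Agent.V8H99.RP.Main

set_option autoImplicit false

/-!
# Random perturbations of the standard map: the plane
-/

namespace Pool.Agent.V8H99.RP

open Real MeasureTheory Set Function
open Pool.Agent.TH705.SM (L L_cont phi phi_coe phi_cont T2 S S_mp int_T2)
open Pool.Agent.V1152.SMI (cc cc_coe cc_cont cc_le ff ff_cont ff_mean Lper)

/-- the standard map of the plane -/
noncomputable def planeMap (a : ℝ) (p : ℝ × ℝ) : ℝ × ℝ :=
  (2 * p.1 - p.2 + a * sin (2 * π * p.1), p.1)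

/-- the composition of the maps `(x, y) ↦ planeMap a (x + w k, y)`, `k = 0, ..., n - 1` -/
noncomputable def noisy (a : ℝ) : (n : ℕ) → (Fin n → ℝ) → ℝ × ℝ → ℝ × ℝ
  | 0, _, p => p
  | n + 1, w, p => planeMap a ((noisy a n (fun i => w i.castSucc) p).1 + w (Fin.last n),
      (noisy a n (fun i => w i.castSucc) p).2)

/-- the derivative of one step -/
noncomputable def dst (c : ℝ) : ℝ × ℝ →L[ℝ] ℝ × ℝ :=
  (c • ContinuousLinearMap.fst ℝ ℝ ℝ - ContinuousLinearMap.snd ℝ ℝ ℝ).prod
    (ContinuousLinearMap.fst ℝ ℝ ℝ)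

theorem dst_apply (c : ℝ) (v : ℝ × ℝ) : dst c v = stp c v := by
  unfold dst stp
  simp

theorem step_deriv (a ω : ℝ) (q : ℝ × ℝ) :
    HasFDerivAt (fun p : ℝ × ℝ => planeMap a (p.1 + ω, p.2)) (dst (L a (q.1 + ω))) q := by
  have h1 : HasFDerivAt (fun p : ℝ × ℝ => p.1 + ω) (ContinuousLinearMap.fst ℝ ℝ ℝ) q :=
    hasFDerivAt_fst.add_const ω
  have h2 : HasFDerivAt (fun p : ℝ × ℝ => p.2) (ContinuousLinearMap.snd ℝ ℝ ℝ) q := hasFDerivAt_snd
  have h3 := ((h1.const_mul 2).sub h2).add (((h1.const_mul (2 * π)).sin).const_mul a)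
  have h4 := h3.prodMk h1
  refine h4.congr_fderiv ?_
  apply ContinuousLinearMap.ext
  intro v
  unfold dst L
  simp
  ring

theorem noisy_diff (a : ℝ) : ∀ (n : ℕ) (w : Fin n → ℝ) (p : ℝ × ℝ),
    DifferentiableAt ℝ (noisy a n w) p := by
  intro n
  induction n with
  | zero =>
    intro w p
    exact differentiableAt_id
  | succ n ih =>
    intro w p
    exact (step_deriv a (w (Fin.last n)) (noisy a n (fun i => w i.castSucc) p)).differentiableAt.comp
      p (ih _ p)

theorem noisy_fderiv (a : ℝ) (n : ℕ) (w : Fin (n + 1) → ℝ) (p : ℝ × ℝ) :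
    fderiv ℝ (noisy a (n + 1) w) p =
      (dst (L a ((noisy a n (fun i => w i.castSucc) p).1 + w (Fin.last n)))).comp
        (fderiv ℝ (noisy a n (fun i => w i.castSucc)) p) := by
  have h := (step_deriv a (w (Fin.last n)) (noisy a n (fun i => w i.castSucc) p)).comp p
    (noisy_diff a n (fun i => w i.castSucc) p).hasFDerivAt
  exact h.fderiv

theorem ext_cast {n : ℕ} (w : Fin (n + 1) → ℝ) {j : ℕ} (hj : j < n) :
    ext (fun i : Fin n => w i.castSucc) j = ext w j := by
  unfold ext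
  rw [dif_pos hj, dif_pos (by omega)]
  rfl

theorem ext_last {n : ℕ} (w : Fin (n + 1) → ℝ) : ext w n = ((w (Fin.last n) : ℝ) : TT) := by
  unfold ext
  rw [dif_pos (by omega)]
  rfl

theorem noisy_orb (a : ℝ) : ∀ (n : ℕ) (w : Fin n → ℝ) (x y : ℝ),
    (((noisy a n w (x, y)).1 : TT), ((noisy a n w (x, y)).2 : TT)) =
      orb a (ext w) n ((x : TT), (y : TT)) := by
  intro n
  induction n with
  | zero => intro w x y; rfl
  | succ n ih =>
    intro w x y
    have h := ih (fun i => w i.castSucc) x y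
    have h2 : orb a (ext fun i : Fin n => w i.castSucc) n ((x : TT), (y : TT)) =
        orb a (ext w) n ((x : TT), (y : TT)) := orb_congr a (fun j hj => ext_cast w hj) _
    rw [h2] at h
    set q := noisy a n (fun i => w i.castSucc) (x, y) with hq
    show (((planeMap a (q.1 + w (Fin.last n), q.2)).1 : TT),
      ((planeMap a (q.1 + w (Fin.last n), q.2)).2 : TT)) =
      st a (ext w n) (orb a (ext w) n ((x : TT), (y : TT)))
    rw [← h, ext_last]
    unfold planeMap st
    have e : ((q.1 : TT) + ((w (Fin.last n) : ℝ) : TT)) = (((q.1 + w (Fin.last n)) : ℝ) : TT) :=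
      (AddCircle.coe_add 1 _ _).symm
    simp only [e]
    rw [phi_coe]
    ext
    · show (((2 * (q.1 + w (Fin.last n)) - q.2 + a * sin (2 * π * (q.1 + w (Fin.last n))) : ℝ)) : TT) =
        (((2 * (q.1 + w (Fin.last n)) + a * sin (2 * π * (q.1 + w (Fin.last n))) : ℝ)) : TT) -
          ((q.2 : ℝ) : TT)
      rw [← AddCircle.coe_sub]
      congr 1
      ring
    · rfl

theorem noisy_vec (a : ℝ) : ∀ (n : ℕ) (w : Fin n → ℝ) (x y : ℝ) (v : ℝ × ℝ),
    fderiv ℝ (noisy a n w) (x, y) v = vec (cs a (ext w) ((x : TT), (y : TT))) v n := by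
  intro n
  induction n with
  | zero =>
    intro w x y v
    have : fderiv ℝ (noisy a 0 w) (x, y) = ContinuousLinearMap.id ℝ (ℝ × ℝ) := fderiv_id
    rw [this]
    rfl
  | succ n ih =>
    intro w x y v
    rw [noisy_fderiv, ContinuousLinearMap.comp_apply, ih, dst_apply]
    have h1 : vec (cs a (ext fun i : Fin n => w i.castSucc) ((x : TT), (y : TT))) v n =
        vec (cs a (ext w) ((x : TT), (y : TT))) v n :=
      vec_congr (fun j hj => cs_congr a (fun i hi => ext_cast w hi) _ hj) v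
    rw [h1]
    show _ = stp (cs a (ext w) ((x : TT), (y : TT)) n) _
    have h2 : L a ((noisy a n (fun i => w i.castSucc) (x, y)).1 + w (Fin.last n)) =
        cs a (ext w) ((x : TT), (y : TT)) n := by
      rw [← cc_coe]
      unfold cs
      have h3 := noisy_orb a n (fun i => w i.castSucc) x y
      have h4 : orb a (ext fun i : Fin n => w i.castSucc) n ((x : TT), (y : TT)) =
          orb a (ext w) n ((x : TT), (y : TT)) := orb_congr a (fun j hj => ext_cast w hj) _
      rw [h4] at h3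
      show _ = cc a ((orb a (ext w) n ((x : TT), (y : TT))).1 + ext w n)
      rw [← h3, ext_last, AddCircle.coe_add]
    rw [h2]

theorem op_norm (A : ℝ × ℝ →L[ℝ] ℝ × ℝ) : ‖A‖ =
    max (|(A (1, 0)).1| + |(A (0, 1)).1|) (|(A (1, 0)).2| + |(A (0, 1)).2|) := by
  have lin : ∀ s t : ℝ, A (s, t) = s • A (1, 0) + t • A (0, 1) := by
    intro s t
    rw [← map_smul, ← map_smul, ← map_add]
    congr 1
    simp
  set x := A (1, 0) with hx
  set y := A (0, 1) with hy
  apply le_antisymm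
  · apply ContinuousLinearMap.opNorm_le_bound
    · positivity
    · rintro ⟨s, t⟩
      rw [lin]
      have hs : |s| ≤ ‖((s, t) : ℝ × ℝ)‖ := norm_fst_le (s, t)
      have ht : |t| ≤ ‖((s, t) : ℝ × ℝ)‖ := norm_snd_le (s, t)
      set ρ := ‖((s, t) : ℝ × ℝ)‖ with hρ
      have hρ0 : 0 ≤ ρ := norm_nonneg _
      have b : ∀ u w : ℝ, |s * u + t * w| ≤ (|u| + |w|) * ρ := by
        intro u w
        refine (abs_add_le _ _).trans ?_
        rw [abs_mul, abs_mul]
        nlinarith [mul_le_mul_of_nonneg_right hs (abs_nonneg u),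
          mul_le_mul_of_nonneg_right ht (abs_nonneg w)]
      rw [Prod.norm_def]
      apply max_le
      · exact (b x.1 y.1).trans (mul_le_mul_of_nonneg_right (le_max_left _ _) hρ0)
      · exact (b x.2 y.2).trans (mul_le_mul_of_nonneg_right (le_max_right _ _) hρ0)
  · have key : ∀ u w : ℝ, ∃ s t : ℝ, |s| ≤ 1 ∧ |t| ≤ 1 ∧ s * u + t * w = |u| + |w| := by
      intro u w
      have one : ∀ u : ℝ, ∃ s : ℝ, |s| ≤ 1 ∧ s * u = |u| := by
        intro u
        rcases le_total 0 u with h | h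
        · exact ⟨1, by simp, by rw [one_mul, abs_of_nonneg h]⟩
        · exact ⟨-1, by simp, by rw [abs_of_nonpos h]; ring⟩
      obtain ⟨s, hs, hs2⟩ := one u
      obtain ⟨t, ht, ht2⟩ := one w
      exact ⟨s, t, hs, ht, by rw [hs2, ht2]⟩
    have nb : ∀ s t : ℝ, |s| ≤ 1 → |t| ≤ 1 → ‖A (s, t)‖ ≤ ‖A‖ := by
      intro s t hs ht
      have h1 := A.le_opNorm (s, t)
      have h2 : ‖((s, t) : ℝ × ℝ)‖ ≤ 1 := by
        rw [Prod.norm_def]
        exact max_le hs ht
      exact h1.trans (mul_le_of_le_one_right (norm_nonneg A) h2)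
    apply max_le
    · obtain ⟨s, t, hs, ht, h⟩ := key x.1 y.1
      rw [← h]
      refine le_trans (le_abs_self _) (le_trans ?_ (nb s t hs ht))
      rw [lin]
      exact norm_fst_le (s • x + t • y)
    · obtain ⟨s, t, hs, ht, h⟩ := key x.2 y.2
      rw [← h]
      refine le_trans (le_abs_self _) (le_trans ?_ (nb s t hs ht))
      rw [lin]
      exact norm_snd_le (s • x + t • y)

theorem noisy_LO (a : ℝ) (n : ℕ) (w : Fin n → ℝ) (x y : ℝ) :
    log ‖fderiv ℝ (noisy a n w) (x, y)‖ = LO a (ext w) n ((x : TT), (y : TT)) := by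
  rw [op_norm, noisy_vec, noisy_vec]
  rfl

theorem noisy_square {a : ℝ} (ha : 16 ≤ |a|) (n : ℕ) (w : Fin n → ℝ) :
    ∫ y in (0:ℝ)..1, ∫ x in (0:ℝ)..1, log ‖fderiv ℝ (noisy a n w) (x, y)‖ =
      ∫ p : T2, LO a (ext w) n p := by
  rw [int_T2 _ (LO_int ha (ext w) n)]
  simp_rw [noisy_LO]

/-- the mean exponent in the plane -/
theorem noisy_B {a : ℝ} (ha : 16 ≤ |a|) (ν : Measure ℝ) (n : ℕ) :
    ∫ w : Fin n → ℝ, (∫ y in (0:ℝ)..1, ∫ x in (0:ℝ)..1, log ‖fderiv ℝ (noisy a n w) (x, y)‖)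
      ∂(Measure.pi fun _ => ν) = B a ν n := by
  unfold B
  simp_rw [noisy_square ha]

end Pool.Agent.V8H99.RP
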