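import Pool.Agent.V8H99.RP.Orb

set_option autoImplicit false

/-!
# Random perturbations of the standard map: the noise regularizes the direction
-/

namespace Pool.Agent.V8H99.RP

open Real MeasureTheory Set Function
open Pool.Agent.TH705.SM (L L_cont phi phi_coe phi_cont T2 S S_mp)
open Pool.Agent.V1152.SMI (cc cc_coe cc_cont cc_le ff ff_cont ff_mean Lper)

theorem noise {ν : Measure ℝ} {M : ENNReal}
    (hν : ν ≤ M • volume.restrict (Icc (-1 / 2 : ℝ) (1 / 2))) {h : TT → ENNReal}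
    (hh : Measurable h) (z : TT) :
    ∫⁻ x, h (z + (x : TT)) ∂ν ≤ M * ∫⁻ u : TT, h u := by
  have h1 : ∫⁻ x, h (z + (x : TT)) ∂ν ≤
      ∫⁻ x, h (z + (x : TT)) ∂(M • volume.restrict (Icc (-1 / 2 : ℝ) (1 / 2))) :=
    lintegral_mono' hν le_rfl
  refine h1.trans (le_of_eq ?_)
  rw [lintegral_smul_measure, smul_eq_mul]
  congr 1
  have e1 : (volume.restrict (Icc (-1 / 2 : ℝ) (1 / 2)) : Measure ℝ) =
      volume.restrict (Ioc (-1 / 2 : ℝ) (-1 / 2 + 1)) := by
    have e0 : (-1 / 2 + 1 : ℝ) = 1 / 2 := by norm_num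
    rw [e0]
    exact (Measure.restrict_congr_set Ioc_ae_eq_Icc).symm
  rw [e1]
  have h2 := (UnitAddCircle.measurePreserving_mk (-1 / 2)).lintegral_comp
    (f := fun u : TT => h (z + u)) (hh.comp (measurable_const.add measurable_id))
  have h3 : ∫⁻ x in Ioc (-1 / 2 : ℝ) (-1 / 2 + 1), h (z + (x : TT)) = ∫⁻ u : TT, h (z + u) := h2
  rw [h3]
  exact lintegral_add_left_eq_self h z

theorem stp_smul (c s : ℝ) (v : ℝ × ℝ) : stp c (s • v) = s • stp c v := by
  unfold stp
  ext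
  · simp only [Prod.smul_fst, Prod.smul_snd, smul_eq_mul]; ring
  · simp

theorem stp_meas {X : Type*} [MeasurableSpace X] {c : X → ℝ} {v : X → ℝ × ℝ}
    (hc : Measurable c) (hv : Measurable v) : Measurable fun x => stp (c x) (v x) := by
  unfold stp
  exact ((hc.mul (measurable_fst.comp hv)).sub (measurable_snd.comp hv)).prodMk
    (measurable_fst.comp hv)

/-- four steps of the vector -/
noncomputable def v4 (a : ℝ) (v : ℝ × ℝ) (q r : T2) : ℝ × ℝ :=
  stp (cc a r.2) (stp (cc a r.1) (stp (cc a q.2) (stp (cc a q.1) v)))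

theorem v4_meas (a : ℝ) (v : ℝ × ℝ) {X : Type*} [MeasurableSpace X] {q r : X → T2}
    (hq : Measurable q) (hr : Measurable r) : Measurable fun x => v4 a v (q x) (r x) := by
  have h := cc_meas a
  unfold v4
  exact stp_meas (h.comp (measurable_snd.comp hr)) (stp_meas (h.comp (measurable_fst.comp hr))
    (stp_meas (h.comp (measurable_snd.comp hq)) (stp_meas (h.comp (measurable_fst.comp hq))
    measurable_const)))

/-- the bad directions -/
def BadSet (a τ : ℝ) (v : ℝ × ℝ) (K : T2 → ℝ) : Set (T2 × T2) :=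
  {x | |(v4 a v x.1 x.2).1 + K (phi a x.2.2 - x.2.1, x.2.2) * (v4 a v x.1 x.2).2| <
    τ * ‖v4 a v x.1 x.2‖}

theorem BadSet_meas (a τ : ℝ) (v : ℝ × ℝ) {K : T2 → ℝ} (hK : Measurable K) :
    MeasurableSet (BadSet a τ v K) := by
  have h1 : Measurable fun x : T2 × T2 => v4 a v x.1 x.2 := v4_meas a v measurable_fst measurable_snd
  have h2 : Measurable fun x : T2 × T2 => K (phi a x.2.2 - x.2.1, x.2.2) := by
    apply hK.comp
    apply Continuous.measurable
    have := phi_cont a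
    fun_prop
  exact measurableSet_lt (meas_abs ((measurable_fst.comp h1).add (h2.mul (measurable_snd.comp h1))))
    ((measurable_norm.comp h1).const_mul τ)

theorem cc_lam {a : ℝ} (ha : 16 ≤ |a|) (x : TT) : |cc a x| + 1 ≤ 7 * |a| := by
  have h := cc_le a x
  have := Real.pi_lt_d2
  nlinarith

theorem bad_unit {a κ : ℝ} {v : ℝ × ℝ} {K : T2 → ℝ} (ha : 16 ≤ |a|) (hK : Measurable K)
    (hκ0 : 0 < κ) (hκ1 : κ ≤ 1) (hv : ‖v‖ = 1) :
    ∫⁻ q : T2, ∫⁻ r : T2, (BadSet a (κ ^ 6 / (2 * (7 * |a|) ^ 5)) v K).indicator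
      (fun _ => (1 : ENNReal)) (q, r) ≤ ENNReal.ofReal (9 * κ) := by
  have ha0 : 0 < |a| := by linarith
  set τ := κ ^ 6 / (2 * (7 * |a|) ^ 5) with hτ
  set Λ := 7 * |a| with hΛ
  have hΛ0 : 0 < Λ := by positivity
  have hτ0 : 0 ≤ τ := by positivity
  have hm := BadSet_meas a τ v hK
  rw [lintegral_lintegral_swap (f := fun q r : T2 => (BadSet a τ v K).indicator
    (fun _ => (1 : ENNReal)) (q, r)) ((measurable_const.indicator hm).aemeasurable)]
  have h1 : ∀ r : T2, ∫⁻ q : T2, (BadSet a τ v K).indicator (fun _ => (1 : ENNReal)) (q, r) ≤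
      ENNReal.ofReal (9 * κ) := by
    intro r
    set k := K (phi a r.2 - r.1, r.2) with hk
    set c3 := cc a r.1 with hc3
    set c4 := cc a r.2 with hc4
    have b3 : |c3| + 1 ≤ Λ := cc_lam ha _
    have b4 : |c4| + 1 ≤ Λ := cc_lam ha _
    have hαβ : 1 / (2 * Λ) ≤ max |c4 * c3 - 1 + k * c3| |-c4 - k| := by
      by_cases h : 1 / (2 * Λ) ≤ |-c4 - k|
      · exact le_max_of_le_right h
      · rw [not_le] at h
        refine le_max_of_le_left ?_
        have e : c4 * c3 - 1 + k * c3 = -((-c4 - k) * c3) - 1 := by ring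
        have h2 : |(-c4 - k) * c3| ≤ 1 / 2 := by
          rw [abs_mul]
          calc |-c4 - k| * |c3| ≤ 1 / (2 * Λ) * Λ :=
                mul_le_mul h.le (by linarith) (abs_nonneg _) (by positivity)
            _ = 1 / 2 := by field_simp
        have h3 : 1 ≤ |c4 * c3 - 1 + k * c3| + |(-c4 - k) * c3| := by
          rw [e]
          have := abs_add_le (-((-c4 - k) * c3) - 1) ((-c4 - k) * c3)
          rw [show -((-c4 - k) * c3) - 1 + (-c4 - k) * c3 = -1 by ring, abs_neg, abs_one] at this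
          exact this
        have h4 : 1 / (2 * Λ) ≤ 1 / 2 := by
          apply div_le_div_of_nonneg_left (by norm_num) (by norm_num)
          linarith [abs_nonneg c3]
        linarith
    have h2 := two_level (a := a) (κ := κ) (v := v) (σ := τ * Λ ^ 4) (by linarith)
      (by positivity : (0:ℝ) < 1 / (2 * Λ)) hκ0 hκ1 (le_of_eq (by
        rw [hτ]; field_simp)) (by positivity) hv hαβ
    refine le_trans ?_ h2
    have hsec : MeasurableSet {q : T2 | (q, r) ∈ BadSet a τ v K} :=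
      hm.preimage (measurable_id.prodMk measurable_const)
    have e : ∫⁻ q : T2, (BadSet a τ v K).indicator (fun _ => (1 : ENNReal)) (q, r) =
        volume {q : T2 | (q, r) ∈ BadSet a τ v K} := by
      rw [← lintegral_indicator_one hsec]
      apply lintegral_congr
      intro q
      by_cases hq : (q, r) ∈ BadSet a τ v K
      · rw [Set.indicator_of_mem hq, Set.indicator_of_mem (show q ∈ {q : T2 | (q, r) ∈
          BadSet a τ v K} from hq)]
        rfl
      · rw [Set.indicator_of_notMem hq, Set.indicator_of_notMem (show q ∉ {q : T2 | (q, r) ∈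
          BadSet a τ v K} from hq)]
    rw [e]
    have e2 : (volume : Measure T2) {q : T2 | (q, r) ∈ BadSet a τ v K} =
        ∫⁻ x : TT, volume (Prod.mk x ⁻¹' {q : T2 | (q, r) ∈ BadSet a τ v K}) :=
      Measure.prod_apply hsec
    rw [e2]
    apply lintegral_mono
    intro u
    apply measure_mono
    intro w hw
    have hw' : |(v4 a v (u, w) r).1 + k * (v4 a v (u, w) r).2| < τ * ‖v4 a v (u, w) r‖ := hw
    show |(c4 * c3 - 1 + k * c3) * (stp (cc a w) (stp (cc a u) v)).1 +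
      (-c4 - k) * (stp (cc a w) (stp (cc a u) v)).2| < τ * Λ ^ 4
    set x := stp (cc a w) (stp (cc a u) v) with hx
    have hv4 : v4 a v (u, w) r = stp c4 (stp c3 x) := rfl
    rw [hv4] at hw'
    have e3 : (c4 * c3 - 1 + k * c3) * x.1 + (-c4 - k) * x.2 =
        (stp c4 (stp c3 x)).1 + k * (stp c4 (stp c3 x)).2 := by
      unfold stp
      simp only
      ring
    rw [e3]
    refine lt_of_lt_of_le hw' (mul_le_mul_of_nonneg_left ?_ hτ0)
    have n1 := stp_le (cc_lam ha u) v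
    have n2 := stp_le (cc_lam ha w) (stp (cc a u) v)
    have n3 := stp_le b3 x
    have n4 := stp_le b4 (stp c3 x)
    rw [hv, mul_one] at n1
    calc ‖stp c4 (stp c3 x)‖ ≤ Λ * (Λ * (Λ * Λ)) := by
          refine n4.trans (mul_le_mul_of_nonneg_left ?_ hΛ0.le)
          refine n3.trans (mul_le_mul_of_nonneg_left ?_ hΛ0.le)
          exact n2.trans (mul_le_mul_of_nonneg_left n1 hΛ0.le)
      _ = Λ ^ 4 := by ring
  calc ∫⁻ r : T2, ∫⁻ q : T2, (BadSet a τ v K).indicator (fun _ => (1 : ENNReal)) (q, r)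
      ≤ ∫⁻ _ : T2, ENNReal.ofReal (9 * κ) := lintegral_mono h1
    _ = ENNReal.ofReal (9 * κ) := by rw [lintegral_const, measure_univ, mul_one]

theorem bad_scale {a τ s : ℝ} {v : ℝ × ℝ} {K : T2 → ℝ} (hs : 0 < s) :
    BadSet a τ (s • v) K = BadSet a τ v K := by
  ext x
  have e : v4 a (s • v) x.1 x.2 = s • v4 a v x.1 x.2 := by
    unfold v4
    rw [stp_smul, stp_smul, stp_smul, stp_smul]
  show |(v4 a (s • v) x.1 x.2).1 + K (phi a x.2.2 - x.2.1, x.2.2) * (v4 a (s • v) x.1 x.2).2| <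
    τ * ‖v4 a (s • v) x.1 x.2‖ ↔
    |(v4 a v x.1 x.2).1 + K (phi a x.2.2 - x.2.1, x.2.2) * (v4 a v x.1 x.2).2| <
    τ * ‖v4 a v x.1 x.2‖
  rw [e, norm_smul, Real.norm_eq_abs, abs_of_pos hs]
  have e2 : (s • v4 a v x.1 x.2).1 + K (phi a x.2.2 - x.2.1, x.2.2) * (s • v4 a v x.1 x.2).2 =
      s * ((v4 a v x.1 x.2).1 + K (phi a x.2.2 - x.2.1, x.2.2) * (v4 a v x.1 x.2).2) := by
    simp only [Prod.smul_fst, Prod.smul_snd, smul_eq_mul]
    ring
  rw [e2, abs_mul, abs_of_pos hs, show τ * (s * ‖v4 a v x.1 x.2‖) = s * (τ * ‖v4 a v x.1 x.2‖) by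
    ring]
  exact mul_lt_mul_iff_right₀ hs

theorem bad_all {a κ : ℝ} {v : ℝ × ℝ} {K : T2 → ℝ} (ha : 16 ≤ |a|) (hK : Measurable K)
    (hκ0 : 0 < κ) (hκ1 : κ ≤ 1) (hv : 0 < ‖v‖) :
    ∫⁻ q : T2, ∫⁻ r : T2, (BadSet a (κ ^ 6 / (2 * (7 * |a|) ^ 5)) v K).indicator
      (fun _ => (1 : ENNReal)) (q, r) ≤ ENNReal.ofReal (9 * κ) := by
  have h1 : ‖(‖v‖⁻¹ • v)‖ = 1 := by
    rw [norm_smul, norm_inv, norm_norm]
    field_simp
  have h2 := bad_unit (K := K) ha hK hκ0 hκ1 h1
  rwa [bad_scale (inv_pos.2 hv)] at h2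

/-- the set in terms of the noise -/
theorem four {a : ℝ} {B : Set (T2 × T2)} (hB : MeasurableSet B) {ν : Measure ℝ}
    {M : ENNReal} [SFinite ν]
    (hν : ν ≤ M • volume.restrict (Icc (-1 / 2 : ℝ) (1 / 2))) (P : T2) :
    ∫⁻ x1, ∫⁻ x2, ∫⁻ x3, ∫⁻ x4, B.indicator (fun _ => (1 : ENNReal))
      (((st a (x1 : TT) P).2, (st a (x2 : TT) (st a (x1 : TT) P)).2),
        ((st a (x3 : TT) (st a (x2 : TT) (st a (x1 : TT) P))).2,
          (st a (x4 : TT) (st a (x3 : TT) (st a (x2 : TT) (st a (x1 : TT) P)))).2)) ∂ν ∂ν ∂ν ∂ν ≤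
      M ^ 4 * ∫⁻ q : T2, ∫⁻ r : T2, B.indicator (fun _ => (1 : ENNReal)) (q, r) := by
  have hpc := phi_cont a
  set g : TT → TT → TT → TT → ENNReal := fun u1 u2 u3 u4 =>
    B.indicator (fun _ => (1 : ENNReal)) ((u1, u2), (u3, u4)) with hg
  have hgm : Measurable (fun x : TT × TT × TT × TT => g x.1 x.2.1 x.2.2.1 x.2.2.2) :=
    (measurable_const.indicator hB).comp (by fun_prop)
  -- the inner integrals
  set g3 : TT → TT → TT → ENNReal := fun u1 u2 u3 => ∫⁻ u4 : TT, g u1 u2 u3 u4 with hg3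
  set g2 : TT → TT → ENNReal := fun u1 u2 => ∫⁻ u3 : TT, g3 u1 u2 u3 with hg2
  set g1 : TT → ENNReal := fun u1 => ∫⁻ u2 : TT, g2 u1 u2 with hg1
  have m3 : Measurable (fun x : TT × TT × TT => g3 x.1 x.2.1 x.2.2) := by
    apply Measurable.lintegral_prod_right' (f := fun (y : (TT × TT × TT) × TT) =>
      g y.1.1 y.1.2.1 y.1.2.2 y.2)
    exact hgm.comp (f := fun y : (TT × TT × TT) × TT => (y.1.1, y.1.2.1, y.1.2.2, y.2))
      (by fun_prop)
  have m2 : Measurable (fun x : TT × TT => g2 x.1 x.2) := by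
    apply Measurable.lintegral_prod_right' (f := fun (y : (TT × TT) × TT) => g3 y.1.1 y.1.2 y.2)
    exact m3.comp (f := fun y : (TT × TT) × TT => (y.1.1, y.1.2, y.2)) (by fun_prop)
  have m1 : Measurable g1 := by
    apply Measurable.lintegral_prod_right' (f := fun (y : TT × TT) => g2 y.1 y.2)
    exact m2
  have s4 : ∀ u1 u2 u3 z : TT, ∫⁻ x4, g u1 u2 u3 (z + (x4 : TT)) ∂ν ≤ M * g3 u1 u2 u3 := by
    intro u1 u2 u3 z
    exact noise hν (h := fun u => g u1 u2 u3 u)
      (hgm.comp (f := fun u : TT => (u1, u2, u3, u)) (by fun_prop)) z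
  have s3 : ∀ u1 u2 z : TT, ∫⁻ x3, g3 u1 u2 (z + (x3 : TT)) ∂ν ≤ M * g2 u1 u2 := by
    intro u1 u2 z
    exact noise hν (h := fun u => g3 u1 u2 u)
      (m3.comp (f := fun u : TT => (u1, u2, u)) (by fun_prop)) z
  have s2 : ∀ u1 z : TT, ∫⁻ x2, g2 u1 (z + (x2 : TT)) ∂ν ≤ M * g1 u1 := by
    intro u1 z
    exact noise hν (h := fun u => g2 u1 u) (m2.comp (f := fun u : TT => (u1, u)) (by fun_prop)) z
  have s1 : ∀ z : TT, ∫⁻ x1, g1 (z + (x1 : TT)) ∂ν ≤ M * ∫⁻ u : TT, g1 u := fun z => noise hν m1 z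
  have hfin : ∫⁻ u : TT, g1 u = ∫⁻ q : T2, ∫⁻ r : T2, B.indicator (fun _ => (1 : ENNReal)) (q, r) := by
    have hBm : Measurable (B.indicator (fun _ => (1 : ENNReal))) := measurable_const.indicator hB
    have e1 : ∀ q : T2, ∫⁻ r : T2, B.indicator (fun _ => (1 : ENNReal)) (q, r) = g2 q.1 q.2 := by
      intro q
      have : ∫⁻ r : T2, B.indicator (fun _ => (1 : ENNReal)) (q, r) =
          ∫⁻ u3 : TT, ∫⁻ u4 : TT, B.indicator (fun _ => (1 : ENNReal)) (q, (u3, u4)) :=
        lintegral_prod (f := fun r : T2 => B.indicator (fun _ => (1 : ENNReal)) (q, r))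
          (hBm.comp (by fun_prop)).aemeasurable
      rw [this]
    simp_rw [e1]
    exact (lintegral_prod (f := fun q : T2 => g2 q.1 q.2) m2.aemeasurable).symm
  calc ∫⁻ x1, ∫⁻ x2, ∫⁻ x3, ∫⁻ x4, B.indicator (fun _ => (1 : ENNReal))
        (((st a (x1 : TT) P).2, (st a (x2 : TT) (st a (x1 : TT) P)).2),
          ((st a (x3 : TT) (st a (x2 : TT) (st a (x1 : TT) P))).2,
            (st a (x4 : TT) (st a (x3 : TT) (st a (x2 : TT) (st a (x1 : TT) P)))).2)) ∂ν ∂ν ∂ν ∂ν
      ≤ ∫⁻ x1, ∫⁻ x2, ∫⁻ x3, M * g3 (st a (x1 : TT) P).2 (st a (x2 : TT) (st a (x1 : TT) P)).2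
          (st a (x3 : TT) (st a (x2 : TT) (st a (x1 : TT) P))).2 ∂ν ∂ν ∂ν := by
        apply lintegral_mono; intro x1
        apply lintegral_mono; intro x2
        apply lintegral_mono; intro x3
        exact s4 _ _ _ _
    _ ≤ ∫⁻ x1, ∫⁻ x2, M * (M * g2 (st a (x1 : TT) P).2
          (st a (x2 : TT) (st a (x1 : TT) P)).2) ∂ν ∂ν := by
        apply lintegral_mono; intro x1
        apply lintegral_mono; intro x2
        show ∫⁻ x3, M * g3 (st a (x1 : TT) P).2 (st a (x2 : TT) (st a (x1 : TT) P)).2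
          ((st a (x2 : TT) (st a (x1 : TT) P)).1 + (x3 : TT)) ∂ν ≤ _
        rw [lintegral_const_mul _ (by
          apply (m3.comp (f := fun x3 : ℝ => ((st a (x1 : TT) P).2, (st a (x2 : TT)
            (st a (x1 : TT) P)).2, (st a (x2 : TT) (st a (x1 : TT) P)).1 + (x3 : TT))))
          apply Continuous.measurable
          have : Continuous fun x : ℝ => (x : TT) := AddCircle.continuous_mk' 1
          fun_prop)]
        exact mul_le_mul_right (s3 _ _ _) M
    _ ≤ ∫⁻ x1, M * (M * (M * g1 (st a (x1 : TT) P).2)) ∂ν := by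
        apply lintegral_mono; intro x1
        have hms : Measurable fun x2 : ℝ => g2 (st a (x1 : TT) P).2
            ((st a (x1 : TT) P).1 + (x2 : TT)) := by
          apply (m2.comp (f := fun x2 : ℝ => ((st a (x1 : TT) P).2, (st a (x1 : TT) P).1 + (x2 : TT))))
          apply Continuous.measurable
          have : Continuous fun x : ℝ => (x : TT) := AddCircle.continuous_mk' 1
          fun_prop
        show ∫⁻ x2, M * (M * g2 (st a (x1 : TT) P).2 ((st a (x1 : TT) P).1 + (x2 : TT))) ∂ν ≤ _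
        rw [lintegral_const_mul _ (hms.const_mul M), lintegral_const_mul _ hms]
        exact mul_le_mul_right (mul_le_mul_right (s2 _ _) M) M
    _ ≤ M * (M * (M * (M * ∫⁻ u : TT, g1 u))) := by
        have hms : Measurable fun x1 : ℝ => g1 (P.1 + (x1 : TT)) := by
          apply m1.comp
          apply Continuous.measurable
          have : Continuous fun x : ℝ => (x : TT) := AddCircle.continuous_mk' 1
          fun_prop
        show ∫⁻ x1, M * (M * (M * g1 (P.1 + (x1 : TT)))) ∂ν ≤ _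
        rw [lintegral_const_mul _ ((hms.const_mul M).const_mul M),
          lintegral_const_mul _ (hms.const_mul M), lintegral_const_mul _ hms]
        exact mul_le_mul_right (mul_le_mul_right (mul_le_mul_right (s1 _) M) M) M
    _ = _ := by rw [hfin]; ring

end Pool.Agent.V8H99.RP
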