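import Pool.Agent.V8H99.RP.Meas4

set_option autoImplicit false

/-!
# Random perturbations of the standard map: products of matrices
-/

namespace Pool.Agent.V8H99.RP

open Real

/-- the product of the matrices applied to a vector -/
def vec (c : ℕ → ℝ) (v : ℝ × ℝ) : ℕ → ℝ × ℝ
  | 0 => v
  | n + 1 => stp (c n) (vec c v n)

theorem vec_add (c : ℕ → ℝ) (v : ℝ × ℝ) (m n : ℕ) :
    vec c v (m + n) = vec (fun j => c (m + j)) (vec c v m) n := by
  induction n with
  | zero => rfl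
  | succ n ih =>
    show stp (c (m + n)) (vec c v (m + n)) = stp (c (m + n)) _
    rw [ih]

theorem vec_lin (c : ℕ → ℝ) (x y : ℝ) (n : ℕ) :
    vec c (x, y) n = (x * (vec c (1, 0) n).1 + y * (vec c (0, 1) n).1,
      x * (vec c (1, 0) n).2 + y * (vec c (0, 1) n).2) := by
  induction n with
  | zero => simp [vec]
  | succ n ih =>
    show stp (c n) (vec c (x, y) n) = _
    rw [ih]
    simp only [vec, stp]
    ext
    · simp only
      ring
    · rfl

theorem vec_det (c : ℕ → ℝ) (n : ℕ) :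
    (vec c (1, 0) n).1 * (vec c (0, 1) n).2 - (vec c (1, 0) n).2 * (vec c (0, 1) n).1 = 1 := by
  induction n with
  | zero => simp [vec]
  | succ n ih =>
    simp only [vec, stp]
    linarith

theorem stp_le {c Λ : ℝ} (h : |c| + 1 ≤ Λ) (v : ℝ × ℝ) : ‖stp c v‖ ≤ Λ * ‖v‖ := by
  have h1 : |v.1| ≤ ‖v‖ := norm_fst_le v
  have h2 : |v.2| ≤ ‖v‖ := norm_snd_le v
  have h3 : 0 ≤ ‖v‖ := norm_nonneg v
  rw [Prod.norm_def]
  apply max_le
  · show |c * v.1 - v.2| ≤ _
    refine (abs_sub _ _).trans ?_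
    rw [abs_mul]
    nlinarith [mul_le_mul_of_nonneg_left h1 (abs_nonneg c)]
  · show |v.1| ≤ _
    nlinarith [abs_nonneg c]

theorem stp_ge {c Λ : ℝ} (h : |c| + 1 ≤ Λ) (v : ℝ × ℝ) : ‖v‖ ≤ Λ * ‖stp c v‖ := by
  have h1 : |c * v.1 - v.2| ≤ ‖stp c v‖ := norm_fst_le (stp c v)
  have h2 : |v.1| ≤ ‖stp c v‖ := norm_snd_le (stp c v)
  have h3 : 0 ≤ ‖stp c v‖ := norm_nonneg _
  rw [Prod.norm_def]
  apply max_le
  · show |v.1| ≤ _
    nlinarith [abs_nonneg c]
  · show |v.2| ≤ _
    have e : v.2 = c * v.1 - (c * v.1 - v.2) := by ring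
    rw [e]
    refine (abs_sub _ _).trans ?_
    rw [abs_mul]
    nlinarith [mul_le_mul_of_nonneg_left h2 (abs_nonneg c)]

theorem vec_pos {c : ℕ → ℝ} {v : ℝ × ℝ} (hv : 0 < ‖v‖) (n : ℕ) : 0 < ‖vec c v n‖ := by
  induction n with
  | zero => exact hv
  | succ n ih =>
    have h := stp_ge (c := c n) le_rfl (vec c v n)
    have h2 : 0 < (|c n| + 1) * ‖stp (c n) (vec c v n)‖ := lt_of_lt_of_le ih h
    exact (pos_iff_pos_of_mul_pos h2).1 (by positivity)

theorem norm_e1 : ‖((1, 0) : ℝ × ℝ)‖ = 1 := by simp [Prod.norm_def]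

theorem vec_log_le {c : ℕ → ℝ} {v : ℝ × ℝ} {Λ : ℝ} (hΛ : 0 < Λ) (h : ∀ n, |c n| + 1 ≤ Λ)
    (hv : 0 < ‖v‖) (n : ℕ) : log ‖vec c v n‖ ≤ log ‖v‖ + n * log Λ := by
  induction n with
  | zero => simp [vec]
  | succ n ih =>
    have h1 : ‖vec c v (n + 1)‖ ≤ Λ * ‖vec c v n‖ := stp_le (h n) (vec c v n)
    have h2 := Real.log_le_log (vec_pos hv (n + 1)) h1
    rw [Real.log_mul hΛ.ne' (vec_pos hv n).ne'] at h2
    push_cast
    linarith

theorem vec_log_ge {c : ℕ → ℝ} {v : ℝ × ℝ} {Λ : ℝ} (hΛ : 0 < Λ) (h : ∀ n, |c n| + 1 ≤ Λ)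
    (hv : 0 < ‖v‖) (n : ℕ) : log ‖v‖ - n * log Λ ≤ log ‖vec c v n‖ := by
  induction n with
  | zero => simp [vec]
  | succ n ih =>
    have h1 : ‖vec c v n‖ ≤ Λ * ‖vec c v (n + 1)‖ := stp_ge (h n) (vec c v n)
    have h2 := Real.log_le_log (vec_pos hv n) h1
    rw [Real.log_mul hΛ.ne' (vec_pos hv (n + 1)).ne'] at h2
    push_cast
    linarith

/-- the vector is nearer to the vertical than to the horizontal direction -/
def bad (c : ℕ → ℝ) (n : ℕ) : Prop := |(vec c (1, 0) n).1| < |(vec c (1, 0) n).2|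

theorem not_bad_zero (c : ℕ → ℝ) : ¬ bad c 0 := by
  unfold bad vec
  simp

theorem bad_crit {c : ℕ → ℝ} {n : ℕ} (h1 : ¬ bad c n) (h2 : bad c (n + 1)) : |c n| < 2 := by
  unfold bad at h1 h2
  rw [not_lt] at h1
  set D := (vec c (1, 0) n).1 with hD
  set d := (vec c (1, 0) n).2 with hd
  have e1 : (vec c (1, 0) (n + 1)).1 = c n * D - d := rfl
  have e2 : (vec c (1, 0) (n + 1)).2 = D := rfl
  rw [e1, e2] at h2
  have h3 : |c n| * |D| ≤ |c n * D - d| + |d| := by
    rw [← abs_mul]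
    have := abs_add_le (c n * D - d) d
    simpa using this
  have hDp : 0 < |D| := lt_of_le_of_lt (abs_nonneg _) h2
  by_contra hcon
  rw [not_lt] at hcon
  nlinarith

/-- the exceptional configurations -/
def Ev (c : ℕ → ℝ) (j : ℕ) : Prop :=
  |c (j + 1)| < 2 ∧ (|c j| < 4 ∨ (∃ i, j = i + 1 ∧ |c i| < 2) ∨
    (4 ≤ |c j| ∧ |c (j + 1) - (c j)⁻¹| ≤ 4 / c j ^ 2) ∨
    (4 ≤ |c j| ∧ |c (j + 1) - (c j)⁻¹| ≤ 6 / (1 + |c (j + 2)|)))

theorem long_core {c : ℕ → ℝ} {j : ℕ} (h0 : ¬ bad c (j + 1)) (h1 : bad c (j + 2))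
    (h2 : bad c (j + 3)) (hprev : ∀ i, j = i + 1 → ¬ (bad c i ∧ bad c (i + 1))) : Ev c j := by
  have hc1 : |c (j + 1)| < 2 := bad_crit h0 h1
  refine ⟨hc1, ?_⟩
  by_cases hs : |c j| < 4
  · exact Or.inl hs
  right
  rw [not_lt] at hs
  by_cases hj : bad c j
  · left
    rcases Nat.eq_zero_or_pos j with h | h
    · rw [h] at hj
      exact absurd hj (not_bad_zero c)
    · obtain ⟨i, rfl⟩ : ∃ i, j = i + 1 := ⟨j - 1, by omega⟩
      refine ⟨i, rfl, bad_crit ?_ hj⟩
      intro hi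
      exact hprev i rfl ⟨hi, hj⟩
  right
  -- the numbers
  unfold bad at h0 h1 h2 hj
  rw [not_lt] at h0 hj
  set D := (vec c (1, 0) j).1 with hD
  set d := (vec c (1, 0) j).2 with hd
  have e1 : (vec c (1, 0) (j + 1)).1 = c j * D - d := rfl
  have e2 : (vec c (1, 0) (j + 1)).2 = D := rfl
  have e3 : (vec c (1, 0) (j + 2)).1 = c (j + 1) * (c j * D - d) - D := rfl
  have e4 : (vec c (1, 0) (j + 2)).2 = c j * D - d := rfl
  have e5 : (vec c (1, 0) (j + 3)).1 = c (j + 2) * (c (j + 1) * (c j * D - d) - D) -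
    (c j * D - d) := rfl
  have e6 : (vec c (1, 0) (j + 3)).2 = c (j + 1) * (c j * D - d) - D := rfl
  rw [e1, e2] at h0
  rw [e3, e4] at h1
  rw [e5, e6] at h2
  set P := c j * D - d with hP
  set Q := c (j + 1) * P - D with hQ
  have hPp : 0 < |P| := lt_of_le_of_lt (abs_nonneg _) h1
  have hQp : 0 < |Q| := lt_of_le_of_lt (abs_nonneg _) h2
  have hPn : P ≠ 0 := abs_pos.1 hPp
  have hcn : c j ≠ 0 := by
    intro h; rw [h, abs_zero] at hs; linarith
  have hcp : 0 < |c j| := by linarith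
  -- first quotient
  have f1 : |c (j + 1) - D / P| = |Q| / |P| := by
    rw [← abs_div]
    congr 1
    rw [hQ]
    field_simp
  have f2 : |Q| / |P| ≤ 3 / (1 + |c (j + 2)|) := by
    rw [div_le_div_iff₀ hPp (by positivity)]
    have g1 : |c (j + 2)| * |Q| ≤ |c (j + 2) * Q - P| + |P| := by
      rw [← abs_mul]
      have := abs_add_le (c (j + 2) * Q - P) P
      simpa using this
    nlinarith
  -- second quotient
  have f3 : |D / P - (c j)⁻¹| ≤ 2 / c j ^ 2 := by
    have e : D / P - (c j)⁻¹ = d / (P * c j) := by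
      rw [eq_div_iff (mul_ne_zero hPn hcn)]
      field_simp
      rw [hP]
      ring
    rw [e, abs_div, abs_mul]
    have g1 : |c j| * |D| ≤ |P| + |d| := by
      rw [← abs_mul, hP]
      have := abs_add_le (c j * D - d) d
      simpa using this
    have g2 : (|c j| - 1) * |D| ≤ |P| := by nlinarith
    have g3 : |d| * |c j| ≤ 2 * |P| := by
      nlinarith [abs_nonneg D, mul_nonneg (abs_nonneg D) hcp.le,
        mul_le_mul_of_nonneg_right hj hcp.le]
    rw [← sq_abs (c j), div_le_div_iff₀ (by positivity) (by positivity)]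
    nlinarith [mul_le_mul_of_nonneg_right g3 hcp.le]
  have f4 : |c (j + 1) - (c j)⁻¹| ≤ 3 / (1 + |c (j + 2)|) + 2 / c j ^ 2 := by
    have e : c (j + 1) - (c j)⁻¹ = (c (j + 1) - D / P) + (D / P - (c j)⁻¹) := by ring
    rw [e]
    refine (abs_add_le _ _).trans (add_le_add ?_ f3)
    rw [f1]
    exact f2
  rcases le_total (3 / (1 + |c (j + 2)|)) (2 / c j ^ 2) with h | h
  · left
    refine ⟨hs, f4.trans ?_⟩
    have : 4 / c j ^ 2 = 2 / c j ^ 2 + 2 / c j ^ 2 := by ring
    linarith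
  · right
    refine ⟨hs, f4.trans ?_⟩
    have : 6 / (1 + |c (j + 2)|) = 3 / (1 + |c (j + 2)|) + 3 / (1 + |c (j + 2)|) := by ring
    linarith

/-- a long excursion needs an exceptional configuration -/
theorem first_long {c : ℕ → ℝ} {N : ℕ} (h : ∃ n, n + 1 ≤ N ∧ bad c n ∧ bad c (n + 1)) :
    |c 0| < 2 ∨ ∃ j, j + 3 ≤ N ∧ Ev c j := by
  classical
  set n := Nat.find h with hn
  obtain ⟨h1, h2, h3⟩ := Nat.find_spec h
  have hmin : ∀ m, m < n → ¬ (m + 1 ≤ N ∧ bad c m ∧ bad c (m + 1)) := fun m hm =>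
    Nat.find_min h hm
  rw [← hn] at h1 h2 h3
  rcases n with _ | n
  · exact absurd h2 (not_bad_zero c)
  have h4 : ¬ bad c n := by
    intro hb
    exact hmin n (Nat.lt_succ_self n) ⟨by omega, hb, h2⟩
  rcases n with _ | j
  · exact Or.inl (bad_crit h4 h2)
  · right
    refine ⟨j, by omega, long_core h4 h2 h3 ?_⟩
    rintro i rfl ⟨hb1, hb2⟩
    exact hmin i (by omega) ⟨by omega, hb1, hb2⟩

open Classical in
/-- the indicator of the critical region -/
noncomputable def crit (x : ℝ) : ℝ := if |x| < 2 then 1 else 0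

theorem crit_nonneg (x : ℝ) : 0 ≤ crit x := by
  unfold crit; split_ifs <;> norm_num

open Classical in
theorem growth {c : ℕ → ℝ} {Λ : ℝ} (hΛ : 1 ≤ Λ) (h : ∀ n, |c n| + 1 ≤ Λ) (N : ℕ)
    (hN : ∀ n, n + 1 ≤ N → ¬ (bad c n ∧ bad c (n + 1))) :
    ∑ n ∈ Finset.range N, (lw (c n) - 4 * log Λ * crit (c n)) +
      (if bad c N then 2 * log Λ else 0) ≤ log ‖vec c (1, 0) N‖ := by
  have hℓ : 0 ≤ log Λ := Real.log_nonneg hΛ
  induction N with
  | zero =>
    rw [if_neg (not_bad_zero c)]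
    simp [vec]
  | succ N ih =>
    have ih := ih fun n hn => hN n (by omega)
    rw [Finset.sum_range_succ]
    have hpN := vec_pos (c := c) (v := (1, 0)) (by rw [norm_e1]; norm_num) N
    have hpN1 := vec_pos (c := c) (v := (1, 0)) (by rw [norm_e1]; norm_num) (N + 1)
    have hgen : log ‖vec c (1, 0) N‖ - log Λ ≤ log ‖vec c (1, 0) (N + 1)‖ := by
      have h1 : ‖vec c (1, 0) N‖ ≤ Λ * ‖vec c (1, 0) (N + 1)‖ := stp_ge (h N) (vec c (1, 0) N)
      have h2 := Real.log_le_log hpN h1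
      rw [Real.log_mul (by linarith) hpN1.ne'] at h2
      linarith
    have hlw : lw (c N) ≤ log Λ := by
      by_cases hc : |c N| < 2
      · exact (lw_small hc).trans hℓ
      · rw [not_lt] at hc
        refine (lw_big hc).trans (Real.log_le_log (by linarith) ?_)
        linarith [h N]
    have hcr := crit_nonneg (c N)
    by_cases hb : bad c N
    · have hb1 : ¬ bad c (N + 1) := fun hb1 => hN N le_rfl ⟨hb, hb1⟩
      rw [if_neg hb1]
      rw [if_pos hb] at ih
      have : 0 ≤ 4 * log Λ * crit (c N) := by positivity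
      linarith
    · rw [if_neg hb] at ih
      by_cases hc : |c N| < 2
      · have h1 : crit (c N) = 1 := by unfold crit; rw [if_pos hc]
        rw [h1]
        have h2 := lw_small hc
        have h3 : (if bad c (N + 1) then 2 * log Λ else 0) ≤ 2 * log Λ := by
          split_ifs <;> linarith
        linarith
      · have hb1 : ¬ bad c (N + 1) := fun hb1 => hc (bad_crit hb hb1)
        have h1 : crit (c N) = 0 := by unfold crit; rw [if_neg hc]
        rw [if_neg hb1, h1]
        rw [not_lt] at hc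
        have h2 : log ‖vec c (1, 0) N‖ + log (|c N| - 1) ≤ log ‖vec c (1, 0) (N + 1)‖ := by
          rw [← Real.log_mul hpN.ne' (by linarith)]
          apply Real.log_le_log (by nlinarith)
          unfold bad at hb
          rw [not_lt] at hb
          have hn : ‖vec c (1, 0) N‖ = |(vec c (1, 0) N).1| := by
            rw [Prod.norm_def]
            exact max_eq_left hb
          rw [hn]
          refine le_trans ?_ (norm_fst_le (vec c (1, 0) (N + 1)))
          show _ ≤ |c N * (vec c (1, 0) N).1 - (vec c (1, 0) N).2|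
          have h4 := abs_sub_abs_le_abs_sub (c N * (vec c (1, 0) N).1) (vec c (1, 0) N).2
          rw [abs_mul] at h4
          nlinarith
        have h3 := lw_big hc
        linarith

open Classical in
/-- the growth of the horizontal vector -/
theorem growth_all {c : ℕ → ℝ} {Λ : ℝ} (hΛ : 1 ≤ Λ) (h : ∀ n, |c n| + 1 ≤ Λ) (N : ℕ) :
    ∑ n ∈ Finset.range N, (lw (c n) - 4 * log Λ * crit (c n)) -
      2 * N * log Λ * (crit (c 0) + ∑ j ∈ Finset.range N, if Ev c j then (1:ℝ) else 0) ≤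
      log ‖vec c (1, 0) N‖ := by
  have hℓ : 0 ≤ log Λ := Real.log_nonneg hΛ
  have hs0 : 0 ≤ ∑ j ∈ Finset.range N, if Ev c j then (1:ℝ) else 0 :=
    Finset.sum_nonneg fun j _ => by split_ifs <;> norm_num
  have hc0 := crit_nonneg (c 0)
  by_cases hN : ∃ n, n + 1 ≤ N ∧ bad c n ∧ bad c (n + 1)
  · have h1 : 1 ≤ crit (c 0) + ∑ j ∈ Finset.range N, if Ev c j then (1:ℝ) else 0 := by
      rcases first_long hN with h2 | ⟨j, hj, h2⟩
      · have : crit (c 0) = 1 := by unfold crit; rw [if_pos h2]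
        linarith
      · have h3 : (if Ev c j then (1:ℝ) else 0) ≤ ∑ j ∈ Finset.range N, if Ev c j then (1:ℝ) else 0 :=
          Finset.single_le_sum (f := fun j => if Ev c j then (1:ℝ) else 0)
            (fun i _ => by split_ifs <;> norm_num) (Finset.mem_range.2 (by omega))
        rw [if_pos h2] at h3
        linarith
    have h4 := vec_log_ge (by linarith) h (v := (1, 0)) (by rw [norm_e1]; norm_num) N
    rw [norm_e1, Real.log_one] at h4
    have h5 : ∑ n ∈ Finset.range N, (lw (c n) - 4 * log Λ * crit (c n)) ≤ N * log Λ := by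
      calc ∑ n ∈ Finset.range N, (lw (c n) - 4 * log Λ * crit (c n))
          ≤ ∑ n ∈ Finset.range N, log Λ := by
            apply Finset.sum_le_sum
            intro n _
            have h6 : 0 ≤ 4 * log Λ * crit (c n) := by
              have := crit_nonneg (c n); positivity
            have h7 : lw (c n) ≤ log Λ := by
              by_cases hc : |c n| < 2
              · exact (lw_small hc).trans hℓ
              · rw [not_lt] at hc
                refine (lw_big hc).trans (Real.log_le_log (by linarith) ?_)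
                linarith [h n]
            linarith
        _ = N * log Λ := by rw [Finset.sum_const, Finset.card_range, nsmul_eq_mul]
    have h6 : 0 ≤ 2 * (N:ℝ) * log Λ := by positivity
    nlinarith
  · have h1 := growth hΛ h N (fun n hn hb => hN ⟨n, hn, hb⟩)
    have h2 : 0 ≤ (if bad c N then 2 * log Λ else 0) := by split_ifs <;> linarith
    have h3 : 0 ≤ 2 * N * log Λ * (crit (c 0) + ∑ j ∈ Finset.range N, if Ev c j then (1:ℝ) else 0) := by
      positivity
    linarith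

/-- the coordinate of the contracted direction -/
noncomputable def kap (c : ℕ → ℝ) (N : ℕ) : ℝ :=
  if |(vec c (1, 0) N).2| ≤ |(vec c (1, 0) N).1| then (vec c (0, 1) N).1 / (vec c (1, 0) N).1
  else (vec c (0, 1) N).2 / (vec c (1, 0) N).2

theorem kap_ge (c : ℕ → ℝ) (N : ℕ) (v : ℝ × ℝ) :
    ‖vec c (1, 0) N‖ * |v.1 + kap c N * v.2| ≤ ‖vec c v N‖ := by
  have hp := vec_pos (c := c) (v := (1, 0)) (by rw [norm_e1]; norm_num) N
  have hv : vec c v N = (v.1 * (vec c (1, 0) N).1 + v.2 * (vec c (0, 1) N).1,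
      v.1 * (vec c (1, 0) N).2 + v.2 * (vec c (0, 1) N).2) := vec_lin c v.1 v.2 N
  unfold kap
  split_ifs with h
  · have hn : ‖vec c (1, 0) N‖ = |(vec c (1, 0) N).1| := by
      rw [Prod.norm_def]; exact max_eq_left h
    rw [hn] at hp ⊢
    rw [← abs_mul]
    refine le_trans (le_of_eq ?_) (norm_fst_le (vec c v N))
    rw [hv]
    show _ = |v.1 * (vec c (1, 0) N).1 + v.2 * (vec c (0, 1) N).1|
    congr 1
    have : (vec c (1, 0) N).1 ≠ 0 := abs_pos.1 hp
    field_simp
  · rw [not_le] at h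
    have hn : ‖vec c (1, 0) N‖ = |(vec c (1, 0) N).2| := by
      rw [Prod.norm_def]; exact max_eq_right h.le
    rw [hn] at hp ⊢
    rw [← abs_mul]
    refine le_trans (le_of_eq ?_) (norm_snd_le (vec c v N))
    rw [hv]
    show _ = |v.1 * (vec c (1, 0) N).2 + v.2 * (vec c (0, 1) N).2|
    congr 1
    have : (vec c (1, 0) N).2 ≠ 0 := abs_pos.1 hp
    field_simp

open Classical in
/-- joining two blocks -/
theorem join {c : ℕ → ℝ} {v : ℝ × ℝ} {Λ τ : ℝ} (hΛ : 1 ≤ Λ) (h : ∀ n, |c n| + 1 ≤ Λ)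
    (hv : 0 < ‖v‖) (hτ0 : 0 < τ) (hτ1 : τ ≤ 1) (N : ℕ) :
    log ‖v‖ + log ‖vec c (1, 0) N‖ + log τ - 2 * N * log Λ *
      (if |v.1 + kap c N * v.2| < τ * ‖v‖ then 1 else 0) ≤ log ‖vec c v N‖ := by
  have hℓ : 0 ≤ log Λ := Real.log_nonneg hΛ
  have hp := vec_pos (c := c) (v := (1, 0)) (by rw [norm_e1]; norm_num) N
  split_ifs with hb
  · have h1 := vec_log_ge (by linarith) h hv N
    have h2 := vec_log_le (by linarith) h (v := (1, 0)) (by rw [norm_e1]; norm_num) N
    rw [norm_e1, Real.log_one] at h2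
    have h3 : log τ ≤ 0 := Real.log_nonpos hτ0.le hτ1
    linarith
  · rw [not_lt] at hb
    have h1 := kap_ge c N v
    rw [mul_zero, sub_zero]
    have h2 : log (‖vec c (1, 0) N‖ * (τ * ‖v‖)) ≤ log ‖vec c v N‖ := by
      apply Real.log_le_log (by positivity)
      exact (mul_le_mul_of_nonneg_left hb (norm_nonneg _)).trans h1
    rw [Real.log_mul hp.ne' (by positivity), Real.log_mul hτ0.ne' hv.ne'] at h2
    linarith

end Pool.Agent.V8H99.RP
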